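import Pool.Agent.H68.SM.CutG
import Pool.Agent.H68.SC.Core

/-!
# Module CoreG (about 230 lines): the counting argument in a parity class

PROOF. Copy H68/SC/CoreA.lean and H68/SC/Core.lean, replacing `Sy s` by `Cl e` and `cutS` by `cutG`.
The only new point: for `χ` invariant under the `rf j` with `e j ≠ 0` and `w ∈ Cl e`, `χ * w ∈ Cl e`.
-/

set_option autoImplicit false

namespace Pool.Agent.H68.SM

open Filter Topology MeasureTheory Metric
open scoped ContDiff
open Pool.Agent.H68.SC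

/-- linear combinations of the eigenfunctions -/
private def CoreG_vA {n : ℕ} (w : Fin n → E → ℝ) (a : Fin n → ℝ) (x : E) : ℝ := ∑ i, a i * w i x

private theorem CoreG_vA_eq {n : ℕ} (w : Fin n → E → ℝ) (a : Fin n → ℝ) :
    CoreG_vA w a = ∑ i, a i • w i := by
  funext x
  simp [CoreG_vA, Finset.sum_apply]

private theorem CoreG_vA_eigf {D : Set E} (hD : IsOpen D) {K : ℝ} {n : ℕ} {w : Fin n → E → ℝ}
    (hw : ∀ i, Eigf D K (w i)) (a : Fin n → ℝ) : Eigf D K (CoreG_vA w a) := by
  rw [CoreG_vA_eq]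
  exact Finset.sum_induction (fun i => a i • w i) (Eigf D K) (fun _ _ h h' => Eigf.add hD h h')
    Eigf.zero' (fun i _ => Eigf.smul hD (a i) (hw i))

private theorem CoreG_vA_sy {e : Fin 3 → ℝ} {n : ℕ} {w : Fin n → E → ℝ}
    (hws : ∀ i, w i ∈ Cl e) (a : Fin n → ℝ) : CoreG_vA w a ∈ Cl e := by
  rw [CoreG_vA_eq]
  exact Submodule.sum_mem _ fun i _ => Submodule.smul_mem _ _ (hws i)

private theorem CoreG_cs_of {D : Set E} (hb : Bornology.IsBounded D) {w : E → ℝ}
    (h : ∀ x, x ∉ D → w x = 0) : HasCompactSupport w := by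
  refine HasCompactSupport.intro (K := closure D) hb.isCompact_closure fun x hx => ?_
  exact h x fun hx' => hx (subset_closure hx')

private theorem CoreG_vA_add {n : ℕ} (w : Fin n → E → ℝ) (a b : Fin n → ℝ) (x : E) :
    CoreG_vA w (a + b) x = CoreG_vA w a x + CoreG_vA w b x := by
  simp [CoreG_vA, add_mul, Finset.sum_add_distrib]

private theorem CoreG_vA_smul {n : ℕ} (w : Fin n → E → ℝ) (c : ℝ) (a : Fin n → ℝ) (x : E) :
    CoreG_vA w (c • a) x = c * CoreG_vA w a x := by
  simp only [CoreG_vA, Pi.smul_apply, smul_eq_mul, Finset.mul_sum]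
  exact Finset.sum_congr rfl fun i _ => by ring

private theorem CoreG_vA_sq_le {n : ℕ} (w : Fin n → E → ℝ) (a : Fin n → ℝ) (x : E) :
    CoreG_vA w a x ^ 2 ≤ (∑ i, a i ^ 2) * ∑ i, w i x ^ 2 :=
  Finset.sum_mul_sq_le_sq_mul_sq _ _ _

/-- step (i) -/
private theorem CoreG_step1 {D : Set E} {K : ℝ} (F : Submodule ℝ (E → ℝ)) (hF : F ≤ C1c D)
    (hfin : Module.Finite ℝ F) (hneg : ∀ f ∈ F, f ≠ 0 → BB K f f < 0) :
    ∃ δ : ℝ, 0 < δ ∧ ∀ f ∈ F, δ * ∫ x, f x ^ 2 ≤ - BB K f f := by
  let p : LinearMap.BilinForm ℝ F := LinearMap.mk₂ ℝ (fun f g => - BB K (f : E → ℝ) g)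
    (by
      intro f g h
      simp only [Submodule.coe_add]
      rw [BB_add_left (hF f.2) (hF g.2) (hF h.2)]; ring)
    (by
      intro a f h
      simp only [Submodule.coe_smul, smul_eq_mul]
      rw [BB_smul_left a (hF f.2)]; ring)
    (by
      intro h f g
      simp only [Submodule.coe_add]
      rw [BB_comm K h, BB_add_left (hF f.2) (hF g.2) (hF h.2), BB_comm K h, BB_comm K h]; ring)
    (by
      intro a h f
      simp only [Submodule.coe_smul, smul_eq_mul]
      rw [BB_comm K h, BB_smul_left a (hF f.2), BB_comm K h]; ring)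
  let q : LinearMap.BilinForm ℝ F := LinearMap.mk₂ ℝ (fun f g => ∫ x, (f : E → ℝ) x * (g : E → ℝ) x)
    (by
      intro f g h
      rw [← integral_add (C1c.int_mul (hF f.2) (hF h.2)) (C1c.int_mul (hF g.2) (hF h.2))]
      refine integral_congr_ae (Eventually.of_forall fun x => ?_)
      simp only [Submodule.coe_add, Pi.add_apply]; ring)
    (by
      intro a f h
      rw [smul_eq_mul, ← integral_const_mul]
      refine integral_congr_ae (Eventually.of_forall fun x => ?_)
      simp only [Submodule.coe_smul, Pi.smul_apply, smul_eq_mul]; ring)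
    (by
      intro h f g
      rw [← integral_add (C1c.int_mul (hF h.2) (hF f.2)) (C1c.int_mul (hF h.2) (hF g.2))]
      refine integral_congr_ae (Eventually.of_forall fun x => ?_)
      simp only [Submodule.coe_add, Pi.add_apply]; ring)
    (by
      intro a h f
      rw [smul_eq_mul, ← integral_const_mul]
      refine integral_congr_ae (Eventually.of_forall fun x => ?_)
      simp only [Submodule.coe_smul, Pi.smul_apply, smul_eq_mul]; ring)
  obtain ⟨δ, hδ, h⟩ := fin_quad p q (fun v hv => by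
    change 0 < - BB K (v : E → ℝ) v
    have := hneg v v.2 (fun h0 => hv (Subtype.ext h0))
    linarith)
  refine ⟨δ, hδ, fun f hf => ?_⟩
  have h1 : δ * ∫ x, f x * f x ≤ - BB K f f := h ⟨f, hf⟩
  have h2 : ∫ x, f x ^ 2 = ∫ x, f x * f x :=
    integral_congr_ae (Eventually.of_forall fun x => sq (f x))
  rw [h2]; exact h1

/-- step (ii) -/
private theorem CoreG_step2 {D : Set E} (hD : IsOpen D) (hb : Bornology.IsBounded D) {K : ℝ} {n : ℕ}
    {w : Fin n → E → ℝ} (hw : ∀ i, Eigf D K (w i)) (hli : LinearIndependent ℝ w) :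
    ∃ δ : ℝ, 0 < δ ∧ ∀ a : Fin n → ℝ, δ * ∑ i, a i ^ 2 ≤ ∫ x, CoreG_vA w a x ^ 2 := by
  have hc : ∀ a, Continuous (CoreG_vA w a) := fun a => (CoreG_vA_eigf hD hw a).cont
  have hs : ∀ a, HasCompactSupport (CoreG_vA w a) := fun a => CoreG_cs_of hb (CoreG_vA_eigf hD hw a).out
  have hi : ∀ a b, Integrable (fun x => CoreG_vA w a x * CoreG_vA w b x) := fun a b =>
    integrable_cc ((hc a).mul (hc b)) (HasCompactSupport.mul_right (hs a))
  let p : LinearMap.BilinForm ℝ (Fin n → ℝ) := LinearMap.mk₂ ℝ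
    (fun a b => ∫ x, CoreG_vA w a x * CoreG_vA w b x)
    (by
      intro a b c
      rw [← integral_add (hi a c) (hi b c)]
      refine integral_congr_ae (Eventually.of_forall fun x => ?_)
      simp only [CoreG_vA_add]; ring)
    (by
      intro t a c
      rw [smul_eq_mul, ← integral_const_mul]
      refine integral_congr_ae (Eventually.of_forall fun x => ?_)
      simp only [CoreG_vA_smul]; ring)
    (by
      intro c a b
      rw [← integral_add (hi c a) (hi c b)]
      refine integral_congr_ae (Eventually.of_forall fun x => ?_)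
      simp only [CoreG_vA_add]; ring)
    (by
      intro t c a
      rw [smul_eq_mul, ← integral_const_mul]
      refine integral_congr_ae (Eventually.of_forall fun x => ?_)
      simp only [CoreG_vA_smul]; ring)
  let q : LinearMap.BilinForm ℝ (Fin n → ℝ) := LinearMap.mk₂ ℝ
    (fun a b => ∑ i, a i * b i)
    (by intro a b c; simp [add_mul, Finset.sum_add_distrib])
    (by
      intro t a c
      simp only [Pi.smul_apply, smul_eq_mul, Finset.mul_sum]
      exact Finset.sum_congr rfl fun i _ => by ring)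
    (by intro a b c; simp [mul_add, Finset.sum_add_distrib])
    (by
      intro t a c
      simp only [Pi.smul_apply, smul_eq_mul, Finset.mul_sum]
      exact Finset.sum_congr rfl fun i _ => by ring)
  have hsq : ∀ a, ∫ x, CoreG_vA w a x ^ 2 = ∫ x, CoreG_vA w a x * CoreG_vA w a x := fun a =>
    integral_congr_ae (Eventually.of_forall fun x => sq (CoreG_vA w a x))
  obtain ⟨δ, hδ, h⟩ := fin_quad p q (fun a ha => by
    change 0 < ∫ x, CoreG_vA w a x * CoreG_vA w a x
    rw [← hsq a]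
    refine int_sq_pos (hc a) (hs a) fun h0 => ha ?_
    rw [CoreG_vA_eq] at h0
    funext i
    exact Fintype.linearIndependent_iff.1 hli a h0 i)
  refine ⟨δ, hδ, fun a => ?_⟩
  have h1 : δ * ∑ i, a i * a i ≤ ∫ x, CoreG_vA w a x * CoreG_vA w a x := h a
  rw [hsq a]
  have h2 : ∑ i, a i ^ 2 = ∑ i, a i * a i := Finset.sum_congr rfl fun i _ => sq (a i)
  rw [h2]; exact h1

/-- step (iii) -/
private theorem CoreG_step3 {D : Set E} (F : Submodule ℝ (E → ℝ)) (hF : F ≤ C1c D)
    (hfin : Module.Finite ℝ F) : ∃ K₀ : Set E, IsCompact K₀ ∧ K₀ ⊆ D ∧ ∀ f ∈ F, tsupport f ⊆ K₀ := by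
  let b := Module.finBasis ℝ F
  have hc : IsCompact (⋃ i, tsupport ((b i : F) : E → ℝ)) :=
    isCompact_iUnion fun i => C1c.compact (hF (b i).2)
  refine ⟨⋃ i, tsupport ((b i : F) : E → ℝ), hc,
    Set.iUnion_subset fun i => C1c.sub (hF (b i).2), fun f hf => ?_⟩
  refine closure_minimal ?_ hc.isClosed
  intro x hx
  by_contra hne
  refine hx ?_
  have h1 := b.sum_repr ⟨f, hf⟩
  have h2 : f = ∑ i, b.repr ⟨f, hf⟩ i • ((b i : F) : E → ℝ) := by
    have := congrArg (fun g : F => (g : E → ℝ)) h1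
    simp only [Submodule.coe_sum, Submodule.coe_smul] at this
    exact this.symm
  rw [h2, Finset.sum_apply]
  refine Finset.sum_eq_zero fun i _ => ?_
  have h3 : ((b i : F) : E → ℝ) x = 0 := by
    by_contra h4
    exact hne (Set.mem_iUnion.2 ⟨i, subset_tsupport _ h4⟩)
  rw [Pi.smul_apply, h3, smul_zero]

private theorem CoreG_coreA {D : Set E} (hD : IsOpen D) (hb : Bornology.IsBounded D) {K : ℝ} (hK : 0 < K)
    {e : Fin 3 → ℝ} (he : ∀ j, e j = 0 ∨ e j = 1 ∨ e j = -1)
    (hDe : ∀ j, e j ≠ 0 → ∀ x ∈ D, rf j x ∈ D) {n : ℕ}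
    (w : Fin n → E → ℝ) (hw : ∀ i, Eigf D K (w i)) (hws : ∀ i, w i ∈ Cl e)
    (hli : LinearIndependent ℝ w) (F : Submodule ℝ (E → ℝ)) (hF : F ≤ C1c D ⊓ Cl e)
    (hfin : Module.Finite ℝ F) (hneg : ∀ f ∈ F, f ≠ 0 → BB K f f < 0) {ε : ℝ} (hε : 0 < ε) :
    ∃ χ : E → ℝ, ∀ f ∈ F, ∀ a : Fin n → ℝ,
      (fun x => f x + χ x * ∑ i, a i * w i x) ∈ C1c D ⊓ Cl e ∧
      BB K (fun x => f x + χ x * ∑ i, a i * w i x) (fun x => f x + χ x * ∑ i, a i * w i x) ≤
        ε * ∫ x, (f x + χ x * ∑ i, a i * w i x) ^ 2 ∧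
      ((fun x => f x + χ x * ∑ i, a i * w i x) = 0 → f = 0 ∧ a = 0) := by
  have hF' : F ≤ C1c D := hF.trans inf_le_left
  obtain ⟨δ₁, hδ₁, h1⟩ := CoreG_step1 F hF' hfin hneg
  obtain ⟨δ₂, hδ₂, h2⟩ := CoreG_step2 hD hb hw hli
  obtain ⟨K₀, hK₀, hK₀D, h3⟩ := CoreG_step3 F hF' hfin
  set vol : ℝ := (volume D).toReal with hvol
  have hvol0 : 0 ≤ vol := ENNReal.toReal_nonneg
  have hvolf : volume D ≠ ⊤ := hb.measure_lt_top.ne
  set η : ℝ := min ε δ₁ with hη
  have hη0 : 0 < η := lt_min hε hδ₁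
  set ε' : ℝ := min (η * δ₂ / 6) (δ₂ / (6 * (vol + 1))) with hε'
  have hε'0 : 0 < ε' := lt_min (by positivity) (by positivity)
  have e1 : ε' ≤ η * δ₂ / 6 := min_le_left _ _
  have e2 : ε' * vol ≤ δ₂ / 6 := by
    have h4 : ε' ≤ δ₂ / (6 * (vol + 1)) := min_le_right _ _
    calc ε' * vol ≤ δ₂ / (6 * (vol + 1)) * (vol + 1) :=
          mul_le_mul h4 (by linarith) hvol0 (by positivity)
      _ = δ₂ / 6 := by field_simp
  obtain ⟨χ, hχC, hχr, hχ01, hχ1, hχe, hχs⟩ := cutG hD hb hK he hDe w hw hws hK₀ hK₀D hε'0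
  refine ⟨χ, fun f hf a => ?_⟩
  set V : E → ℝ := CoreG_vA w a with hV
  have hVe : Eigf D K V := CoreG_vA_eigf hD hw a
  set A : ℝ := ∑ i, a i ^ 2 with hA
  have hA0 : 0 ≤ A := Finset.sum_nonneg fun i _ => sq_nonneg _
  set h : E → ℝ := fun x => χ x * V x with hh
  have hfC : f ∈ C1c D := hF' hf
  have hhC : h ∈ C1c D := mul_mem hD hVe hχC
  have hhS : h ∈ Cl e := by
    intro j hj x
    have e3 : χ (rf j x) = χ x := hχr j hj x
    have e4 : V (rf j x) = e j * V x := CoreG_vA_sy hws a j hj x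
    simp only [hh, e3, e4]
    ring
  have hg : (fun x => f x + χ x * ∑ i, a i * w i x) = f + h := by
    funext x; rfl
  have hgC : f + h ∈ C1c D := add_mem hfC hhC
  have hVc : Continuous V := hVe.cont
  have hVs : HasCompactSupport V := CoreG_cs_of hb hVe.out
  -- the energy of `χ V`
  have hquad : BB K h h ≤ A * ε' := by
    have e5 : BB K h h = ∫ x, V x ^ 2 * gg χ χ x := quad hD hVe hχC
    have hwc : Continuous fun x => ∑ i, w i x ^ 2 :=
      continuous_finsetSum _ fun i _ => (hw i).cont.pow 2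
    have hgc : Continuous (gg χ χ) := continuous_gg (C1c.contDiff hχC) (C1c.contDiff hχC)
    have hgs : HasCompactSupport (gg χ χ) := hasCompactSupport_gg (C1c.compact hχC) χ
    rw [e5]
    calc ∫ x, V x ^ 2 * gg χ χ x ≤ ∫ x, A * ((∑ i, w i x ^ 2) * gg χ χ x) := by
          refine integral_mono (integrable_cc ((hVc.pow 2).mul hgc)
            (HasCompactSupport.mul_left hgs)) ((integrable_cc (hwc.mul hgc)
            (HasCompactSupport.mul_left hgs)).const_mul A) fun x => ?_
          have := mul_le_mul_of_nonneg_right (CoreG_vA_sq_le w a x) (gg_nonneg χ x)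
          simp only
          linarith
      _ = A * ∫ x, (∑ i, w i x ^ 2) * gg χ χ x := integral_const_mul _ _
      _ ≤ A * ε' := mul_le_mul_of_nonneg_left hχe hA0
  have hcross : BB K f h = 0 :=
    cross hD hVe hχC hfC fun x hx => hχ1 x (h3 f hf hx)
  have hBB : BB K (f + h) (f + h) ≤ -(δ₁ * ∫ x, f x ^ 2) + A * ε' := by
    rw [BB_add_self hfC hhC, hcross]
    have := h1 f hf
    linarith
  -- lower bound for the norm
  have iV : Integrable (fun x => V x ^ 2) := by
    have : (fun x => V x ^ 2) = fun x => V x * V x := by funext x; ring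
    rw [this]
    exact integrable_cc (hVc.mul hVc) (HasCompactSupport.mul_right hVs)
  have isq : ∀ {g : E → ℝ}, g ∈ C1c D → Integrable (fun x => g x ^ 2) := fun {g} hg => by
    have : (fun x => g x ^ 2) = fun x => g x * g x := by funext x; ring
    rw [this]
    exact C1c.int_mul hg hg
  have hind : Integrable (D.indicator fun _ : E => A * ε') :=
    (integrable_indicator_iff hD.measurableSet).2 (integrableOn_const hvolf)
  have hnorm : δ₂ * A ≤ 3 * (∫ x, (f + h) x ^ 2) + 3 * (∫ x, f x ^ 2) + 3 * (A * ε' * vol) := by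
    calc δ₂ * A ≤ ∫ x, V x ^ 2 := h2 a
      _ ≤ ∫ x, (3 * (f + h) x ^ 2 + 3 * f x ^ 2 + 3 * D.indicator (fun _ : E => A * ε') x) := by
          refine integral_mono iV ((((isq hgC).const_mul 3).add ((isq hfC).const_mul 3)).add
            (hind.const_mul 3)) fun x => ?_
          simp only [Pi.add_apply]
          have e6 : ((1 - χ x) * V x) ^ 2 ≤ D.indicator (fun _ : E => A * ε') x := by
            by_cases hx : x ∈ D
            · rw [Set.indicator_of_mem hx]
              have e7 := CoreG_vA_sq_le w a x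
              have e8 := hχs x
              have e9 : 0 ≤ (1 - χ x) ^ 2 := sq_nonneg _
              calc ((1 - χ x) * V x) ^ 2 = (1 - χ x) ^ 2 * V x ^ 2 := by ring
                _ ≤ (1 - χ x) ^ 2 * (A * ∑ i, w i x ^ 2) := mul_le_mul_of_nonneg_left e7 e9
                _ = A * ((1 - χ x) ^ 2 * ∑ i, w i x ^ 2) := by ring
                _ ≤ A * ε' := mul_le_mul_of_nonneg_left e8 hA0
            · rw [Set.indicator_of_notMem hx, hVe.out x hx]; simp
          have e10 : h x = χ x * V x := rfl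
          have e11 : V x = (f x + h x) - f x + (1 - χ x) * V x := by rw [e10]; ring
          nlinarith [sq_nonneg ((f x + h x) + f x), sq_nonneg ((f x + h x) - (1 - χ x) * V x),
            sq_nonneg (f x + (1 - χ x) * V x), e6, e11]
      _ = 3 * (∫ x, (f + h) x ^ 2) + 3 * (∫ x, f x ^ 2) + 3 * (A * ε' * vol) := by
          have j1 : Integrable (fun x => 3 * (f + h) x ^ 2) := (isq hgC).const_mul 3
          have j2 : Integrable (fun x => 3 * f x ^ 2) := (isq hfC).const_mul 3
          have j3 : Integrable (fun x => 3 * (f + h) x ^ 2 + 3 * f x ^ 2) := j1.add j2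
          rw [integral_add j3 (hind.const_mul 3), integral_add j1 j2,
            integral_const_mul, integral_const_mul, integral_const_mul,
            integral_indicator hD.measurableSet, setIntegral_const]
          simp only [smul_eq_mul, Measure.real]
          rw [← hvol]; ring
  have hN : δ₂ * A / 6 ≤ (∫ x, (f + h) x ^ 2) + ∫ x, f x ^ 2 := by
    have e12 : A * ε' * vol ≤ A * (δ₂ / 6) := by
      rw [mul_assoc]; exact mul_le_mul_of_nonneg_left e2 hA0
    nlinarith
  have hf0 : 0 ≤ ∫ x, f x ^ 2 := integral_nonneg fun x => sq_nonneg _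
  have hg0 : 0 ≤ ∫ x, (f + h) x ^ 2 := integral_nonneg fun x => sq_nonneg _
  rw [hg]
  refine ⟨⟨hgC, add_mem (hF hf).2 hhS⟩, ?_, ?_⟩
  · change BB K (f + h) (f + h) ≤ ε * ∫ x, (f + h) x ^ 2
    have e13 : η * (∫ x, (f + h) x ^ 2) ≤ ε * ∫ x, (f + h) x ^ 2 :=
      mul_le_mul_of_nonneg_right (min_le_left _ _) hg0
    have e14 : η * (∫ x, f x ^ 2) ≤ δ₁ * ∫ x, f x ^ 2 :=
      mul_le_mul_of_nonneg_right (min_le_right _ _) hf0
    have e15 : A * ε' ≤ η * (δ₂ * A / 6) := by
      calc A * ε' ≤ A * (η * δ₂ / 6) := mul_le_mul_of_nonneg_left e1 hA0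
        _ = η * (δ₂ * A / 6) := by ring
    have e16 : η * (δ₂ * A / 6) ≤ η * ((∫ x, (f + h) x ^ 2) + ∫ x, f x ^ 2) :=
      mul_le_mul_of_nonneg_left hN hη0.le
    nlinarith
  · intro h0
    have e17 : BB K (f + h) f = BB K f f + BB K h f := BB_add_left hfC hhC hfC K
    have e18 : BB K (f + h) f = 0 := by
      rw [h0]
      have := BB_smul_left (Ω := D) (f := f) (h := f) 0 hfC K
      rw [zero_smul, zero_mul] at this
      exact this
    rw [e18, BB_comm K h f, hcross, add_zero] at e17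
    have hfz : f = 0 := by
      by_contra hne
      have := hneg f hf hne
      linarith
    refine ⟨hfz, ?_⟩
    have e19 : ∫ x, (f + h) x ^ 2 = 0 := by rw [h0]; simp
    have e20 : ∫ x, f x ^ 2 = 0 := by rw [hfz]; simp
    rw [e19, e20] at hN
    have e21 : A = 0 := by
      have : δ₂ * A ≤ 0 := by linarith
      nlinarith
    funext i
    have e22 := (Finset.sum_eq_zero_iff_of_nonneg (fun i _ => sq_nonneg (a i))).1 e21 i
      (Finset.mem_univ i)
    simpa using e22

theorem coreG {D : Set E} (hD : IsOpen D) (hb : Bornology.IsBounded D) {K : ℝ} (hK : 0 < K)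
    {e : Fin 3 → ℝ} (he : ∀ j, e j = 0 ∨ e j = 1 ∨ e j = -1)
    (hDe : ∀ j, e j ≠ 0 → ∀ x ∈ D, rf j x ∈ D) {n : ℕ}
    (w : Fin n → E → ℝ) (hw : ∀ i, Eigf D K (w i)) (hwe : ∀ i, w i ∈ Cl e)
    (hli : LinearIndependent ℝ w) {m M : ℕ}
    (h1 : AtLeast (Cl e) D K m) (h2 : AtMost (Cl e) D K M) : m + n ≤ M := by
  obtain ⟨F, hF, hfin, hm, hneg⟩ := h1
  obtain ⟨ε, hε, hM⟩ := h2
  have hneg' : ∀ f ∈ F, f ≠ 0 → BB K f f < 0 := by
    intro f hf h0
    rw [BB_self (hF hf).1]
    have := hneg f hf h0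
    linarith
  obtain ⟨χ, hχ⟩ := CoreG_coreA hD hb hK he hDe w hw hwe hli F hF hfin hneg' hε
  let T : (F × (Fin n → ℝ)) →ₗ[ℝ] (E → ℝ) :=
    { toFun := fun p => fun x => (p.1 : E → ℝ) x + χ x * ∑ i, p.2 i * w i x
      map_add' := by
        intro p q
        funext x
        simp only [Prod.fst_add, Submodule.coe_add, Pi.add_apply, Prod.snd_add, add_mul,
          Finset.sum_add_distrib]
        ring
      map_smul' := by
        intro a p
        funext x
        simp only [Prod.smul_fst, Submodule.coe_smul, Pi.smul_apply, smul_eq_mul, Prod.smul_snd,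
          RingHom.id_apply]
        have : ∑ i, a * p.2 i * w i x = a * ∑ i, p.2 i * w i x := by
          rw [Finset.mul_sum]
          exact Finset.sum_congr rfl fun i _ => by ring
        rw [this]; ring }
  have hinj : Function.Injective T := by
    rw [← LinearMap.ker_eq_bot, LinearMap.ker_eq_bot']
    intro p hp
    obtain ⟨h3, h4⟩ := (hχ p.1 p.1.2 p.2).2.2 hp
    ext1
    · exact Subtype.ext h3
    · exact h4
  have hr : Module.finrank ℝ (LinearMap.range T) = Module.finrank ℝ F + n := by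
    rw [LinearMap.finrank_range_of_inj hinj, Module.finrank_prod, Module.finrank_fin_fun]
  have h5 := hM (LinearMap.range T) ?_ ?_ ?_
  · omega
  · rintro _ ⟨p, rfl⟩
    exact (hχ p.1 p.1.2 p.2).1
  · infer_instance
  · rintro _ ⟨p, rfl⟩
    obtain ⟨h6, h7, -⟩ := hχ p.1 p.1.2 p.2
    have h8 := BB_self h6.1 K
    have h9 : T p = fun x => (p.1 : E → ℝ) x + χ x * ∑ i, p.2 i * w i x := rfl
    rw [h9]
    rw [h8] at h7
    linarith

end Pool.Agent.H68.SM
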