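import Pool.Agent.H68.SM.Defs
import Pool.Agent.H68.SC.CutS

/-!
# Module CutG (about 140 lines): cutoff functions invariant under reflections

PROOF. Let `J = {j | e j ≠ 0}`. `K₁` = union of the images of `K₀` under all products of `rf j`, `j ∈ J`
(compact, contained in `D` by `hDe`, invariant under `rf j`, `j ∈ J`). Let `χ` be the function of `cut` for
`K₁` and `ε`. Averaging step (as in H68/SC/CutS.lean for `x ↦ -x`): if `χ` has the properties (in
`C1c D`, `0 ≤ χ ≤ 1`, `= 1` near `K₁`, the two estimates) then so has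
`χ' x = (χ x + χ (rf j x)) / 2` for `j ∈ J`: `rf j` is a linear isometry preserving `D`, `K₁`, the volume and
`∑ i, w i x ^ 2` (`w i (rf j x) = e j * w i x` and `e j ^ 2 = 1`), `gg (χ ∘ rf j) (χ ∘ rf j) x =
gg χ χ (rf j x)` (chain rule, or `norm_fderiv_sq`), convexity of the square. `χ'` is invariant under
`rf j`, and if `χ` is invariant under `rf j'` so is `χ'` (`rf_comm`). Apply the step for
`j = 0, 1, 2` (those in `J`).
-/

set_option autoImplicit false

namespace Pool.Agent.H68.SM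

open Filter Topology MeasureTheory Metric
open scoped ContDiff
open Pool.Agent.H68.SC

private theorem CutG_cont (j : Fin 3) : Continuous (rf j) := (rfI j).continuous

private theorem CutG_ee (i j : Fin 3) : rf j (ee i) = (if i = j then (-1 : ℝ) else 1) • ee i := by
  ext k
  rw [rf_apply, PiLp.smul_apply, smul_eq_mul]
  simp only [ee_apply]
  by_cases h1 : k = j
  · by_cases h2 : i = j
    · rw [if_pos h1, if_pos h2]
      ring
    · have h3 : ¬ k = i := fun h => h2 (h.symm.trans h1)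
      rw [if_pos h1, if_neg h2, if_neg h3]
      ring
  · by_cases h2 : i = j
    · have h3 : ¬ k = i := fun h => h1 (h.trans h2)
      rw [if_neg h1, if_pos h2, if_neg h3]
      ring
    · rw [if_neg h1, if_neg h2]
      ring

private theorem CutG_pd {χ : E → ℝ} (hχ : Differentiable ℝ χ) (j i : Fin 3) (x : E) :
    pd (fun y => χ (rf j y)) i x = (if i = j then (-1 : ℝ) else 1) * pd χ i (rf j x) := by
  unfold pd
  have h1 : HasFDerivAt (fun y : E => rf j y)
      ((rfI j).toContinuousLinearEquiv : E →L[ℝ] E) x :=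
    (rfI j).toContinuousLinearEquiv.hasFDerivAt
  have h2 : HasFDerivAt (fun y : E => χ (rf j y))
      ((fderiv ℝ χ (rf j x)).comp ((rfI j).toContinuousLinearEquiv : E →L[ℝ] E)) x :=
    HasFDerivAt.comp x (hχ (rf j x)).hasFDerivAt h1
  rw [h2.fderiv]
  show fderiv ℝ χ (rf j x) (rf j (ee i)) = _
  rw [CutG_ee, map_smul, smul_eq_mul]

private theorem CutG_mem {D : Set E} {j : Fin 3} (hD : ∀ x ∈ D, rf j x ∈ D) {χ : E → ℝ}
    (hχ : χ ∈ C1c D) : (fun y => χ (rf j y)) ∈ C1c D := by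
  have h0 : (fun y => χ (rf j y)) = χ ∘ ((rfI j).toHomeomorph) := rfl
  refine ⟨(C1c.contDiff hχ).comp (rfI j).contDiff, ?_, ?_⟩
  · rw [h0]
    exact (C1c.compact hχ).comp_homeomorph _
  · rw [h0, tsupport_comp_eq_preimage]
    intro x hx
    have h1 : rf j x ∈ tsupport χ := hx
    have h2 := hD _ (C1c.sub hχ h1)
    rwa [rf_rf] at h2

/-- one averaging step -/
private theorem CutG_step {D : Set E} {j : Fin 3} (hDj : ∀ x ∈ D, rf j x ∈ D) {G : E → ℝ}
    (hGc : Continuous G) (hG0 : ∀ x, 0 ≤ G x) (hGj : ∀ x, G (rf j x) = G x) {K₁ : Set E}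
    (hKj : ∀ x ∈ K₁, rf j x ∈ K₁) {ε : ℝ} {χ : E → ℝ} (h2 : χ ∈ C1c D)
    (h3 : ∀ x, 0 ≤ χ x ∧ χ x ≤ 1) (h4 : ∀ x ∈ K₁, ∀ᶠ y in 𝓝 x, χ y = 1)
    (h5 : ∫ x, G x * gg χ χ x ≤ ε) (h6 : ∀ x, (1 - χ x) ^ 2 * G x ≤ ε) :
    ∃ χ' ∈ C1c D, (∀ x, χ' (rf j x) = χ' x) ∧
      (∀ j', (∀ x, χ (rf j' x) = χ x) → ∀ x, χ' (rf j' x) = χ' x) ∧ (∀ x, 0 ≤ χ' x ∧ χ' x ≤ 1) ∧
      (∀ x ∈ K₁, ∀ᶠ y in 𝓝 x, χ' y = 1) ∧
      ∫ x, G x * gg χ' χ' x ≤ ε ∧ ∀ x, (1 - χ' x) ^ 2 * G x ≤ ε := by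
  have h2n := CutG_mem hDj h2
  have hd := C1c.diff h2
  have hdn : Differentiable ℝ (fun y => χ (rf j y)) := C1c.diff h2n
  set χ' : E → ℝ := fun x => (χ x + χ (rf j x)) / 2 with hχ'
  have hχ'e : χ' = (1 / 2 : ℝ) • (χ + fun y => χ (rf j y)) := by
    funext x
    simp only [hχ', Pi.smul_apply, Pi.add_apply, smul_eq_mul]
    ring
  have hmem : χ' ∈ C1c D := by
    rw [hχ'e]
    exact Submodule.smul_mem _ _ (Submodule.add_mem _ h2 h2n)
  have hpd : ∀ i x, pd χ' i x =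
      1 / 2 * (pd χ i x + (if i = j then (-1 : ℝ) else 1) * pd χ i (rf j x)) := by
    intro i x
    have e1 : χ' = fun x => (1 / 2 : ℝ) * (χ x + χ (rf j x)) := by
      funext x; simp only [hχ']; ring
    have e2 : DifferentiableAt ℝ (fun y => χ y + χ (rf j y)) x := (hd x).add (hdn x)
    rw [e1, pd_const_mul (1 / 2) e2 i, pd_add (hd x) (hdn x), CutG_pd hd]
  have hgg : ∀ x, gg χ' χ' x ≤ (gg χ χ x + gg χ χ (rf j x)) / 2 := by
    intro x
    unfold gg
    rw [← Finset.sum_add_distrib, Finset.sum_div]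
    refine Finset.sum_le_sum fun i _ => ?_
    rw [hpd]
    split_ifs with hij
    · nlinarith [sq_nonneg (pd χ i x + pd χ i (rf j x))]
    · nlinarith [sq_nonneg (pd χ i x - pd χ i (rf j x))]
  have hi0 : ∀ f ∈ C1c D, Integrable (fun x => G x * gg f f x) := fun f hf =>
    integrable_cc (hGc.mul (continuous_gg (C1c.contDiff hf) (C1c.contDiff hf)))
      (HasCompactSupport.mul_left (hasCompactSupport_gg (C1c.compact hf) f))
  have hneg : ∫ x, G x * gg χ χ (rf j x) = ∫ x, G x * gg χ χ x := by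
    have e1 := (measurePreserving_rf j).integral_comp
      (rfI j).toHomeomorph.measurableEmbedding (fun x => G x * gg χ χ x)
    rw [← e1]
    refine integral_congr_ae (Eventually.of_forall fun x => ?_)
    simp only
    rw [hGj]
  have hi1 : Integrable (fun x => G x * gg χ χ (rf j x)) := by
    have := (measurePreserving_rf j).integrable_comp_of_integrable (hi0 χ h2)
    refine this.congr (Eventually.of_forall fun x => ?_)
    simp only [Function.comp]
    rw [hGj]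
  refine ⟨χ', hmem, fun x => ?_, fun j' hj' x => ?_, fun x => ?_, fun x hx => ?_, ?_, fun x => ?_⟩
  · simp only [hχ', rf_rf]
    ring
  · simp only [hχ']
    rw [hj', rf_comm j j' x, hj']
  · have e1 := h3 x
    have e2 := h3 (rf j x)
    simp only [hχ']
    constructor
    · linarith [e1.1, e2.1]
    · linarith [e1.2, e2.2]
  · have e1 := h4 x hx
    have e2 := h4 (rf j x) (hKj x hx)
    have e3 : ∀ᶠ y in 𝓝 x, χ (rf j y) = 1 := ((CutG_cont j).tendsto x).eventually e2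
    filter_upwards [e1, e3] with y hy1 hy2
    simp only [hχ', hy1, hy2]
    norm_num
  · calc ∫ x, G x * gg χ' χ' x ≤
          ∫ x, (1 / 2 * (G x * gg χ χ x) + 1 / 2 * (G x * gg χ χ (rf j x))) := by
          refine integral_mono (hi0 χ' hmem) (((hi0 χ h2).const_mul _).add (hi1.const_mul _))
            fun x => ?_
          simp only
          nlinarith [mul_le_mul_of_nonneg_left (hgg x) (hG0 x)]
      _ = ∫ x, G x * gg χ χ x := by
          rw [integral_add ((hi0 χ h2).const_mul _) (hi1.const_mul _), integral_const_mul,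
            integral_const_mul, hneg]
          ring
      _ ≤ ε := h5
  · have e1 := h6 x
    have e2 := h6 (rf j x)
    rw [hGj] at e2
    have e3 : (1 - χ' x) ^ 2 ≤ ((1 - χ x) ^ 2 + (1 - χ (rf j x)) ^ 2) / 2 := by
      simp only [hχ']
      nlinarith [sq_nonneg (χ x - χ (rf j x))]
    nlinarith [mul_le_mul_of_nonneg_right e3 (hG0 x)]

theorem cutG {D : Set E} (hD : IsOpen D) (hb : Bornology.IsBounded D) {K : ℝ} (hK : 0 < K)
    {e : Fin 3 → ℝ} (he : ∀ j, e j = 0 ∨ e j = 1 ∨ e j = -1)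
    (hDe : ∀ j, e j ≠ 0 → ∀ x ∈ D, rf j x ∈ D) {n : ℕ}
    (w : Fin n → E → ℝ) (hw : ∀ i, Eigf D K (w i)) (hwe : ∀ i, w i ∈ Cl e)
    {K₀ : Set E} (h0 : IsCompact K₀) (h1 : K₀ ⊆ D) {ε : ℝ} (hε : 0 < ε) :
    ∃ χ ∈ C1c D, (∀ j, e j ≠ 0 → ∀ x, χ (rf j x) = χ x) ∧ (∀ x, 0 ≤ χ x ∧ χ x ≤ 1) ∧
      (∀ x ∈ K₀, ∀ᶠ y in 𝓝 x, χ y = 1) ∧
      ∫ x, (∑ i, w i x ^ 2) * gg χ χ x ≤ ε ∧ ∀ x, (1 - χ x) ^ 2 * ∑ i, w i x ^ 2 ≤ ε := by
  classical
  have hee : ∀ j, e j ≠ 0 → e j ^ 2 = 1 := by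
    intro j hj
    rcases he j with h | h | h
    · exact absurd h hj
    · rw [h]; norm_num
    · rw [h]; norm_num
  set G : E → ℝ := fun x => ∑ i, w i x ^ 2 with hG
  have hG0 : ∀ x, 0 ≤ G x := fun x => Finset.sum_nonneg fun i _ => sq_nonneg _
  have hGj : ∀ j, e j ≠ 0 → ∀ x, G (rf j x) = G x := by
    intro j hj x
    simp only [hG]
    refine Finset.sum_congr rfl fun i _ => ?_
    rw [hwe i j hj x, mul_pow, hee j hj, one_mul]
  have hGc : Continuous G := continuous_finsetSum _ fun i _ => ((hw i).cont).pow 2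
  -- the invariant compact set
  have hcpt : ∀ J : Finset (Fin 3), (∀ j ∈ J, e j ≠ 0) →
      ∃ K₁ : Set E, IsCompact K₁ ∧ K₀ ⊆ K₁ ∧ K₁ ⊆ D ∧ ∀ j ∈ J, ∀ x ∈ K₁, rf j x ∈ K₁ := by
    intro J
    induction J using Finset.induction_on with
    | empty =>
      intro _
      exact ⟨K₀, h0, subset_rfl, h1, fun j hj => absurd hj (Finset.notMem_empty j)⟩
    | insert j J hjJ ih =>
      intro hJ
      obtain ⟨K₁, a1, a2, a3, a4⟩ := ih fun i hi => hJ i (Finset.mem_insert_of_mem hi)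
      have hj0 := hJ j (Finset.mem_insert_self j J)
      refine ⟨K₁ ∪ rf j '' K₁, a1.union (a1.image (CutG_cont j)),
        a2.trans Set.subset_union_left, ?_, ?_⟩
      · rintro x (hx | ⟨y, hy, rfl⟩)
        · exact a3 hx
        · exact hDe j hj0 y (a3 hy)
      · intro i hi x hx
        rcases Finset.mem_insert.1 hi with rfl | hi'
        · rcases hx with hx | ⟨y, hy, rfl⟩
          · exact Or.inr ⟨x, hx, rfl⟩
          · left
            rw [rf_rf]
            exact hy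
        · rcases hx with hx | ⟨y, hy, rfl⟩
          · exact Or.inl (a4 i hi' x hx)
          · right
            exact ⟨rf i y, a4 i hi' y hy, rf_comm _ _ _⟩
  have hJ0 : ∀ j ∈ (Finset.univ.filter fun j : Fin 3 => e j ≠ 0), e j ≠ 0 :=
    fun j hj => (Finset.mem_filter.1 hj).2
  obtain ⟨K₁, a1, a2, a3, a4⟩ := hcpt _ hJ0
  have main : ∀ J : Finset (Fin 3), (J ⊆ Finset.univ.filter fun j : Fin 3 => e j ≠ 0) →
      ∃ χ ∈ C1c D, (∀ j ∈ J, ∀ x, χ (rf j x) = χ x) ∧ (∀ x, 0 ≤ χ x ∧ χ x ≤ 1) ∧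
      (∀ x ∈ K₁, ∀ᶠ y in 𝓝 x, χ y = 1) ∧
      ∫ x, G x * gg χ χ x ≤ ε ∧ ∀ x, (1 - χ x) ^ 2 * G x ≤ ε := by
    intro J
    induction J using Finset.induction_on with
    | empty =>
      intro _
      obtain ⟨χ, h2, h3, h4, h5, h6⟩ := cut hD hb hK w hw a1 a3 hε
      exact ⟨χ, h2, fun j hj => absurd hj (Finset.notMem_empty j), h3, h4, h5, h6⟩
    | insert j J hjJ ih =>
      intro hJ
      obtain ⟨χ, h2, hinv, h3, h4, h5, h6⟩ := ih ((Finset.subset_insert j J).trans hJ)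
      have hjm := hJ (Finset.mem_insert_self j J)
      have hj0 := hJ0 j hjm
      obtain ⟨χ', b1, b2, b3, b4, b5, b6, b7⟩ := CutG_step (hDe j hj0) hGc hG0 (hGj j hj0)
        (a4 j hjm) h2 h3 h4 h5 h6
      refine ⟨χ', b1, fun i hi => ?_, b4, b5, b6, b7⟩
      rcases Finset.mem_insert.1 hi with rfl | hi'
      · exact b2
      · exact b3 i (hinv i hi')
  obtain ⟨χ, b1, b2, b3, b4, b5, b6⟩ := main _ subset_rfl
  exact ⟨χ, b1, fun j hj => b2 j (Finset.mem_filter.2 ⟨Finset.mem_univ j, hj⟩), b3,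
    fun x hx => b4 x (a2 hx), b5, b6⟩

end Pool.Agent.H68.SM
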