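import Pool.Agent.H68.SC.Basic

/-!
# Schiffer for mirror symmetric domains (MP_f4af34_an, helper68): definitions

`rf j`: reflection in the coordinate plane `x_j = 0`. `Cl e`: functions with prescribed parities
(`e j = 0`: no condition; otherwise `f (rf j x) = e j * f x`). `HarmP`: spherical harmonics adapted
to the reflections.
-/

set_option autoImplicit false

namespace Pool.Agent.H68.SM

open Filter Topology MeasureTheory Metric
open scoped ContDiff
open Pool.Agent.H68.SC

noncomputable section

/-- reflection in the coordinate plane `x_j = 0` -/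
def rf (j : Fin 3) (x : E) : E := x - (2 * x j) • ee j

/-- functions with prescribed parities -/
def Cl (e : Fin 3 → ℝ) : Submodule ℝ (E → ℝ) where
  carrier := {f | ∀ j, e j ≠ 0 → ∀ x, f (rf j x) = e j * f x}
  add_mem' := by
    intro f g hf hg j hj x
    change f (rf j x) + g (rf j x) = e j * (f x + g x)
    rw [hf j hj x, hg j hj x]; ring
  zero_mem' := by
    intro j _ x
    change (0 : ℝ) = e j * 0
    rw [mul_zero]
  smul_mem' := by
    intro a f hf j hj x
    change a * f (rf j x) = e j * (a * f x)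
    rw [hf j hj x]; ring

/-- Spherical harmonics adapted to the three reflections. -/
structure HarmP extends Harm where
  p : (l : ℕ) → Fin (d l) → Fin 3 → ℝ
  p_sign : ∀ l i j, p l i j = 1 ∨ p l i j = -1
  refl : ∀ l i j (y : E), ‖y‖ = 1 → Y l i (rf j y) = p l i j * Y l i y
  a0 : ∀ i, p 0 i 0 = 1
  a1 : (Finset.univ.filter fun i : Fin (d 1) => p 1 i 0 = -1).card = 1
  a2 : (Finset.univ.filter fun i : Fin (d 2) => p 2 i 0 = -1).card = 2
  b1 : (Finset.univ.filter fun i : Fin (d 1) => p 1 i 0 = -1 ∧ p 1 i 1 = 1).card = 1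
  b2 : (Finset.univ.filter fun i : Fin (d 2) => p 2 i 0 = -1 ∧ p 2 i 1 = 1).card = 1

open Classical in
/-- the number of basis functions of degree `l` in the class `Cl e` -/
def cnt (H : HarmP) (e : Fin 3 → ℝ) (l : ℕ) : ℕ :=
  (Finset.univ.filter fun i : Fin (H.d l) => ∀ j, e j ≠ 0 → H.p l i j = e j).card

/-- odd in `x_0` -/
def eA : Fin 3 → ℝ := ![-1, 0, 0]

/-- odd in `x_0`, even in `x_1` -/
def eB : Fin 3 → ℝ := ![-1, 1, 0]

/-- the positive part of `w` in the half space `x_0 ≥ 0`, extended as an odd function -/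
def pp (w : E → ℝ) (x : E) : ℝ := if 0 ≤ x 0 then max (w x) 0 else min (w x) 0

/-! ### proved facts -/

theorem rf_apply (j i : Fin 3) (x : E) : rf j x i = if i = j then -x i else x i := by
  unfold rf
  simp only [PiLp.sub_apply, PiLp.smul_apply, smul_eq_mul, ee_apply]
  split_ifs with h
  · rw [h]; ring
  · ring

theorem rf_rf (j : Fin 3) (x : E) : rf j (rf j x) = x := by
  ext i
  rw [rf_apply, rf_apply]
  split_ifs <;> ring

theorem rf_comm (j j' : Fin 3) (x : E) : rf j (rf j' x) = rf j' (rf j x) := by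
  ext i
  rw [rf_apply, rf_apply, rf_apply, rf_apply]
  split_ifs <;> ring

theorem rf_add (j : Fin 3) (x y : E) : rf j (x + y) = rf j x + rf j y := by
  ext i
  rw [PiLp.add_apply, rf_apply, rf_apply, rf_apply, PiLp.add_apply]
  split_ifs <;> ring

theorem rf_smul (j : Fin 3) (a : ℝ) (x : E) : rf j (a • x) = a • rf j x := by
  ext i
  rw [PiLp.smul_apply, rf_apply, rf_apply, PiLp.smul_apply]
  simp only [smul_eq_mul]
  split_ifs <;> ring

theorem norm_rf (j : Fin 3) (x : E) : ‖rf j x‖ = ‖x‖ := by
  have h : ‖rf j x‖ ^ 2 = ‖x‖ ^ 2 := by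
    rw [EuclideanSpace.norm_sq_eq, EuclideanSpace.norm_sq_eq]
    refine Finset.sum_congr rfl fun i _ => ?_
    rw [rf_apply]
    split_ifs
    · rw [norm_neg]
    · rfl
  exact (pow_left_inj₀ (norm_nonneg _) (norm_nonneg _) two_ne_zero).1 h

/-- the reflection as a linear isometry -/
def rfI (j : Fin 3) : E ≃ₗᵢ[ℝ] E where
  toFun := rf j
  map_add' := rf_add j
  map_smul' := rf_smul j
  invFun := rf j
  left_inv := rf_rf j
  right_inv := rf_rf j
  norm_map' := norm_rf j

theorem rfI_apply (j : Fin 3) (x : E) : rfI j x = rf j x := rfl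

theorem measurePreserving_rf (j : Fin 3) : MeasurePreserving (rf j) (volume : Measure E) volume :=
  (rfI j).measurePreserving

end

end Pool.Agent.H68.SM
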