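import Pool.Agent.H68.SM.Defs
import Pool.Agent.H68.SC.SymU

/-!
# Module IsoSol (about 150 lines): linear isometries and symmetrisation

PROOF. `iso_sol`: `A` is a homeomorphism (images, preimages, frontiers), `fderiv ℝ (u ∘ A) x v =
fderiv ℝ u (A x) (A v)`, and near points of the open set `A ⁻¹' D`
`fderiv ℝ (fderiv ℝ (u ∘ A)) x v v = fderiv ℝ (fderiv ℝ u) (A x) (A v) (A v)`; the sum over the
orthonormal basis `ee i` equals the sum over the orthonormal basis `A (ee i)`: the trace of the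
bilinear form does not depend on the orthonormal basis (write `A (ee i) = ∑ j, a i j • ee j` with `a`
orthogonal, or use Mathlib's Laplacian file: `InnerProductSpace.laplacianWithin_eq...`,
`Laplacian` in Mathlib.Analysis.InnerProductSpace.Laplacian). See H68/SC/SymU.lean (`trans_sol`, `symU`)
for the pattern. `symR`: as `symU` with `rf j` in place of `x ↦ -x` (combine `iso_sol` for `rfI j` with
`h`: on `D`, `Δ` and the limits are linear; `rf j ⁻¹' D = D`).
-/

set_option autoImplicit false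

namespace Pool.Agent.H68.SM

open Filter Topology MeasureTheory Metric
open scoped ContDiff
open Pool.Agent.H68.SC

private theorem IsoSol_open {D : Set E} {φ : E → ℝ} {k c : ℝ} {u : E → ℝ} (h : Sol D φ k c u) :
    IsOpen D := by
  rw [h.eqD]
  exact isOpen_lt h.smooth.continuous continuous_const

private theorem IsoSol_trace (B : E →L[ℝ] E →L[ℝ] ℝ) (A : E ≃ₗᵢ[ℝ] E) :
    ∑ i : Fin 3, B (A (ee i)) (A (ee i)) = ∑ i : Fin 3, B (ee i) (ee i) := by
  let b := EuclideanSpace.basisFun (Fin 3) ℝ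
  have hb : ∀ i, b i = ee i := fun i => EuclideanSpace.basisFun_apply (Fin 3) ℝ i
  let B' : E →ₗ[ℝ] E →ₗ[ℝ] ℝ := (ContinuousLinearMap.coeLM ℝ).comp B.toLinearMap
  have hB' : ∀ x y, B' x y = B x y := fun x y => rfl
  have h1 := InnerProductSpace.canonicalCovariantTensor_eq_sum E b
  have h2 := InnerProductSpace.canonicalCovariantTensor_eq_sum E (b.map A)
  have h3 := congrArg (TensorProduct.lift B') (h1.symm.trans h2)
  rw [map_sum, map_sum] at h3
  simp only [TensorProduct.lift.tmul, hB', OrthonormalBasis.map_apply, hb] at h3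
  exact h3.symm

theorem iso_sol {D : Set E} {φ : E → ℝ} {k c : ℝ} {u : E → ℝ} (h : Sol D φ k c u)
    (A : E ≃ₗᵢ[ℝ] E) : Sol (A ⁻¹' D) (fun x => φ (A x)) k c (fun x => u (A x)) := by
  have hD : IsOpen D := IsoSol_open h
  have hDA : IsOpen (A ⁻¹' D) := hD.preimage A.continuous
  have hfr : frontier (A ⁻¹' D) = A ⁻¹' (frontier D) :=
    (A.toHomeomorph.preimage_frontier D).symm
  have htn : ∀ x : E, Tendsto (fun y => A y) (𝓝[A ⁻¹' D] x) (𝓝[D] (A x)) := by
    intro x
    refine tendsto_nhdsWithin_iff.2 ⟨?_, ?_⟩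
    · exact (A.continuous.tendsto x).mono_left nhdsWithin_le_nhds
    · exact eventually_of_mem self_mem_nhdsWithin fun y hy => hy
  let AL : E →L[ℝ] E := (A.toContinuousLinearEquiv : E →L[ℝ] E)
  have hAL : ∀ x, AL x = A x := fun x => rfl
  have hf1 : ∀ f : E → ℝ, fderiv ℝ (fun x => f (A x)) =
      fun x => (fderiv ℝ f (A x)).comp AL := by
    intro f
    funext x
    exact A.toContinuousLinearEquiv.comp_right_fderiv (f := f) (x := x)
  have hf2 : ∀ x ∈ A ⁻¹' D, ∀ v w, fderiv ℝ (fderiv ℝ (fun x => u (A x))) x v w =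
      fderiv ℝ (fderiv ℝ u) (A x) (A v) (A w) := by
    intro x hx v w
    rw [hf1 u]
    have d1 : DifferentiableAt ℝ (fderiv ℝ u) (A x) :=
      ((h.u2.contDiffAt (hD.mem_nhds hx)).fderiv_right (m := 1) (by norm_num)).differentiableAt
        one_ne_zero
    have d2 : HasFDerivAt (fun y => fderiv ℝ u (A y))
        ((fderiv ℝ (fderiv ℝ u) (A x)).comp AL) x :=
      HasFDerivAt.comp x (f := fun y : E => A y) (g := fderiv ℝ u) d1.hasFDerivAt AL.hasFDerivAt
    let Φ : (E →L[ℝ] ℝ) →L[ℝ] (E →L[ℝ] ℝ) := (ContinuousLinearMap.compL ℝ E E ℝ).flip AL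
    have d3 : HasFDerivAt (fun y => (fderiv ℝ u (A y)).comp AL)
        (Φ.comp ((fderiv ℝ (fderiv ℝ u) (A x)).comp AL)) x :=
      HasFDerivAt.comp x (f := fun y : E => fderiv ℝ u (A y)) (g := Φ) Φ.hasFDerivAt d2
    rw [d3.fderiv]
    rfl
  refine ⟨?_, ?_, ?_, ?_, ?_, ?_, h.kpos, h.cne, ?_, ?_, ?_⟩
  · obtain ⟨R, hR⟩ := h.bdd.subset_closedBall 0
    refine (Metric.isBounded_closedBall (x := (0 : E)) (r := R)).subset ?_
    intro x hx
    have h1 := hR hx
    rw [mem_closedBall_zero_iff] at h1 ⊢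
    rwa [A.norm_map] at h1
  · exact A.toHomeomorph.isConnected_preimage.2 h.conn
  · exact h.smooth.comp A.contDiff
  · ext x
    rw [Set.mem_preimage, h.eqD]
    rfl
  · intro x hx
    rw [hf1 φ]
    intro h0
    refine h.reg (A x) hx ?_
    ext v
    have h1 := congrArg (fun L : E →L[ℝ] ℝ => L (A.symm v)) h0
    have h2 : fderiv ℝ φ (A x) (A (A.symm v)) = 0 := h1
    rw [A.apply_symm_apply] at h2
    rw [h2]
    rfl
  · obtain ⟨g⟩ := h.sph
    rw [hfr]
    refine ⟨Homeomorph.trans ?_ g⟩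
    exact A.toHomeomorph.subtype (fun x => Iff.rfl)
  · exact h.u2.comp A.contDiff.contDiffOn (fun x hx => hx)
  · intro x hx
    have e : ∀ i : Fin 3, fderiv ℝ (fderiv ℝ (fun x => u (A x))) x (ee i) (ee i) =
        fderiv ℝ (fderiv ℝ u) (A x) (A (ee i)) (A (ee i)) := fun i => hf2 x hx (ee i) (ee i)
    rw [Finset.sum_congr rfl fun i _ => e i, IsoSol_trace]
    exact h.helm (A x) hx
  · intro x hx
    rw [hfr] at hx
    obtain ⟨b1, b2⟩ := h.bd (A x) hx
    refine ⟨b1.comp (htn x), ?_⟩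
    rw [hf1 u]
    let Φ : (E →L[ℝ] ℝ) →L[ℝ] (E →L[ℝ] ℝ) := (ContinuousLinearMap.compL ℝ E E ℝ).flip AL
    have h1 := (Φ.continuous.tendsto 0).comp (b2.comp (htn x))
    rw [map_zero] at h1
    exact h1

private theorem IsoSol_avg {D : Set E} {φ ψ : E → ℝ} {k c : ℝ} {u v : E → ℝ}
    (h : Sol D φ k c u) (h' : Sol D ψ k c v) : Sol D φ k c (fun x => (u x + v x) / 2) := by
  have hD : IsOpen D := IsoSol_open h
  have hf1 : ∀ x ∈ D, fderiv ℝ (fun x => (u x + v x) / 2) x =
      (2⁻¹ : ℝ) • (fderiv ℝ u x + fderiv ℝ v x) := by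
    intro x hx
    have d1 : DifferentiableAt ℝ u x :=
      (h.u2.contDiffAt (hD.mem_nhds hx)).differentiableAt two_ne_zero
    have d2 : DifferentiableAt ℝ v x :=
      (h'.u2.contDiffAt (hD.mem_nhds hx)).differentiableAt two_ne_zero
    have e1 : (fun x => (u x + v x) / 2) = fun x => (2⁻¹ : ℝ) * (u x + v x) := by
      funext y; ring
    rw [e1, fderiv_const_mul (DifferentiableAt.fun_add d1 d2), fderiv_fun_add d1 d2]
  have hf2 : ∀ x ∈ D, fderiv ℝ (fderiv ℝ (fun x => (u x + v x) / 2)) x =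
      (2⁻¹ : ℝ) • (fderiv ℝ (fderiv ℝ u) x + fderiv ℝ (fderiv ℝ v) x) := by
    intro x hx
    have hev : fderiv ℝ (fun x => (u x + v x) / 2) =ᶠ[𝓝 x]
        fun x => (2⁻¹ : ℝ) • (fderiv ℝ u x + fderiv ℝ v x) :=
      Filter.eventuallyEq_of_mem (hD.mem_nhds hx) fun y hy => hf1 y hy
    have d1 : DifferentiableAt ℝ (fderiv ℝ u) x :=
      ((h.u2.contDiffAt (hD.mem_nhds hx)).fderiv_right (m := 1) (by norm_num)).differentiableAt
        one_ne_zero
    have d2 : DifferentiableAt ℝ (fderiv ℝ v) x :=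
      ((h'.u2.contDiffAt (hD.mem_nhds hx)).fderiv_right (m := 1) (by norm_num)).differentiableAt
        one_ne_zero
    rw [hev.fderiv_eq, fderiv_fun_const_smul (DifferentiableAt.fun_add d1 d2),
      fderiv_fun_add d1 d2]
  refine ⟨h.bdd, h.conn, h.smooth, h.eqD, h.reg, h.sph, h.kpos, h.cne, ?_, ?_, ?_⟩
  · exact (h.u2.add h'.u2).div_const 2
  · intro x hx
    rw [hf2 x hx]
    have a1 := h.helm x hx
    have a2 := h'.helm x hx
    have e : (∑ i : Fin 3, ((2⁻¹ : ℝ) • (fderiv ℝ (fderiv ℝ u) x + fderiv ℝ (fderiv ℝ v) x))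
        (ee i) (ee i)) = 2⁻¹ * ((∑ i : Fin 3, fderiv ℝ (fderiv ℝ u) x (ee i) (ee i)) +
          (∑ i : Fin 3, fderiv ℝ (fderiv ℝ v) x (ee i) (ee i))) := by
      rw [← Finset.sum_add_distrib, Finset.mul_sum]
      rfl
    rw [e]
    linear_combination (2⁻¹ : ℝ) * a1 + (2⁻¹ : ℝ) * a2
  · intro x hx
    obtain ⟨b1, b2⟩ := h.bd x hx
    obtain ⟨c1, c2⟩ := h'.bd x hx
    constructor
    · have := (b1.add c1).div_const 2
      have e : (c + c) / 2 = c := by ring
      rw [e] at this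
      exact this
    · have := (b2.add c2).const_smul (2⁻¹ : ℝ)
      rw [add_zero, smul_zero] at this
      refine this.congr' ?_
      exact eventually_of_mem self_mem_nhdsWithin fun y hy => (hf1 y hy).symm

theorem symR {D : Set E} {φ : E → ℝ} {k c : ℝ} {u : E → ℝ} (h : Sol D φ k c u) {j : Fin 3}
    (hj : ∀ x ∈ D, rf j x ∈ D) : Sol D φ k c (fun x => (u x + u (rf j x)) / 2) := by
  have hpre : (rfI j) ⁻¹' D = D := by
    ext x
    constructor
    · intro hx
      have h1 := hj _ hx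
      rw [rfI_apply, rf_rf] at h1
      exact h1
    · intro hx
      exact hj x hx
  have h2 := iso_sol h (rfI j)
  rw [hpre] at h2
  exact IsoSol_avg h h2

end Pool.Agent.H68.SM
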