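import Pool.Agent.H68.SM.Inv
import Pool.Agent.H68.SM.IsoSol

/-!
# Module Geo (about 250 lines): moving the plane or the axis into standard position

PROOF. `exists_iso`: for unit vectors `a, b` there is a linear isometry `A` with `A a = b` (identity if
`a = b`, otherwise the reflection in the hyperplane orthogonal to `a - b`:
`Submodule.reflection`, `reflection_sub`).
* `to_plane`. `x₁ = x₀ - ⟪x₀ - a, ν⟫ ν` (projection of `x₀` to the plane). For `y ∈ D` and its mirror image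
  `y'`: `‖y - x₁‖² + ‖x₀ - x₁‖² = (‖y - x₀‖² + ‖y' - x₀‖²) / 2 < R²` (write `y - x₁ = v + s ν`, `v ⟂ ν`,
  `x₀ - x₁ = t ν`, `y' - x₁ = v - s ν`), so `D ⊆ ball x₁ R`. Apply `trans_sol` with `x₁`, then `iso_sol` with
  `A (ee 0) = ν`: `D' = {x | A x + x₁ ∈ D}`; `A (rf 0 x) + x₁` is the mirror image of `A x + x₁`.
* `to_axis`. `ν = ‖b‖⁻¹ b`, `x₁ = q + ⟪x₀ - q, ν⟫ ν` (projection of `x₀` to the axis). `U = extU D c u` is constant
  along the field `x ↦ crs b (x - q) = crs b (x - x₁)` (`x₁ - q` is parallel to `b`). First move: `trans_sol`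
  with `x₁`, `iso_sol` with `A (ee 2) = ν`; for `U' x = U (A x + x₁)` (check `extU` of the moved data) the
  derivative `fderiv ℝ U' x (crs (ee 2) x) = fderiv ℝ U (A x + x₁) (A (crs (ee 2) x))`, and
  `A (crs a x) = ± crs (A a) (A x)` for a linear isometry of three-space (the sign is the
  determinant; it is enough to know: `A (crs (ee 2) x)` is orthogonal to `ν = A (ee 2)` and to `A x`, and
  has the same norm as `crs ν (A x)`, so it is `± crs ν (A x)`, and `fderiv ℝ U (A x + x₁) (crs ν (A x)) = 0`).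
  So `ww U' (0, ee 2) = 0`. Ball: by `refl_inv` `D'` is invariant under `rf 0` and `rf 1`, so under
  `y ↦ y' = rf 0 (rf 1 y)` (rotation by `π`); in the new coordinates the centre of the ball is
  `z = (z_0, z_1, 0)` and `‖y‖² + ‖z‖² = (‖y - z‖² + ‖y' - z‖²) / 2 < R²`, so `D' ⊆ ball 0 R`.
* In both cases `D' = ball z r` gives `D = ball (A z + x₁) r`.
-/

set_option autoImplicit false

namespace Pool.Agent.H68.SM

open Filter Topology MeasureTheory Metric
open scoped ContDiff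
open Pool.Agent.H68.SC

private theorem geo_iso {a b : E} (ha : ‖a‖ = 1) (hb : ‖b‖ = 1) :
    ∃ A : E ≃ₗᵢ[ℝ] E, A a = b := by
  by_cases h : a = b
  · exact ⟨LinearIsometryEquiv.refl ℝ E, by simpa using h⟩
  · exact ⟨(ℝ ∙ (a - b))ᗮ.reflection, Submodule.reflection_sub (by rw [ha, hb])⟩

private theorem geo_back (A : E ≃ₗᵢ[ℝ] E) (x₁ : E) {D : Set E}
    (h : ∃ (z : E) (r : ℝ), A ⁻¹' ((fun x => x + x₁) ⁻¹' D) = ball z r) :
    ∃ (z : E) (r : ℝ), D = ball z r := by
  obtain ⟨z, r, h⟩ := h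
  refine ⟨A z + x₁, r, ?_⟩
  ext w
  have h1 : w ∈ D ↔ A.symm (w - x₁) ∈ ball z r := by
    rw [← h]
    simp
  rw [h1, mem_ball, mem_ball, dist_eq_norm, dist_eq_norm, ← A.norm_map, map_sub,
    A.apply_symm_apply, sub_sub, add_comm x₁]

private theorem geo_inner (x y : E) : inner ℝ x y = x 0 * y 0 + x 1 * y 1 + x 2 * y 2 := by
  rw [PiLp.inner_apply, Fin.sum_univ_three]
  simp only [RCLike.inner_apply, conj_trivial]
  ring

private theorem geo_norm (x : E) : ‖x‖ ^ 2 = x 0 ^ 2 + x 1 ^ 2 + x 2 ^ 2 := by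
  rw [EuclideanSpace.norm_sq_eq, Fin.sum_univ_three]
  simp only [Real.norm_eq_abs, sq_abs]

private theorem geo_crs0 (a x : E) : crs a x 0 = a 1 * x 2 - a 2 * x 1 := by simp [crs]
private theorem geo_crs1 (a x : E) : crs a x 1 = a 2 * x 0 - a 0 * x 2 := by simp [crs]
private theorem geo_crs2 (a x : E) : crs a x 2 = a 0 * x 1 - a 1 * x 0 := by simp [crs]

private theorem geo_nc (a x : E) : ‖crs a x‖ ^ 2 = ‖a‖ ^ 2 * ‖x‖ ^ 2 - (inner ℝ a x : ℝ) ^ 2 := by
  rw [geo_norm, geo_norm, geo_norm, geo_inner, geo_crs0, geo_crs1, geo_crs2]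
  ring

private theorem geo_i1 (a x : E) : inner ℝ a (crs a x) = (0 : ℝ) := by
  rw [geo_inner, geo_crs0, geo_crs1, geo_crs2]
  ring

private theorem geo_i2 (a x : E) : inner ℝ x (crs a x) = (0 : ℝ) := by
  rw [geo_inner, geo_crs0, geo_crs1, geo_crs2]
  ring

private theorem geo_par {a x w : E} (h1 : inner ℝ a w = (0 : ℝ)) (h2 : inner ℝ x w = (0 : ℝ))
    (h3 : ‖w‖ ^ 2 = ‖crs a x‖ ^ 2) : w = crs a x ∨ w = -crs a x := by
  set p := crs a x with hp
  have e0 : crs p w 0 = 0 := by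
    have : crs p w 0 = x 0 * inner ℝ a w - a 0 * inner ℝ x w := by
      rw [geo_crs0, hp, geo_crs1, geo_crs2, geo_inner, geo_inner]; ring
    rw [this, h1, h2]; ring
  have e1 : crs p w 1 = 0 := by
    have : crs p w 1 = x 1 * inner ℝ a w - a 1 * inner ℝ x w := by
      rw [geo_crs1, hp, geo_crs0, geo_crs2, geo_inner, geo_inner]; ring
    rw [this, h1, h2]; ring
  have e2 : crs p w 2 = 0 := by
    have : crs p w 2 = x 2 * inner ℝ a w - a 2 * inner ℝ x w := by
      rw [geo_crs2, hp, geo_crs0, geo_crs1, geo_inner, geo_inner]; ring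
    rw [this, h1, h2]; ring
  have h4 : ‖crs p w‖ ^ 2 = 0 := by rw [geo_norm, e0, e1, e2]; ring
  have h5 := geo_nc p w
  rw [h4, h3] at h5
  have h6 : (inner ℝ p w - ‖p‖ ^ 2) * (inner ℝ p w + ‖p‖ ^ 2) = (0 : ℝ) := by
    linear_combination h5
  rcases mul_eq_zero.1 h6 with h7 | h7
  · left
    have h8 : ‖w - p‖ ^ 2 = 0 := by
      rw [@norm_sub_sq ℝ, h3, real_inner_comm]
      have : (RCLike.re (inner ℝ p w : ℝ) : ℝ) = inner ℝ p w := rfl
      rw [this]
      linear_combination (-2) * h7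
    have h9 : ‖w - p‖ = 0 := by simpa using h8
    exact sub_eq_zero.1 (norm_eq_zero.1 h9)
  · right
    have h8 : ‖w + p‖ ^ 2 = 0 := by
      rw [@norm_add_sq ℝ, h3, real_inner_comm]
      have : (RCLike.re (inner ℝ p w : ℝ) : ℝ) = inner ℝ p w := rfl
      rw [this]
      linear_combination 2 * h7
    have h9 : ‖w + p‖ = 0 := by simpa using h8
    exact eq_neg_of_add_eq_zero_left (norm_eq_zero.1 h9)

private theorem geo_coord (x : E) (i : Fin 3) : inner ℝ x (ee i) = x i := by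
  rw [EuclideanSpace.inner_single_right]
  simp

private theorem geo_norm_ee (i : Fin 3) : ‖(ee i : E)‖ = 1 := by
  simp

private theorem geo_crs_smul (t : ℝ) (a x : E) : crs (t • a) x = t • crs a x := by
  ext i
  fin_cases i
  · change crs (t • a) x 0 = (t • crs a x) 0
    simp only [PiLp.smul_apply, smul_eq_mul, geo_crs0]
    ring
  · change crs (t • a) x 1 = (t • crs a x) 1
    simp only [PiLp.smul_apply, smul_eq_mul, geo_crs1]
    ring
  · change crs (t • a) x 2 = (t • crs a x) 2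
    simp only [PiLp.smul_apply, smul_eq_mul, geo_crs2]
    ring

/-- `-(b × q) + b × (y + q + s ν) = t (ν × y)` for `b = t ν` -/
private theorem geo_kf (t s : ℝ) (ν q y : E) :
    kf (-crs (t • ν) q, t • ν) (y + (q + s • ν)) = t • crs ν y := by
  unfold kf
  ext i
  fin_cases i
  · change (-crs (t • ν) q + crs (t • ν) (y + (q + s • ν))) 0 = (t • crs ν y) 0
    simp only [PiLp.add_apply, PiLp.neg_apply, PiLp.smul_apply, smul_eq_mul, geo_crs0]
    ring
  · change (-crs (t • ν) q + crs (t • ν) (y + (q + s • ν))) 1 = (t • crs ν y) 1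
    simp only [PiLp.add_apply, PiLp.neg_apply, PiLp.smul_apply, smul_eq_mul, geo_crs1]
    ring
  · change (-crs (t • ν) q + crs (t • ν) (y + (q + s • ν))) 2 = (t • crs ν y) 2
    simp only [PiLp.add_apply, PiLp.neg_apply, PiLp.smul_apply, smul_eq_mul, geo_crs2]
    ring

theorem to_plane {D : Set E} {φ : E → ℝ} {k c : ℝ} {u : E → ℝ} (h : Sol D φ k c u) {a ν : E}
    (hν : ‖ν‖ = 1) (hs : ∀ x ∈ D, x - (2 * inner ℝ (x - a) ν) • ν ∈ D) {x₀ : E} {R : ℝ}
    (h2 : D ⊆ ball x₀ R) :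
    ∃ (D' : Set E) (φ' u' : E → ℝ), Sol D' φ' k c u' ∧ (∀ x ∈ D', rf 0 x ∈ D') ∧
      D' ⊆ ball 0 R ∧ ((∃ (z : E) (r : ℝ), D' = ball z r) → ∃ (z : E) (r : ℝ), D = ball z r) := by
  obtain ⟨A, hA⟩ := geo_iso (geo_norm_ee 0) hν
  set t : ℝ := inner ℝ (x₀ - a) ν with ht
  set x₁ : E := x₀ - t • ν with hx₁
  have hνν : inner ℝ ν ν = (1 : ℝ) := by rw [real_inner_self_eq_norm_sq, hν, one_pow]
  have hs' : ∀ x, A x + x₁ ∈ D → A (rf 0 x) + x₁ ∈ D := by
    intro x hx
    have h1 := hs _ hx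
    have h3 : inner ℝ (A x) ν = x 0 := by rw [← hA, A.inner_map_map, geo_coord]
    have h4 : inner ℝ (A x + x₁ - a) ν = x 0 := by
      have e : A x + x₁ - a = A x + ((x₀ - a) - t • ν) := by rw [hx₁]; abel
      rw [e, inner_add_left, inner_sub_left, inner_smul_left, hνν, h3, ← ht]
      simp
    rw [h4] at h1
    have h5 : A (rf 0 x) + x₁ = A x + x₁ - (2 * x 0) • ν := by
      unfold rf
      rw [map_sub, map_smul, hA]
      abel
    rw [h5]
    exact h1
  refine ⟨A ⁻¹' ((fun x => x + x₁) ⁻¹' D), _, _, iso_sol (trans_sol h x₁) A, hs', ?_,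
    geo_back A x₁⟩
  intro x hx
  have hy : A x + x₁ ∈ D := hx
  have h6 := h2 hy
  have h7 := h2 (hs' x hy)
  rw [mem_ball, dist_eq_norm] at h6 h7
  have hR : 0 < R := lt_of_le_of_lt (norm_nonneg _) h6
  have h8 : ∀ w : E, ‖A w + x₁ - x₀‖ ^ 2 = ‖w‖ ^ 2 - 2 * t * w 0 + t ^ 2 := by
    intro w
    have e : A w + x₁ - x₀ = A (w - t • ee 0) := by
      rw [map_sub, map_smul, hA, hx₁]; abel
    rw [e, A.norm_map, geo_norm, geo_norm]
    simp
    ring
  have h9 := pow_lt_pow_left₀ h6 (norm_nonneg _) two_ne_zero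
  have h10 := pow_lt_pow_left₀ h7 (norm_nonneg _) two_ne_zero
  rw [h8] at h9 h10
  rw [norm_rf, rf_apply, if_pos rfl] at h10
  rw [mem_ball, dist_zero_right]
  refine lt_of_pow_lt_pow_left₀ 2 hR.le ?_
  nlinarith [sq_nonneg t]

theorem to_axis {D : Set E} {φ : E → ℝ} {k c : ℝ} {u : E → ℝ} (h : Sol D φ k c u) {q b : E}
    (hb : b ≠ 0) (h0 : ww (extU D c u) (-crs b q, b) = 0) {x₀ : E} {R : ℝ}
    (h2 : D ⊆ ball x₀ R) :
    ∃ (D' : Set E) (φ' u' : E → ℝ), Sol D' φ' k c u' ∧ ww (extU D' c u') (0, ee 2) = 0 ∧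
      D' ⊆ ball 0 R ∧ ((∃ (z : E) (r : ℝ), D' = ball z r) → ∃ (z : E) (r : ℝ), D = ball z r) := by
  have hb' : 0 < ‖b‖ := norm_pos_iff.2 hb
  set ν : E := ‖b‖⁻¹ • b with hνd
  have hν : ‖ν‖ = 1 := by
    rw [hνd, norm_smul, norm_inv, norm_norm, inv_mul_cancel₀ hb'.ne']
  have hbν : b = ‖b‖ • ν := by
    rw [hνd, smul_smul, mul_inv_cancel₀ hb'.ne', one_smul]
  obtain ⟨A, hA⟩ := geo_iso (geo_norm_ee 2) hν
  set s : ℝ := inner ℝ (x₀ - q) ν with hs
  set x₁ : E := q + s • ν with hx₁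
  have hνν : inner ℝ ν ν = (1 : ℝ) := by rw [real_inner_self_eq_norm_sq, hν, one_pow]
  have hS : Sol (A ⁻¹' ((fun x => x + x₁) ⁻¹' D)) (fun x => φ (A x + x₁)) k c
      (fun x => u (A x + x₁)) := iso_sol (trans_sol h x₁) A
  have hU := (ext_UU h).C1
  have hd : Differentiable ℝ (extU D c u) := hU.differentiable one_ne_zero
  have h0' : ww (extU (A ⁻¹' ((fun x => x + x₁) ⁻¹' D)) c (fun x => u (A x + x₁))) (0, ee 2) = 0 := by
    funext x
    have e1 : extU (A ⁻¹' ((fun x => x + x₁) ⁻¹' D)) c (fun x => u (A x + x₁)) =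
        fun x => extU D c u (A x + x₁) := rfl
    have hf : HasFDerivAt (fun x => extU D c u (A x + x₁))
        ((fderiv ℝ (extU D c u) (A x + x₁)).comp (A.toContinuousLinearEquiv : E →L[ℝ] E)) x := by
      have h1 : HasFDerivAt (fun x => A x + x₁) (A.toContinuousLinearEquiv : E →L[ℝ] E) x :=
        (A.toContinuousLinearEquiv.hasFDerivAt (x := x)).add_const x₁
      exact (hd (A x + x₁)).hasFDerivAt.comp x h1
    change fderiv ℝ (extU (A ⁻¹' ((fun x => x + x₁) ⁻¹' D)) c (fun x => u (A x + x₁))) x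
      (kf (0, ee 2) x) = 0
    rw [e1, hf.fderiv]
    have e2 : kf (0, ee 2) x = crs (ee 2) x := by
      unfold kf
      rw [zero_add]
    rw [e2]
    change fderiv ℝ (extU D c u) (A x + x₁) (A (crs (ee 2) x)) = 0
    have h3 : fderiv ℝ (extU D c u) (A x + x₁) (kf (-crs b q, b) (A x + x₁)) = 0 :=
      congrFun h0 (A x + x₁)
    have h4 : kf (-crs b q, b) (A x + x₁) = ‖b‖ • crs ν (A x) := by
      have := geo_kf ‖b‖ s ν q (A x)
      rw [← hbν] at this
      exact this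
    rw [h4, map_smul, smul_eq_mul] at h3
    have h5 : fderiv ℝ (extU D c u) (A x + x₁) (crs ν (A x)) = 0 :=
      (mul_eq_zero.1 h3).resolve_left hb'.ne'
    have h6 : A (crs (ee 2) x) = crs ν (A x) ∨ A (crs (ee 2) x) = -crs ν (A x) := by
      refine geo_par ?_ ?_ ?_
      · rw [← hA, A.inner_map_map, geo_i1]
      · rw [A.inner_map_map, geo_i2]
      · rw [A.norm_map, geo_nc, geo_nc, A.norm_map, ← hA, A.inner_map_map, A.norm_map]
    rcases h6 with h6 | h6
    · rw [h6, h5]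
    · rw [h6, map_neg, h5, neg_zero]
  refine ⟨_, _, _, hS, h0', ?_, geo_back A x₁⟩
  intro x hx
  have hx' := refl_inv hS h0' 0 (by decide) _ (refl_inv hS h0' 1 (by decide) x hx)
  have h6 := h2 (show A x + x₁ ∈ D from hx)
  have h7 := h2 (show A (rf 0 (rf 1 x)) + x₁ ∈ D from hx')
  rw [mem_ball, dist_eq_norm] at h6 h7
  have hR : 0 < R := lt_of_le_of_lt (norm_nonneg _) h6
  set z : E := A.symm (x₀ - x₁) with hz
  have hAz : A z = x₀ - x₁ := A.apply_symm_apply _
  have hz2 : z 2 = 0 := by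
    rw [← geo_coord z 2, ← A.inner_map_map, hAz, hA, hx₁]
    have e : x₀ - (q + s • ν) = (x₀ - q) - s • ν := by abel
    rw [e, inner_sub_left, inner_smul_left, hνν, ← hs]
    simp
  have h8 : ∀ w : E, ‖A w + x₁ - x₀‖ ^ 2 =
      (w 0 - z 0) ^ 2 + (w 1 - z 1) ^ 2 + w 2 ^ 2 := by
    intro w
    have e : A w + x₁ - x₀ = A (w - z) := by
      rw [map_sub, hAz]; abel
    rw [e, A.norm_map, geo_norm]
    simp only [PiLp.sub_apply, hz2]
    ring
  have h9 := pow_lt_pow_left₀ h6 (norm_nonneg _) two_ne_zero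
  have h10 := pow_lt_pow_left₀ h7 (norm_nonneg _) two_ne_zero
  rw [h8] at h9 h10
  have g0 : rf 0 (rf 1 x) 0 = -x 0 := by
    rw [rf_apply, if_pos rfl, rf_apply, if_neg (by decide)]
  have g1 : rf 0 (rf 1 x) 1 = -x 1 := by
    rw [rf_apply, if_neg (by decide), rf_apply, if_pos rfl]
  have g2 : rf 0 (rf 1 x) 2 = x 2 := by
    rw [rf_apply, if_neg (by decide), rf_apply, if_neg (by decide)]
  rw [g0, g1, g2] at h10
  rw [mem_ball, dist_zero_right]
  refine lt_of_pow_lt_pow_left₀ 2 hR.le ?_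
  rw [geo_norm]
  nlinarith [sq_nonneg (z 0), sq_nonneg (z 1)]

end Pool.Agent.H68.SM
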