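import Pool.Agent.H68.SM.Defs
import Pool.Agent.H68.SC.Energy
import Pool.Agent.H68.SC.Quad

/-!
# Module GrA (about 250 lines): the positive part of a ground state solves the equation

Here `e 0 = -1` and `e j ∈ {0, 1}` for `j ≠ 0`; `hpos`: the form is nonnegative on the class.

PROOF. For `δ > 0` let `T s = s * Real.smoothTransition (s / δ - 1)`: smooth, `T s = 0` for `s ≤ δ`,
`T s = s` for `s ≥ 2 δ`, `0 ≤ T' ≤ C` with `C` independent of `δ` (`smoothTransition` is monotone, its
derivative is continuous and vanishes outside `[0, 1]`), `|T s| ≤ |s|`.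
`f x = if 0 ≤ x 0 then T (w x) else - T (- w x)`. `w (rf 0 x) = - w x`, so `w = 0` on `x_0 = 0` and `f = 0`
near such points; the set `{|w| ≥ δ}` is compact and contained in `D` (`w` is continuous, `out`, `D`
bounded); `f` is `C¹` with support in it; `f ∈ Cl e` (check `rf 0`, where the two cases are
exchanged, and `rf j` with `e j = 1`). `P = {x | pp w x ≠ 0} = {x_0 ≥ 0, w > 0} ∪ {x_0 < 0, w < 0}`.
`gg f f = T' (|w|)² gg w w` on `P`, `gg w f = T' (|w|) gg w w` on `P`, both `0` elsewhere. By `energy`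
`gg w w` is integrable on `{w ≠ 0}`. As `δ = 1 / (n+1) → 0` dominated convergence gives
`∫ gg f f → ∫_P gg w w`, `∫ f² → ∫_P w²`, and from `hw.weak` for `ψ = f`: `∫ gg w f = K ∫ w f`, so
`∫_P gg w w = K ∫_P w²`. Hence `BB K f f → 0`.
For `ψ ∈ C²`, compact support in `D`, in `Cl e`: `BB K f ψ = - ∫ f (∑ i, pd (pd ψ i) i + K ψ)` (`ibp` or
`integral_pd` for `f * pd ψ i`), and `f → pp w` uniformly (`|f - pp w| ≤ 2 δ`), so
`BB K f ψ → - β`, `β = ∫ pp w * (∑ i, pd (pd ψ i) i + K ψ)`. By `hpos` for `f + t ψ` (`BB_add_self`,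
`BB_smul_left`): `0 ≤ BB K f f + 2 t BB K f ψ + t² BB K ψ ψ`, in the limit `0 ≤ - 2 t β + t² BB K ψ ψ` for
all real `t`, so `β = 0`.
-/

set_option autoImplicit false

namespace Pool.Agent.H68.SM

open Filter Topology MeasureTheory Metric
open scoped ContDiff
open Pool.Agent.H68.SC

private theorem GrA_fix {x : E} (hx : x 0 = 0) : rf 0 x = x := by
  ext i
  rw [rf_apply]
  split_ifs with h
  · rw [h, hx, neg_zero]
  · rfl

theorem continuous_pp {w : E → ℝ} (hw : Continuous w) (h : ∀ x, w (rf 0 x) = -w x) :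
    Continuous (pp w) := by
  unfold pp
  refine Continuous.if_le (hw.max continuous_const) (hw.min continuous_const) continuous_const
    (by fun_prop) fun x hx => ?_
  have h1 := h x
  rw [GrA_fix hx.symm] at h1
  have h2 : w x = 0 := by linarith
  rw [h2, max_self, min_self]

/-- the sign of the first coordinate -/
private noncomputable def gs (x : E) : ℝ := if 0 ≤ x 0 then 1 else -1

private theorem gs_cases (x : E) : gs x = 1 ∨ gs x = -1 := by
  unfold gs
  split_ifs
  · exact Or.inl rfl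
  · exact Or.inr rfl

private theorem gs_mul_le (x : E) (v : ℝ) : gs x * v ≤ |v| := by
  rcases gs_cases x with h | h
  · rw [h, one_mul]; exact le_abs_self v
  · rw [h, neg_one_mul]; exact neg_le_abs v

private noncomputable def gf (w : E → ℝ) (m : ℝ) (x : E) : ℝ :=
  w x * Real.smoothTransition (m * (gs x * w x) - 1)

private noncomputable def gk (u : ℝ) : ℝ :=
  Real.smoothTransition u + (u + 1) * deriv Real.smoothTransition u

private theorem gk_zero {u : ℝ} (h : u < 0) : gk u = 0 := by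
  have h1 : Real.smoothTransition =ᶠ[𝓝 u] fun _ => 0 := by
    have hn : Set.Iio (0 : ℝ) ∈ 𝓝 u := isOpen_Iio.mem_nhds h
    filter_upwards [hn] with y hy
    exact Real.smoothTransition.zero_of_nonpos (le_of_lt hy)
  unfold gk
  rw [h1.deriv_eq, h1.eq_of_nhds, deriv_const]
  ring

private theorem gk_one {u : ℝ} (h : 1 < u) : gk u = 1 := by
  have h1 : Real.smoothTransition =ᶠ[𝓝 u] fun _ => 1 := by
    have hn : Set.Ioi (1 : ℝ) ∈ 𝓝 u := isOpen_Ioi.mem_nhds h
    filter_upwards [hn] with y hy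
    exact Real.smoothTransition.one_of_one_le (le_of_lt hy)
  unfold gk
  rw [h1.deriv_eq, h1.eq_of_nhds, deriv_const]
  ring

private theorem gk_cont : Continuous gk := by
  have h1 : Continuous Real.smoothTransition := Real.smoothTransition.continuous
  have h2 : Continuous (deriv Real.smoothTransition) :=
    (Real.smoothTransition.contDiff (n := 1)).continuous_deriv le_rfl
  unfold gk
  exact h1.add ((continuous_id.add continuous_const).mul h2)

private theorem gk_bdd : ∃ C : ℝ, 0 ≤ C ∧ ∀ u, |gk u| ≤ C := by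
  obtain ⟨C, hC⟩ := (isCompact_Icc (a := (0 : ℝ)) (b := 1)).exists_bound_of_continuousOn
    gk_cont.continuousOn
  refine ⟨max C 1, le_max_of_le_right zero_le_one, fun u => ?_⟩
  rcases lt_or_ge u 0 with h | h
  · rw [gk_zero h, abs_zero]
    exact le_max_of_le_right zero_le_one
  · rcases le_or_gt u 1 with h' | h'
    · exact (hC u ⟨h, h'⟩).trans (le_max_left _ _)
    · rw [gk_one h', abs_one]
      exact le_max_right _ _

private theorem gT_deriv (m s v : ℝ) :
    HasDerivAt (fun v : ℝ => v * Real.smoothTransition (m * (s * v) - 1))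
      (gk (m * (s * v) - 1)) v := by
  have h1 : HasDerivAt (fun v : ℝ => m * (s * v) - 1) (m * s) v := by
    have h := (((hasDerivAt_id v).const_mul s).const_mul m).sub_const 1
    simpa using h
  have h2 : HasDerivAt Real.smoothTransition
      (deriv Real.smoothTransition (m * (s * v) - 1)) (m * (s * v) - 1) :=
    ((Real.smoothTransition.contDiff (n := 1)).differentiable one_ne_zero _).hasDerivAt
  have h3 := h2.comp v h1
  have h4 := (hasDerivAt_id v).mul h3
  have e : gk (m * (s * v) - 1) = 1 * Real.smoothTransition (m * (s * v) - 1) +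
      v * (deriv Real.smoothTransition (m * (s * v) - 1) * (m * s)) := by
    unfold gk; ring
  rw [e]
  exact h4

private theorem gT_smooth (m s : ℝ) :
    ContDiff ℝ 1 (fun v : ℝ => v * Real.smoothTransition (m * (s * v) - 1)) := by
  have h : ContDiff ℝ 1 (fun v : ℝ => m * (s * v) - 1) := by fun_prop
  exact contDiff_id.mul ((Real.smoothTransition.contDiff (n := 1)).comp h)

private theorem gf_zero {w : E → ℝ} {m : ℝ} (hm : 0 < m) {x : E} (hx : m * |w x| ≤ 1) :
    gf w m x = 0 := by
  unfold gf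
  rw [Real.smoothTransition.zero_of_nonpos, mul_zero]
  have h1 := mul_le_mul_of_nonneg_left (gs_mul_le x (w x)) hm.le
  linarith

private theorem gf_local {D : Set E} {K : ℝ} {w : E → ℝ} (hw : Eigf D K w)
    (h0 : ∀ x, w (rf 0 x) = -w x) {m : ℝ} {x : E} (hx : ¬ m * |w x| < 1) :
    x ∈ D ∧ gf w m =ᶠ[𝓝 x] fun y => w y * Real.smoothTransition (m * (gs x * w y) - 1) := by
  have hwx : w x ≠ 0 := by
    intro h
    apply hx
    rw [h, abs_zero, mul_zero]
    exact one_pos
  refine ⟨?_, ?_⟩
  · by_contra hne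
    exact hwx (hw.out x hne)
  · have hx0 : x 0 ≠ 0 := by
      intro h
      have h1 := h0 x
      rw [GrA_fix h] at h1
      exact hwx (by linarith)
    have hc : Continuous fun y : E => y 0 := by fun_prop
    rcases lt_or_gt_of_ne hx0 with h | h
    · have hn : {y : E | y 0 < 0} ∈ 𝓝 x := (isOpen_lt hc continuous_const).mem_nhds h
      filter_upwards [hn] with y hy
      have e1 : gs y = -1 := by
        unfold gs
        rw [if_neg (not_le.2 hy)]
      have e2 : gs x = -1 := by
        unfold gs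
        rw [if_neg (not_le.2 h)]
      unfold gf
      rw [e1, e2]
    · have hn : {y : E | 0 < y 0} ∈ 𝓝 x := (isOpen_lt continuous_const hc).mem_nhds h
      filter_upwards [hn] with y hy
      have e1 : gs y = 1 := by
        unfold gs
        rw [if_pos (le_of_lt hy)]
      have e2 : gs x = 1 := by
        unfold gs
        rw [if_pos (le_of_lt h)]
      unfold gf
      rw [e1, e2]

private theorem gf_local0 {D : Set E} {K : ℝ} {w : E → ℝ} (hw : Eigf D K w) {m : ℝ} (hm : 0 < m)
    {x : E} (hx : m * |w x| < 1) : gf w m =ᶠ[𝓝 x] fun _ => 0 := by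
  have hn : {y : E | m * |w y| < 1} ∈ 𝓝 x :=
    (isOpen_lt (continuous_const.mul hw.cont.abs) continuous_const).mem_nhds hx
  filter_upwards [hn] with y hy
  exact gf_zero hm (le_of_lt hy)

private theorem gf_pd {D : Set E} (hD : IsOpen D) {K : ℝ} {w : E → ℝ} (hw : Eigf D K w)
    (h0 : ∀ x, w (rf 0 x) = -w x) {m : ℝ} (hm : 0 < m) (x : E) (i : Fin 3) :
    pd (gf w m) i x = gk (m * (gs x * w x) - 1) * pd w i x := by
  by_cases hx : m * |w x| < 1
  · have h1 := gf_local0 hw hm hx
    rw [pd_congr h1 i, gk_zero, zero_mul]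
    · unfold pd
      rw [fderiv_fun_const]
      rfl
    · have h2 := mul_le_mul_of_nonneg_left (gs_mul_le x (w x)) hm.le
      linarith
  · obtain ⟨hxD, h1⟩ := gf_local hw h0 hx
    rw [pd_congr h1 i]
    have h2 : HasFDerivAt (fun y => w y * Real.smoothTransition (m * (gs x * w y) - 1))
        (gk (m * (gs x * w x) - 1) • fderiv ℝ w x) x :=
      (gT_deriv m (gs x) (w x)).comp_hasFDerivAt x (diffAt_of hD hw.C1 hxD).hasFDerivAt
    unfold pd
    rw [h2.fderiv]
    rfl

private theorem gf_mem {D : Set E} (hD : IsOpen D) (hb : Bornology.IsBounded D) {K : ℝ}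
    {w : E → ℝ} (hw : Eigf D K w) (h0 : ∀ x, w (rf 0 x) = -w x) {m : ℝ} (hm : 0 < m) :
    gf w m ∈ C1c D := by
  have hcl : IsClosed {x | 1 ≤ m * |w x|} :=
    isClosed_le continuous_const (continuous_const.mul hw.cont.abs)
  have hsub : {x | 1 ≤ m * |w x|} ⊆ D := by
    intro x hx
    by_contra hne
    have h1 : 1 ≤ m * |w x| := hx
    rw [hw.out x hne] at h1
    norm_num at h1
  have hts : tsupport (gf w m) ⊆ {x | 1 ≤ m * |w x|} := by
    refine closure_minimal ?_ hcl
    intro x hx
    by_contra hne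
    exact hx (gf_zero hm (le_of_lt (not_le.1 hne)))
  refine ⟨?_, ?_, hts.trans hsub⟩
  · rw [contDiff_iff_contDiffAt]
    intro x
    by_cases hx : m * |w x| < 1
    · exact contDiffAt_const.congr_of_eventuallyEq (gf_local0 hw hm hx)
    · obtain ⟨hxD, h1⟩ := gf_local hw h0 hx
      refine ContDiffAt.congr_of_eventuallyEq ?_ h1
      exact (gT_smooth m (gs x)).contDiffAt.comp x ((hw.C1 x hxD).contDiffAt (hD.mem_nhds hxD))
  · exact (isCompact_of_isClosed_isBounded hcl (hb.subset hsub)).of_isClosed_subset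
      (isClosed_tsupport _) hts

private theorem gf_cl {e : Fin 3 → ℝ} (he0 : e 0 = -1) (he : ∀ j, j ≠ 0 → e j = 0 ∨ e j = 1)
    {w : E → ℝ} (hwe : w ∈ Cl e) (m : ℝ) : gf w m ∈ Cl e := by
  intro j hj x
  by_cases hj0 : j = 0
  · subst hj0
    have h1 : w (rf 0 x) = -w x := by
      have := hwe 0 hj x
      rw [he0] at this
      linarith
    by_cases hx : x 0 = 0
    · have h2 : w x = 0 := by
        rw [GrA_fix hx] at h1
        linarith
      unfold gf
      rw [h1, h2]
      simp
    · have h3 : (rf 0 x) 0 = -x 0 := by rw [rf_apply, if_pos rfl]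
      have h2 : gs (rf 0 x) = -gs x := by
        unfold gs
        rw [h3]
        rcases lt_or_gt_of_ne hx with h | h
        · rw [if_pos (by linarith), if_neg (not_le.2 h)]; ring
        · rw [if_neg (by linarith), if_pos h.le]
      unfold gf
      rw [h1, h2, he0, neg_mul_neg]
      ring
  · have hj1 : e j = 1 := (he j hj0).resolve_left hj
    have h1 : w (rf j x) = w x := by
      have := hwe j hj x
      rw [hj1] at this
      linarith
    have h2 : (rf j x) 0 = x 0 := by rw [rf_apply, if_neg (Ne.symm hj0)]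
    unfold gf gs
    rw [h1, h2, hj1, one_mul]

private theorem gf_ev (w : E → ℝ) (x : E) : ∀ᶠ n : ℕ in atTop,
    ((gk (((n : ℝ) + 1) * (gs x * w x) - 1) = 0 ∧ gf w ((n : ℝ) + 1) x = 0 ∧ pp w x = 0) ∨
     (gk (((n : ℝ) + 1) * (gs x * w x) - 1) = 1 ∧ gf w ((n : ℝ) + 1) x = w x ∧ pp w x = w x)) := by
  rcases le_or_gt (gs x * w x) 0 with h | h
  · refine Eventually.of_forall fun n => Or.inl ?_
    have hn : ((n : ℝ) + 1) * (gs x * w x) ≤ 0 :=
      mul_nonpos_of_nonneg_of_nonpos (by positivity) h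
    refine ⟨gk_zero (by linarith), ?_, ?_⟩
    · unfold gf
      rw [Real.smoothTransition.zero_of_nonpos (by linarith), mul_zero]
    · unfold pp
      unfold gs at h
      split_ifs with h1
      · rw [if_pos h1, one_mul] at h
        exact max_eq_right h
      · rw [if_neg h1] at h
        exact min_eq_right (by linarith)
  · obtain ⟨N, hN⟩ := exists_nat_gt (2 / (gs x * w x))
    filter_upwards [eventually_ge_atTop N] with n hn
    right
    have hn' : (N : ℝ) ≤ n := by exact_mod_cast hn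
    have h2 : 2 < ((n : ℝ) + 1) * (gs x * w x) := by
      have h3 : 2 / (gs x * w x) < (n : ℝ) + 1 := by linarith
      exact (div_lt_iff₀ h).1 h3
    refine ⟨gk_one (by linarith), ?_, ?_⟩
    · unfold gf
      rw [Real.smoothTransition.one_of_one_le (by linarith), mul_one]
    · unfold pp
      unfold gs at h
      split_ifs with h1
      · rw [if_pos h1, one_mul] at h
        exact max_eq_left h.le
      · rw [if_neg h1] at h
        exact min_eq_left (by linarith)

private theorem gf_BB {D : Set E} (hD : IsOpen D) (hb : Bornology.IsBounded D) {K : ℝ}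
    (hK : 0 < K) {w : E → ℝ} (hw : Eigf D K w) (h0 : ∀ x, w (rf 0 x) = -w x) :
    Tendsto (fun n : ℕ => BB K (gf w ((n : ℝ) + 1)) (gf w ((n : ℝ) + 1))) atTop (𝓝 0) := by
  obtain ⟨C, hC0, hC⟩ := gk_bdd
  have hm : ∀ n : ℕ, (0 : ℝ) < (n : ℝ) + 1 := fun n => by positivity
  have hf : ∀ n : ℕ, gf w ((n : ℝ) + 1) ∈ C1c D := fun n => gf_mem hD hb hw h0 (hm n)
  set k : ℕ → E → ℝ := fun n x => gk (((n : ℝ) + 1) * (gs x * w x) - 1) with hk
  set h : ℕ → E → ℝ := fun n x =>
    (gg (gf w ((n : ℝ) + 1)) (gf w ((n : ℝ) + 1)) x -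
      K * (gf w ((n : ℝ) + 1) x * gf w ((n : ℝ) + 1) x)) -
    (gg w (gf w ((n : ℝ) + 1)) x - K * (w x * gf w ((n : ℝ) + 1) x)) with hh
  have e1 : ∀ (n : ℕ) (x : E), gg (gf w ((n : ℝ) + 1)) (gf w ((n : ℝ) + 1)) x = k n x ^ 2 * gg w w x := by
    intro n x
    unfold gg
    rw [Finset.mul_sum]
    refine Finset.sum_congr rfl fun i _ => ?_
    rw [gf_pd hD hw h0 (hm n) x i]
    simp only [hk]
    ring
  have e2 : ∀ (n : ℕ) (x : E), gg w (gf w ((n : ℝ) + 1)) x = k n x * gg w w x := by
    intro n x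
    unfold gg
    rw [Finset.mul_sum]
    refine Finset.sum_congr rfl fun i _ => ?_
    rw [gf_pd hD hw h0 (hm n) x i]
    simp only [hk]
    ring
  have hi1 : ∀ n : ℕ, Integrable (fun x => gg (gf w ((n : ℝ) + 1)) (gf w ((n : ℝ) + 1)) x -
      K * (gf w ((n : ℝ) + 1) x * gf w ((n : ℝ) + 1) x)) := fun n =>
    (C1c.int_gg (hf n) (hf n)).sub ((C1c.int_mul (hf n) (hf n)).const_mul K)
  have hi2 : ∀ n : ℕ, Integrable (fun x => gg w (gf w ((n : ℝ) + 1)) x -
      K * (w x * gf w ((n : ℝ) + 1) x)) := fun n => int_weak hD hw (hf n)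
  have hBB : ∀ n : ℕ, BB K (gf w ((n : ℝ) + 1)) (gf w ((n : ℝ) + 1)) = ∫ x, h n x := by
    intro n
    simp only [hh]
    rw [integral_sub (hi1 n) (hi2 n), hw.weak _ (hf n), sub_zero]
    rfl
  have hwc : HasCompactSupport w := by
    refine HasCompactSupport.intro (K := closure D) hb.isCompact_closure fun x hx => ?_
    exact hw.out x fun hx' => hx (subset_closure hx')
  have hi3 : Integrable (fun x => w x ^ 2) := by
    have : (fun x => w x ^ 2) = fun x => w x * w x := by funext x; ring
    rw [this]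
    exact integrable_cc (hw.cont.mul hw.cont) (HasCompactSupport.mul_right hwc)
  have hS : MeasurableSet {x | w x ≠ 0} := (isOpen_ne_fun hw.cont continuous_const).measurableSet
  have hi4 : Integrable (Set.indicator {x | w x ≠ 0} (gg w w)) :=
    (integrable_indicator_iff hS).2 (energy hD hb hK hw)
  have hlim : Tendsto (fun n => ∫ x, h n x) atTop (𝓝 (∫ x : E, (0 : ℝ))) := by
    refine tendsto_integral_of_dominated_convergence
      (fun x => (C ^ 2 + C) * Set.indicator {x | w x ≠ 0} (gg w w) x + K * w x ^ 2)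
      (fun n => ((hi1 n).sub (hi2 n)).aestronglyMeasurable)
      ((hi4.const_mul _).add (hi3.const_mul _)) ?_ ?_
    · intro n
      refine Eventually.of_forall fun x => ?_
      simp only [hh]
      rw [e1, e2]
      by_cases hx : w x = 0
      · have h1 : k n x = 0 := by
          simp only [hk]
          rw [hx]
          exact gk_zero (by norm_num)
        have h2 : gf w ((n : ℝ) + 1) x = 0 := by
          unfold gf
          rw [hx, zero_mul]
        rw [h1, h2, hx, Set.indicator_of_notMem (by simp [hx])]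
        simp
      · rw [Set.indicator_of_mem (by simpa using hx)]
        have hg := gg_nonneg w x
        have hkb : |k n x| ≤ C := hC _
        set s := Real.smoothTransition (((n : ℝ) + 1) * (gs x * w x) - 1) with hs
        have hs0 : 0 ≤ s := Real.smoothTransition.nonneg _
        have hs1 : s ≤ 1 := Real.smoothTransition.le_one _
        have h2 : gf w ((n : ℝ) + 1) x = w x * s := rfl
        rw [h2]
        have h3 : k n x ^ 2 * gg w w x - K * (w x * s * (w x * s)) -
            (k n x * gg w w x - K * (w x * (w x * s))) =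
            (k n x ^ 2 - k n x) * gg w w x + K * (w x ^ 2 * (s - s ^ 2)) := by ring
        rw [h3, Real.norm_eq_abs]
        refine (abs_add_le _ _).trans (add_le_add ?_ ?_)
        · rw [abs_mul, abs_of_nonneg hg]
          refine mul_le_mul_of_nonneg_right ?_ hg
          calc |k n x ^ 2 - k n x| ≤ |k n x ^ 2| + |k n x| := abs_sub _ _
            _ ≤ C ^ 2 + C := by
              refine add_le_add ?_ hkb
              rw [abs_pow]
              exact pow_le_pow_left₀ (abs_nonneg _) hkb 2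
        · rw [abs_of_nonneg]
          · refine mul_le_mul_of_nonneg_left ?_ hK.le
            nlinarith [sq_nonneg (w x), mul_nonneg (sq_nonneg (w x)) (by nlinarith : (0 : ℝ) ≤ 1 - (s - s ^ 2))]
          · refine mul_nonneg hK.le (mul_nonneg (sq_nonneg _) ?_)
            nlinarith
    · refine Eventually.of_forall fun x => ?_
      refine tendsto_const_nhds.congr' ?_
      filter_upwards [gf_ev w x] with n hn
      simp only [hh]
      rw [e1, e2]
      simp only [hk]
      rcases hn with ⟨h1, h2, _⟩ | ⟨h1, h2, _⟩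
      · rw [h1, h2]; ring
      · rw [h1, h2]; ring
  rw [integral_zero] at hlim
  exact hlim.congr fun n => (hBB n).symm

private theorem gf_ibp {D : Set E} {f ψ : E → ℝ} (hf : f ∈ C1c D)
    (h1 : ContDiff ℝ 2 ψ) (h2 : HasCompactSupport ψ) (h3 : tsupport ψ ⊆ D) (K : ℝ) :
    BB K f ψ = -∫ x, f x * ((∑ i, pd (pd ψ i) i x) + K * ψ x) := by
  have hψ1 : ContDiff ℝ 1 ψ := h1.of_le (by norm_num)
  have hψ : ψ ∈ C1c D := ⟨hψ1, h2, h3⟩
  have hp : ∀ i, ContDiff ℝ 1 (pd ψ i) := by
    intro i
    have : ContDiff ℝ 1 (fderiv ℝ ψ) := h1.fderiv_right (by norm_num)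
    exact this.clm_apply contDiff_const
  have hpp : ∀ i, Continuous (pd (pd ψ i) i) := fun i => continuous_pd (hp i) i
  have hib : ∀ i, ∫ x, pd f i x * pd ψ i x = -∫ x, f x * pd (pd ψ i) i x := by
    intro i
    have h := ibp (D := Set.univ) isOpen_univ ((hp i).contDiffOn) (C1c.contDiff hf)
      (C1c.compact hf) (Set.subset_univ _) i
    have e1 : (fun x => pd f i x * pd ψ i x) = fun x => pd ψ i x * pd f i x := by
      funext x; ring
    have e2 : (fun x => f x * pd (pd ψ i) i x) = fun x => pd (pd ψ i) i x * f x := by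
      funext x; ring
    rw [e1, e2, h]
  rw [BB_eq hf hψ]
  have hi1 : ∀ i ∈ (Finset.univ : Finset (Fin 3)), Integrable (fun x => pd f i x * pd ψ i x) :=
    fun i _ => integrable_cc ((continuous_pd (C1c.contDiff hf) i).mul (continuous_pd hψ1 i))
      (HasCompactSupport.mul_right (hasCompactSupport_pd (C1c.compact hf) i))
  have hi2 : ∀ i ∈ (Finset.univ : Finset (Fin 3)), Integrable (fun x => f x * pd (pd ψ i) i x) :=
    fun i _ => integrable_cc ((C1c.cont hf).mul (hpp i))
      (HasCompactSupport.mul_right (C1c.compact hf))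
  have e1 : ∫ x, gg f ψ x = -∑ i, ∫ x, f x * pd (pd ψ i) i x := by
    unfold gg
    rw [integral_finsetSum _ hi1, ← Finset.sum_neg_distrib]
    exact Finset.sum_congr rfl fun i _ => hib i
  have e2 : ∀ x, f x * ((∑ i, pd (pd ψ i) i x) + K * ψ x) =
      (∑ i, f x * pd (pd ψ i) i x) + K * (f x * ψ x) := by
    intro x
    rw [mul_add, Finset.mul_sum]
    ring
  rw [integral_congr_ae (Eventually.of_forall e2),
    integral_add (integrable_finsetSum _ hi2) ((C1c.int_mul hf hψ).const_mul K),
    integral_finsetSum _ hi2, integral_const_mul, e1]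
  ring

theorem grA {D : Set E} (hD : IsOpen D) (hb : Bornology.IsBounded D) {K : ℝ} (hK : 0 < K)
    {e : Fin 3 → ℝ} (he0 : e 0 = -1) (he : ∀ j, j ≠ 0 → e j = 0 ∨ e j = 1)
    (hDe : ∀ j, e j ≠ 0 → ∀ x ∈ D, rf j x ∈ D) {w : E → ℝ} (hw : Eigf D K w) (hwe : w ∈ Cl e)
    (hpos : ∀ f ∈ C1c D ⊓ Cl e, 0 ≤ BB K f f) {ψ : E → ℝ} (h1 : ContDiff ℝ 2 ψ)
    (h2 : HasCompactSupport ψ) (h3 : tsupport ψ ⊆ D) (h4 : ψ ∈ Cl e) :
    ∫ x, pp w x * ((∑ i, pd (pd ψ i) i x) + K * ψ x) = 0 := by
  have h0 : ∀ x, w (rf 0 x) = -w x := by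
    intro x
    have := hwe 0 (by rw [he0]; norm_num) x
    rw [he0] at this
    linarith
  have hm : ∀ n : ℕ, (0 : ℝ) < (n : ℝ) + 1 := fun n => by positivity
  have hf : ∀ n : ℕ, gf w ((n : ℝ) + 1) ∈ C1c D := fun n => gf_mem hD hb hw h0 (hm n)
  have hfe : ∀ n : ℕ, gf w ((n : ℝ) + 1) ∈ Cl e := fun n => gf_cl he0 he hwe _
  have hψ1 : ContDiff ℝ 1 ψ := h1.of_le (by norm_num)
  have hψ : ψ ∈ C1c D := ⟨hψ1, h2, h3⟩
  set L : E → ℝ := fun x => (∑ i, pd (pd ψ i) i x) + K * ψ x with hL
  have hp : ∀ i, ContDiff ℝ 1 (pd ψ i) := by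
    intro i
    have : ContDiff ℝ 1 (fderiv ℝ ψ) := h1.fderiv_right (by norm_num)
    exact this.clm_apply contDiff_const
  have hLc : Continuous L :=
    (continuous_finsetSum _ fun i _ => continuous_pd (hp i) i).add
      (continuous_const.mul hψ1.continuous)
  have hLs : HasCompactSupport L := by
    refine HasCompactSupport.intro h2 fun x hx => ?_
    simp only [hL]
    rw [zero_of hx, mul_zero, add_zero]
    refine Finset.sum_eq_zero fun i _ => ?_
    refine pd_zero_of (fun hh => hx ?_) i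
    refine (closure_minimal ?_ (isClosed_tsupport ψ)) hh
    intro y hy
    by_contra hne
    exact hy (pd_zero_of hne i)
  have hlim1 := gf_BB hD hb hK hw h0
  have hlim2 : Tendsto (fun n : ℕ => BB K (gf w ((n : ℝ) + 1)) ψ) atTop
      (𝓝 (-∫ x, pp w x * L x)) := by
    have h5 : Tendsto (fun n : ℕ => ∫ x, gf w ((n : ℝ) + 1) x * L x) atTop
        (𝓝 (∫ x, pp w x * L x)) := by
      refine tendsto_integral_of_dominated_convergence (fun x => |w x * L x|)
        (fun n => ((C1c.cont (hf n)).mul hLc).aestronglyMeasurable)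
        (integrable_cc (hw.cont.mul hLc) (HasCompactSupport.mul_left hLs)).abs ?_ ?_
      · intro n
        refine Eventually.of_forall fun x => ?_
        rw [Real.norm_eq_abs, abs_mul, abs_mul]
        refine mul_le_mul_of_nonneg_right ?_ (abs_nonneg _)
        unfold gf
        rw [abs_mul, abs_of_nonneg (Real.smoothTransition.nonneg _)]
        exact mul_le_of_le_one_right (abs_nonneg _) (Real.smoothTransition.le_one _)
      · refine Eventually.of_forall fun x => ?_
        refine tendsto_const_nhds.congr' ?_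
        filter_upwards [gf_ev w x] with n hn
        rcases hn with ⟨_, h6, h7⟩ | ⟨_, h6, h7⟩
        · rw [h6, h7]
        · rw [h6, h7]
    refine h5.neg.congr fun n => ?_
    exact (gf_ibp (hf n) h1 h2 h3 K).symm
  set β := ∫ x, pp w x * L x with hβ
  have hq : ∀ t : ℝ, 0 ≤ 0 + 2 * (t * -β) + t ^ 2 * BB K ψ ψ := by
    intro t
    have h5 : ∀ n : ℕ, 0 ≤ BB K (gf w ((n : ℝ) + 1)) (gf w ((n : ℝ) + 1)) +
        2 * (t * BB K (gf w ((n : ℝ) + 1)) ψ) + t ^ 2 * BB K ψ ψ := by
      intro n
      have h6 := hpos (gf w ((n : ℝ) + 1) + t • ψ)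
        ⟨add_mem (hf n) (Submodule.smul_mem _ t hψ), add_mem (hfe n) (Submodule.smul_mem _ t h4)⟩
      rw [BB_add_self (hf n) (Submodule.smul_mem _ t hψ), BB_comm K (gf w ((n : ℝ) + 1)) (t • ψ),
        BB_smul_left t hψ, BB_comm K ψ (gf w ((n : ℝ) + 1)), BB_smul_left t hψ,
        BB_comm K ψ (t • ψ), BB_smul_left t hψ] at h6
      linarith
    have h7 : Tendsto (fun n : ℕ => BB K (gf w ((n : ℝ) + 1)) (gf w ((n : ℝ) + 1)) +
        2 * (t * BB K (gf w ((n : ℝ) + 1)) ψ) + t ^ 2 * BB K ψ ψ) atTop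
        (𝓝 (0 + 2 * (t * -β) + t ^ 2 * BB K ψ ψ)) :=
      (hlim1.add ((hlim2.const_mul t).const_mul 2)).add tendsto_const_nhds
    exact ge_of_tendsto' h7 h5
  by_contra hne
  have hB : 0 < |BB K ψ ψ| + 1 := by positivity
  have h8 := hq (β / (|BB K ψ ψ| + 1))
  have h9 : BB K ψ ψ ≤ |BB K ψ ψ| + 1 := by
    have := le_abs_self (BB K ψ ψ)
    linarith
  have h10 : (β / (|BB K ψ ψ| + 1)) ^ 2 * BB K ψ ψ ≤
      (β / (|BB K ψ ψ| + 1)) ^ 2 * (|BB K ψ ψ| + 1) :=
    mul_le_mul_of_nonneg_left h9 (sq_nonneg _)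
  have h11 : (β / (|BB K ψ ψ| + 1)) ^ 2 * (|BB K ψ ψ| + 1) = β ^ 2 / (|BB K ψ ψ| + 1) := by
    field_simp
  have h12 : β / (|BB K ψ ψ| + 1) * -β = -(β ^ 2 / (|BB K ψ ψ| + 1)) := by
    field_simp
  have h13 : 0 < β ^ 2 / (|BB K ψ ψ| + 1) := by positivity
  rw [h12] at h8
  rw [h11] at h10
  linarith

end Pool.Agent.H68.SM
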