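import Pool.Agent.H68.SC.Basic

/-!
# Module Smp (about 170 lines): strong maximum principle for very weak solutions

PROOF. Let `ρ' = ρ / 2`. For `0 < ε < ρ' / 2` put `s x = √(‖x - p‖² + ε²)` (smooth, `≥ ε`) and
`ψ x = F (s x)`, `F s = (max (ρ' - s) 0) ^ 3 / s`: `ψ` is `C²` (`t ↦ (max t 0)^3` is `C²`), vanishes for
`‖x - p‖ ≥ ρ'`. It is `z ‖x - p‖` for a function `z`. With `r = ‖x - p‖`, `s² = r² + ε²` (for `s < ρ'`):
`∑ i, pd (pd ψ i) i = F'' r²/s² + F' (3/s - r²/s³)`, `F = (ρ' - s)³/s`,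
`F' = - 3 (ρ' - s)²/s - (ρ' - s)³/s²`, and `F'' + 2 F'/s = (s F)''/s = 6 (ρ' - s)/s`, so
`Δψ = 6 (ρ' - s)/s * (r²/s²) + 3 ε² F'/s³` (check: `F'' r²/s² + F' (3/s - r²/s³) = (F'' + 2F'/s) r²/s² + 3 F' ε²/s³`).
Since `0 ≤ - F' ≤ 4 ρ'³ / s²` for `s ≤ ρ'`: `Δψ + K ψ ≥ 6 (ρ' - s)₊/s * (r²/s²) - 12 ρ'³ ε² / s⁵`.
Multiply by `f ≥ 0` and integrate: `∫ f 6 (ρ' - s)₊ r² / s³ ≤ 12 ρ'³ ∫_{ball p ρ'} f ε² / s⁵`. As `ε → 0` the
right side tends to `0`: `∫ ε² / s⁵ dx ≤ C` (substitute `x = p + ε y`; `∫ (1 + ‖y‖²)^(-5/2) dy < ∞`,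
`integrable_one_add_norm` or polar coordinates), `f` is small near `p` (`f p = 0`), and away from
`p` the kernel tends to `0` uniformly. The left side tends (Fatou, or monotone bound on a fixed
annulus) to `∫ f 6 (ρ' - r)₊ / r`; so for every `a > 0` the integral of `f` over
`{a ≤ ‖x - p‖ ≤ ρ'/2}` vanishes, `f` is continuous and nonnegative: `f = 0` on `ball p (ρ'/2) \ {p}`.
-/

set_option autoImplicit false

namespace Pool.Agent.H68.SM

open Filter Topology MeasureTheory Metric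
open scoped ContDiff
open Pool.Agent.H68.SC

private theorem Smp_hd (n : ℕ) (hn : 2 ≤ n) (t : ℝ) :
    HasDerivAt (fun t : ℝ => (max t 0) ^ n) (n * (max t 0) ^ (n - 1)) t := by
  rcases lt_trichotomy t 0 with ht | ht | ht
  · have h1 : (fun t : ℝ => (max t 0) ^ n) =ᶠ[𝓝 t] fun _ => 0 := by
      filter_upwards [Iio_mem_nhds ht] with y hy
      have hy' : y < 0 := hy
      rw [max_eq_right hy'.le, zero_pow (by omega)]
    have h2 : ((n : ℝ) * (max t 0) ^ (n - 1)) = 0 := by
      rw [max_eq_right ht.le, zero_pow (by omega), mul_zero]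
    rw [h2]
    exact (hasDerivAt_const t (0 : ℝ)).congr_of_eventuallyEq h1
  · subst ht
    have h2 : ((n : ℝ) * (max (0 : ℝ) 0) ^ (n - 1)) = 0 := by
      rw [max_self, zero_pow (by omega), mul_zero]
    rw [h2, hasDerivAt_iff_isLittleO_nhds_zero]
    have h3 : (fun h : ℝ => (max (0 + h) 0) ^ n - (max (0 : ℝ) 0) ^ n - h • (0 : ℝ)) =
        fun h : ℝ => (max h 0) ^ n := by
      funext h
      rw [max_self, zero_pow (by omega : n ≠ 0), zero_add, smul_zero, sub_zero, sub_zero]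
    rw [h3]
    refine Asymptotics.IsBigO.trans_isLittleO (g := fun h : ℝ => h ^ n) ?_
      (Asymptotics.isLittleO_pow_id (by omega))
    refine Asymptotics.IsBigO.of_bound 1 (Eventually.of_forall fun h => ?_)
    rw [one_mul, norm_pow, norm_pow]
    refine pow_le_pow_left₀ (norm_nonneg _) ?_ n
    rw [Real.norm_eq_abs, Real.norm_eq_abs]
    rcases le_total h 0 with hh | hh
    · rw [max_eq_right hh, abs_zero]; exact abs_nonneg _
    · rw [max_eq_left hh]
  · have h1 : (fun t : ℝ => (max t 0) ^ n) =ᶠ[𝓝 t] fun t => t ^ n := by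
      filter_upwards [Ioi_mem_nhds ht] with y hy
      have hy' : 0 < y := hy
      rw [max_eq_left hy'.le]
    rw [max_eq_left ht.le]
    exact (hasDerivAt_pow n t).congr_of_eventuallyEq h1

private theorem Smp_c2 : ContDiff ℝ 2 (fun t : ℝ => (max t 0) ^ 3) := by
  have h1 : deriv (fun t : ℝ => (max t 0) ^ 3) = fun t => 3 * (max t 0) ^ 2 := by
    funext t
    have := (Smp_hd 3 (by norm_num) t).deriv
    simpa using this
  have h2 : ∀ t : ℝ, HasDerivAt (fun t : ℝ => 3 * (max t 0) ^ 2) (3 * (2 * max t 0)) t := by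
    intro t
    have := (Smp_hd 2 (by norm_num) t).const_mul (3 : ℝ)
    simpa using this
  have h3 : deriv (fun t : ℝ => 3 * (max t 0) ^ 2) = fun t => 3 * (2 * max t 0) :=
    funext fun t => (h2 t).deriv
  have e2 : (2 : WithTop ℕ∞) = 1 + 1 := by norm_num
  rw [e2, contDiff_succ_iff_deriv]
  refine ⟨fun t => (Smp_hd 3 (by norm_num) t).differentiableAt, by simp, ?_⟩
  rw [h1, contDiff_one_iff_deriv]
  refine ⟨fun t => (h2 t).differentiableAt, ?_⟩
  rw [h3]
  fun_prop

/-- the regularised distance -/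
private noncomputable def SmpS (p : E) (ε : ℝ) (x : E) : ℝ := √(‖x - p‖ ^ 2 + ε ^ 2)

private theorem Smp_pos {ε : ℝ} (hε : 0 < ε) (p x : E) : 0 < SmpS p ε x :=
  Real.sqrt_pos.2 (by positivity)

private theorem Smp_sq (ε : ℝ) (p x : E) : SmpS p ε x ^ 2 = ‖x - p‖ ^ 2 + ε ^ 2 :=
  Real.sq_sqrt (by positivity)

private theorem Smp_ge (ε : ℝ) (p x : E) : ‖x - p‖ ≤ SmpS p ε x :=
  Real.le_sqrt_of_sq_le (by nlinarith [sq_nonneg ε])

private theorem Smp_le {ε : ℝ} (hε : 0 < ε) (p x : E) : SmpS p ε x ≤ ‖x - p‖ + ε :=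
  Real.sqrt_le_iff.2 ⟨by positivity, by nlinarith [norm_nonneg (x - p)]⟩

private theorem Smp_smooth {ε : ℝ} (hε : 0 < ε) (p : E) : ContDiff ℝ ∞ (SmpS p ε) := by
  unfold SmpS
  refine ContDiff.sqrt ?_ (fun x => ?_)
  · exact ((contDiff_norm_sq ℝ).comp (contDiff_id.sub contDiff_const)).add contDiff_const
  · have : 0 < ‖x - p‖ ^ 2 + ε ^ 2 := by positivity
    exact this.ne'

private theorem Smp_fd {ε : ℝ} (hε : 0 < ε) (p x : E) :
    HasFDerivAt (SmpS p ε) ((SmpS p ε x)⁻¹ • innerSL ℝ (x - p)) x := by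
  have h1 : HasFDerivAt (fun y : E => ‖y - p‖ ^ 2) (2 • innerSL ℝ (x - p)) x := by
    have h0 : HasFDerivAt (fun y : E => y - p) (ContinuousLinearMap.id ℝ E) x :=
      (hasFDerivAt_id x).sub_const p
    have h := (hasStrictFDerivAt_norm_sq (x - p)).hasFDerivAt.comp x h0
    rw [ContinuousLinearMap.comp_id] at h
    exact h
  have h2 : HasFDerivAt (fun y : E => ‖y - p‖ ^ 2 + ε ^ 2) (2 • innerSL ℝ (x - p)) x :=
    h1.add_const _
  have h3 := h2.sqrt (by positivity : ‖x - p‖ ^ 2 + ε ^ 2 ≠ 0)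
  refine h3.congr_fderiv ?_
  ext v
  simp only [ContinuousLinearMap.smul_apply, smul_eq_mul, nsmul_eq_mul]
  change 1 / (2 * SmpS p ε x) * _ = _
  have := (Smp_pos hε p x).ne'
  rw [one_div, mul_inv]
  push_cast
  ring

private theorem Smp_pd {ε : ℝ} (hε : 0 < ε) (p x : E) {g : ℝ → ℝ} {g' : ℝ}
    (hg : HasDerivAt g g' (SmpS p ε x)) (i : Fin 3) :
    DifferentiableAt ℝ (fun y => g (SmpS p ε y)) x ∧
      pd (fun y => g (SmpS p ε y)) i x = g' * ((x - p) i / SmpS p ε x) := by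
  have h1 : HasFDerivAt (fun y => g (SmpS p ε y)) (g' • ((SmpS p ε x)⁻¹ • innerSL ℝ (x - p))) x :=
    hg.comp_hasFDerivAt x (Smp_fd hε p x)
  refine ⟨h1.differentiableAt, ?_⟩
  unfold pd
  rw [h1.fderiv]
  have h2 : (innerSL ℝ (x - p)) (ee i) = (x - p) i := by
    rw [innerSL_apply_apply, EuclideanSpace.inner_single_right]
    simp
  simp only [ContinuousLinearMap.smul_apply, smul_eq_mul, h2]
  rw [div_eq_inv_mul]

private noncomputable def SmpF (R s : ℝ) : ℝ := (max (R - s) 0) ^ 3 / s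

private noncomputable def SmpG (R s : ℝ) : ℝ :=
  -(3 * (max (R - s) 0) ^ 2) / s ^ 2 - (max (R - s) 0) ^ 3 / s ^ 3

private noncomputable def SmpH (R s : ℝ) : ℝ :=
  6 * (max (R - s) 0) / s ^ 2 + 9 * (max (R - s) 0) ^ 2 / s ^ 3 + 3 * (max (R - s) 0) ^ 3 / s ^ 4

private theorem Smp_q (R s : ℝ) (n : ℕ) (hn : 2 ≤ n) :
    HasDerivAt (fun s : ℝ => (max (R - s) 0) ^ n) (-(n * (max (R - s) 0) ^ (n - 1))) s := by
  have h1 : HasDerivAt (fun s : ℝ => R - s) (-1) s := by
    simpa using (hasDerivAt_id s).const_sub R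
  have h2 := (Smp_hd n hn (R - s)).comp s h1
  rw [mul_neg_one] at h2
  exact h2

private theorem Smp_F {R s : ℝ} (hs : s ≠ 0) : HasDerivAt (SmpF R) (s * SmpG R s) s := by
  have h1 := (Smp_q R s 3 (by norm_num)).div (hasDerivAt_id s) hs
  unfold SmpF
  refine h1.congr_deriv ?_
  unfold SmpG
  simp only [id]
  push_cast
  field_simp

private theorem Smp_G {R s : ℝ} (hs : s ≠ 0) : HasDerivAt (SmpG R) (SmpH R s) s := by
  have h1 := (((Smp_q R s 2 le_rfl).const_mul 3).neg).div (hasDerivAt_pow 2 s) (pow_ne_zero 2 hs)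
  have h2 := (Smp_q R s 3 (by norm_num)).div (hasDerivAt_pow 3 s) (pow_ne_zero 3 hs)
  have h3 := h1.sub h2
  unfold SmpG
  refine h3.congr_deriv ?_
  unfold SmpH
  simp only [Pi.neg_apply]
  push_cast
  field_simp
  ring

private noncomputable def SmpP (p : E) (R ε : ℝ) (x : E) : ℝ := SmpF R (SmpS p ε x)

private theorem Smp_lap {ε : ℝ} (hε : 0 < ε) (p x : E) (R : ℝ) :
    ∑ i, pd (pd (SmpP p R ε) i) i x =
      ‖x - p‖ ^ 2 * (SmpH R (SmpS p ε x) / SmpS p ε x) + 3 * SmpG R (SmpS p ε x) := by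
  have h1 : ∀ i, pd (SmpP p R ε) i = fun y => SmpG R (SmpS p ε y) * (y - p) i := by
    intro i
    funext y
    have hne := (Smp_pos hε p y).ne'
    have := (Smp_pd hε p y (Smp_F (R := R) hne) i).2
    refine this.trans ?_
    field_simp
  have hco : ∀ i : Fin 3, HasFDerivAt (fun y : E => (y - p) i)
      (EuclideanSpace.proj i : E →L[ℝ] ℝ) x := by
    intro i
    have h0 : HasFDerivAt (fun y : E => (EuclideanSpace.proj i : E →L[ℝ] ℝ) y - p i)
        (EuclideanSpace.proj i : E →L[ℝ] ℝ) x :=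
      (EuclideanSpace.proj i : E →L[ℝ] ℝ).hasFDerivAt.sub_const (p i)
    exact h0
  have hne := (Smp_pos hε p x).ne'
  have h2 : ∀ i, pd (pd (SmpP p R ε) i) i x = SmpG R (SmpS p ε x) +
      (x - p) i ^ 2 * (SmpH R (SmpS p ε x) / SmpS p ε x) := by
    intro i
    rw [h1 i]
    have g1 := Smp_pd hε p x (Smp_G (R := R) hne) i
    rw [pd_mul g1.1 (hco i).differentiableAt, g1.2]
    have g2 : pd (fun y : E => (y - p) i) i x = 1 := by
      unfold pd
      rw [(hco i).fderiv]
      simp [EuclideanSpace.proj]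
    rw [g2]
    ring
  rw [Finset.sum_congr rfl fun i _ => h2 i, Fin.sum_univ_three, norm_sq]
  ring

private theorem Smp_lap_ge {ε R : ℝ} (hε : 0 < ε) (hR : 0 < R) (p x : E) :
    6 * max (R - SmpS p ε x) 0 * (‖x - p‖ ^ 2 / SmpS p ε x ^ 3) -
      12 * R ^ 3 * (ε ^ 2 / SmpS p ε x ^ 5) ≤ ∑ i, pd (pd (SmpP p R ε) i) i x := by
  rw [Smp_lap hε p x R]
  have hs := Smp_pos hε p x
  have hsq := Smp_sq ε p x
  set s := SmpS p ε x with hsd
  set r2 := ‖x - p‖ ^ 2 with hr2
  set m := max (R - s) 0 with hm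
  have hm0 : 0 ≤ m := le_max_right _ _
  have hmR : m ≤ R := max_le (by linarith) hR.le
  have hms : m * s ≤ m * R := by
    rcases le_total (R - s) 0 with hh | hh
    · have : m = 0 := max_eq_right hh
      rw [this, zero_mul, zero_mul]
    · exact mul_le_mul_of_nonneg_left (by linarith) hm0
  have e1 : r2 * (SmpH R s / s) + 3 * SmpG R s =
      6 * m * (r2 / s ^ 3) - 3 * ε ^ 2 * (3 * m ^ 2 * s + m ^ 3) / s ^ 5 := by
    have hr : r2 = s ^ 2 - ε ^ 2 := by linarith
    unfold SmpH SmpG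
    rw [← hm, hr]
    field_simp
    ring
  rw [e1]
  have h3 : 3 * m ^ 2 * s + m ^ 3 ≤ 4 * R ^ 3 := by
    have h4 : m ^ 2 * s ≤ R ^ 3 := by
      have : m ^ 2 * s = m * (m * s) := by ring
      rw [this]
      calc m * (m * s) ≤ m * (m * R) := mul_le_mul_of_nonneg_left hms hm0
        _ ≤ R * (R * R) := by
            have := mul_le_mul_of_nonneg_right hmR hR.le
            exact mul_le_mul hmR this (by positivity) hR.le
        _ = R ^ 3 := by ring
    have h5 : m ^ 3 ≤ R ^ 3 := pow_le_pow_left₀ hm0 hmR 3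
    linarith
  have h6 : 3 * ε ^ 2 * (3 * m ^ 2 * s + m ^ 3) / s ^ 5 ≤ 12 * R ^ 3 * (ε ^ 2 / s ^ 5) := by
    have e2 : 12 * R ^ 3 * (ε ^ 2 / s ^ 5) = 3 * ε ^ 2 * (4 * R ^ 3) / s ^ 5 := by ring
    rw [e2]
    exact div_le_div_of_nonneg_right (mul_le_mul_of_nonneg_left h3 (by positivity)) (by positivity)
  linarith

private theorem Smp_zero {ε R : ℝ} (hε : 0 < ε) (p x : E) (hx : R ≤ SmpS p ε x) :
    SmpP p R ε x = 0 ∧ ∑ i, pd (pd (SmpP p R ε) i) i x = 0 := by
  have h1 : max (R - SmpS p ε x) 0 = 0 := max_eq_right (by linarith)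
  refine ⟨?_, ?_⟩
  · unfold SmpP SmpF
    rw [h1]; simp
  · rw [Smp_lap hε p x R]
    unfold SmpH SmpG
    rw [h1]; simp

private theorem Smp_tendsto {f : E → ℝ} (hf : Continuous f) {p : E} {R : ℝ} (hp : f p = 0)
    {u : ℕ → ℝ} (hu : ∀ n, 0 < u n) (hu0 : Tendsto u atTop (𝓝 0)) :
    Tendsto (fun n => ∫ x, (ball p R).indicator f x * ((u n) ^ 2 / SmpS p (u n) x ^ 5)) atTop
      (𝓝 0) := by
  set w : E → ℝ := fun y => (√(1 + ‖y‖ ^ 2) ^ 5)⁻¹ with hw
  have hwi : Integrable w := by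
    have h5 : (Module.finrank ℝ E : ℝ) < 5 := by
      rw [finrank_euclideanSpace]; simp; norm_num
    have := integrable_rpow_neg_one_add_norm_sq (μ := (volume : Measure E)) h5
    refine this.congr (Eventually.of_forall fun y => ?_)
    simp only [hw]
    have h0 : (0 : ℝ) ≤ 1 + ‖y‖ ^ 2 := by positivity
    have e : √(1 + ‖y‖ ^ 2) ^ 5 = (1 + ‖y‖ ^ 2) ^ (5 / 2 : ℝ) := by
      rw [Real.sqrt_eq_rpow, ← Real.rpow_natCast ((1 + ‖y‖ ^ 2) ^ (1 / 2 : ℝ)) 5,
        ← Real.rpow_mul h0]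
      norm_num
    rw [e, ← Real.rpow_neg h0]
    congr 1
    norm_num
  have key : ∀ n, ∫ x, (ball p R).indicator f x * ((u n) ^ 2 / SmpS p (u n) x ^ 5) =
      ∫ y, (ball p R).indicator f (p + u n • y) * w y := by
    intro n
    have hn := hu n
    set G : E → ℝ := fun z => (ball p R).indicator f (p + z) *
      ((u n) ^ 2 / √(‖z‖ ^ 2 + (u n) ^ 2) ^ 5) with hG
    have e1 : ∫ x, (ball p R).indicator f x * ((u n) ^ 2 / SmpS p (u n) x ^ 5) = ∫ z, G z := by
      rw [← integral_add_left_eq_self _ p]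
      refine integral_congr_ae (Eventually.of_forall fun z => ?_)
      simp only [hG, SmpS, add_sub_cancel_left]
    have e2 := Measure.integral_comp_smul (volume : Measure E) G (u n)
    have e3 : ∫ z, G z = (u n) ^ 3 * ∫ y, G (u n • y) := by
      rw [e2, finrank_euclideanSpace]
      simp only [Fintype.card_fin, smul_eq_mul]
      rw [abs_of_pos (by positivity)]
      field_simp
    rw [e1, e3, ← integral_const_mul]
    refine integral_congr_ae (Eventually.of_forall fun y => ?_)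
    simp only [hG, hw]
    have e4 : √(‖u n • y‖ ^ 2 + (u n) ^ 2) = u n * √(1 + ‖y‖ ^ 2) := by
      rw [norm_smul, Real.norm_eq_abs, abs_of_pos hn]
      have : (u n * ‖y‖) ^ 2 + (u n) ^ 2 = (u n) ^ 2 * (1 + ‖y‖ ^ 2) := by ring
      rw [this, Real.sqrt_mul (by positivity), Real.sqrt_sq hn.le]
    rw [e4]
    have h6 : 0 < √(1 + ‖y‖ ^ 2) := Real.sqrt_pos.2 (by positivity)
    field_simp
  rw [funext key]
  obtain ⟨M, hM⟩ := (isCompact_closedBall p R).exists_bound_of_continuousOn hf.continuousOn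
  have h0 : (0 : ℝ) = ∫ y : E, (0 : ℝ) := by simp
  rw [h0]
  have hwc : Measurable w := by
    have : Continuous w := by
      have h7 : ∀ y : E, √(1 + ‖y‖ ^ 2) ^ 5 ≠ 0 := fun y =>
        (pow_pos (Real.sqrt_pos.2 (by positivity)) 5).ne'
      exact Continuous.inv₀ (by fun_prop) h7
    exact this.measurable
  refine tendsto_integral_of_dominated_convergence (fun y => |M| * w y) ?_
    (hwi.const_mul _) ?_ ?_
  · intro n
    refine (Measurable.mul ?_ hwc).aestronglyMeasurable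
    refine (hf.measurable.indicator measurableSet_ball).comp ?_
    exact (by fun_prop : Continuous fun y : E => p + u n • y).measurable
  · intro n
    refine Eventually.of_forall fun y => ?_
    have hw0 : 0 ≤ w y := by simp only [hw]; positivity
    rw [norm_mul, Real.norm_of_nonneg hw0]
    refine mul_le_mul_of_nonneg_right ?_ hw0
    by_cases hy : p + u n • y ∈ ball p R
    · rw [Set.indicator_of_mem hy]
      exact (hM _ (ball_subset_closedBall hy)).trans (le_abs_self M)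
    · rw [Set.indicator_of_notMem hy, norm_zero]
      exact abs_nonneg M
  · refine Eventually.of_forall fun y => ?_
    have h1 : Tendsto (fun n => p + u n • y) atTop (𝓝 p) := by
      have : Tendsto (fun n => p + u n • y) atTop (𝓝 (p + (0 : ℝ) • y)) :=
        tendsto_const_nhds.add (hu0.smul_const y)
      simpa using this
    have h2 : Tendsto (fun n => f (p + u n • y)) atTop (𝓝 0) := by
      have := (hf.tendsto p).comp h1
      rw [hp] at this
      exact this
    have h3 : Tendsto (fun n => |f (p + u n • y)| * w y) atTop (𝓝 0) := by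
      have := h2.abs.mul_const (w y)
      simpa using this
    have hw0 : 0 ≤ w y := by simp only [hw]; positivity
    refine squeeze_zero_norm (fun n => ?_) h3
    rw [norm_mul, Real.norm_of_nonneg hw0]
    refine mul_le_mul_of_nonneg_right ?_ hw0
    by_cases hy : p + u n • y ∈ ball p R
    · rw [Set.indicator_of_mem hy, Real.norm_eq_abs]
    · rw [Set.indicator_of_notMem hy, norm_zero]
      exact abs_nonneg _

private theorem Smp_main {f : E → ℝ} (hf : Continuous f) {p : E} {ρ K : ℝ} (hK : 0 ≤ K)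
    (h0 : ∀ x ∈ ball p ρ, 0 ≤ f x)
    (h : ∀ ψ : E → ℝ, ContDiff ℝ 2 ψ → HasCompactSupport ψ → tsupport ψ ⊆ ball p ρ →
      ∫ x, f x * ((∑ i, pd (pd ψ i) i x) + K * ψ x) = 0) {R : ℝ} (hR : 0 < R) (hRρ : R < ρ)
    {x0 : E} {δ c : ℝ} (hδ : ∀ x ∈ ball x0 δ, c ≤ f x)
    {a : ℝ} (hc : 0 ≤ c) (ha : ∀ x ∈ ball x0 δ, a ≤ ‖x - p‖ ∧ ‖x - p‖ < R / 2)
    {ε : ℝ} (hε : 0 < ε) (hεa : ε ≤ a) (hεR : ε ≤ R / 4) :
    3 / 4 * c * (volume : Measure E).real (ball x0 δ) ≤
      12 * R ^ 3 * ∫ x, (ball p R).indicator f x * (ε ^ 2 / SmpS p ε x ^ 5) := by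
  have hψ2 : ContDiff ℝ 2 (SmpP p R ε) := by
    have hs2 : ContDiff ℝ 2 (SmpS p ε) := by
      exact_mod_cast contDiff_infty.1 (Smp_smooth hε p) 2
    unfold SmpP SmpF
    exact ContDiff.div (Smp_c2.comp (contDiff_const.sub hs2)) hs2 fun x => (Smp_pos hε p x).ne'
  have hout : ∀ x, x ∉ ball p R → SmpP p R ε x = 0 ∧ ∑ i, pd (pd (SmpP p R ε) i) i x = 0 := by
    intro x hx
    refine Smp_zero hε p x ?_
    rw [mem_ball, dist_eq_norm, not_lt] at hx
    exact hx.trans (Smp_ge ε p x)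
  have hψc : HasCompactSupport (SmpP p R ε) := by
    refine HasCompactSupport.intro (isCompact_closedBall p R) fun x hx => ?_
    exact (hout x fun hh => hx (ball_subset_closedBall hh)).1
  have hψs : tsupport (SmpP p R ε) ⊆ ball p ρ := by
    refine (closure_minimal ?_ isClosed_closedBall : tsupport (SmpP p R ε) ⊆ closedBall p R).trans
      (closedBall_subset_ball hRρ)
    intro x hx
    by_contra hne
    exact hx (hout x fun hh => hne (ball_subset_closedBall hh)).1
  have hint := h _ hψ2 hψc hψs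
  have hsc : Continuous (SmpS p ε) := (Smp_smooth hε p).continuous
  have hlapc : Continuous fun x => ∑ i, pd (pd (SmpP p R ε) i) i x := by
    rw [funext fun x => Smp_lap hε p x R]
    unfold SmpH SmpG
    have hne : ∀ x, SmpS p ε x ≠ 0 := fun x => (Smp_pos hε p x).ne'
    have hne2 : ∀ x, SmpS p ε x ^ 2 ≠ 0 := fun x => pow_ne_zero 2 (hne x)
    have hne3 : ∀ x, SmpS p ε x ^ 3 ≠ 0 := fun x => pow_ne_zero 3 (hne x)
    have hne4 : ∀ x, SmpS p ε x ^ 4 ≠ 0 := fun x => pow_ne_zero 4 (hne x)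
    fun_prop (disch := assumption)
  set L : E → ℝ := fun x => f x * ((∑ i, pd (pd (SmpP p R ε) i) i x) + K * SmpP p R ε x) with hL
  have hLi : Integrable L := by
    refine integrable_cc (hf.mul (hlapc.add (continuous_const.mul hψ2.continuous))) ?_
    refine HasCompactSupport.intro (isCompact_closedBall p R) fun x hx => ?_
    obtain ⟨g1, g2⟩ := hout x fun hh => hx (ball_subset_closedBall hh)
    simp only [hL, g1, g2]; ring
  set A : E → ℝ := (ball x0 δ).indicator (fun _ => 3 / 4 * c) with hA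
  have hAi : Integrable A := by
    refine (integrable_indicator_iff measurableSet_ball).2 ?_
    exact integrableOn_const measure_ball_lt_top.ne
  set B : E → ℝ := fun x => (ball p R).indicator f x * (ε ^ 2 / SmpS p ε x ^ 5) with hB
  have hBi : Integrable B := by
    have hB' : B = (ball p R).indicator (fun x => f x * (ε ^ 2 / SmpS p ε x ^ 5)) := by
      funext x
      simp only [hB]
      by_cases hx : x ∈ ball p R
      · rw [Set.indicator_of_mem hx, Set.indicator_of_mem hx]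
      · rw [Set.indicator_of_notMem hx, Set.indicator_of_notMem hx, zero_mul]
    rw [hB', integrable_indicator_iff measurableSet_ball]
    have hne5 : ∀ x, SmpS p ε x ^ 5 ≠ 0 := fun x => pow_ne_zero 5 (Smp_pos hε p x).ne'
    have hcc : Continuous fun x => f x * (ε ^ 2 / SmpS p ε x ^ 5) := by
      fun_prop (disch := assumption)
    exact (hcc.continuousOn.integrableOn_compact (isCompact_closedBall p R)).mono_set
      ball_subset_closedBall
  have hpt : ∀ x, A x - 12 * R ^ 3 * B x ≤ L x := by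
    intro x
    by_cases hx : x ∈ ball p R
    · have hfx : 0 ≤ f x := h0 x (ball_subset_ball hRρ.le hx)
      have hge := Smp_lap_ge hε hR p x
      have hs := Smp_pos hε p x
      have hP : 0 ≤ SmpP p R ε x := by
        unfold SmpP SmpF
        have : 0 ≤ max (R - SmpS p ε x) 0 := le_max_right _ _
        positivity
      have hBx : B x = f x * (ε ^ 2 / SmpS p ε x ^ 5) := by
        simp only [hB]; rw [Set.indicator_of_mem hx]
      have hstep : f x * (6 * max (R - SmpS p ε x) 0 * (‖x - p‖ ^ 2 / SmpS p ε x ^ 3)) -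
          12 * R ^ 3 * B x ≤ L x := by
        rw [hBx]
        have h1 := mul_le_mul_of_nonneg_left hge hfx
        have h2 : 0 ≤ f x * (K * SmpP p R ε x) := mul_nonneg hfx (mul_nonneg hK hP)
        simp only [hL]
        nlinarith
      refine le_trans ?_ hstep
      refine sub_le_sub_right ?_ _
      by_cases hx0 : x ∈ ball x0 δ
      · rw [hA, Set.indicator_of_mem hx0]
        obtain ⟨h3, h4⟩ := ha x hx0
        have h5 := Smp_le hε p x
        have hsq := Smp_sq ε p x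
        have h6 : R / 4 ≤ max (R - SmpS p ε x) 0 := le_max_of_le_left (by linarith)
        have ha0 : 0 < a := lt_of_lt_of_le hε hεa
        have h7 : SmpS p ε x ^ 2 ≤ 2 * ‖x - p‖ ^ 2 := by
          rw [hsq]
          nlinarith
        have h8 : 1 / (2 * R) ≤ ‖x - p‖ ^ 2 / SmpS p ε x ^ 3 := by
          rw [div_le_div_iff₀ (by positivity) (by positivity), one_mul]
          have h9 : SmpS p ε x ≤ R := by linarith
          calc SmpS p ε x ^ 3 = SmpS p ε x ^ 2 * SmpS p ε x := by ring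
            _ ≤ (2 * ‖x - p‖ ^ 2) * R := mul_le_mul h7 h9 hs.le (by positivity)
            _ = ‖x - p‖ ^ 2 * (2 * R) := by ring
        have h10 : 3 / 4 ≤ 6 * max (R - SmpS p ε x) 0 * (‖x - p‖ ^ 2 / SmpS p ε x ^ 3) := by
          calc (3 / 4 : ℝ) = 6 * (R / 4) * (1 / (2 * R)) := by field_simp; norm_num
            _ ≤ _ := mul_le_mul (by linarith) h8 (by positivity) (by positivity)
        calc 3 / 4 * c = c * (3 / 4) := by ring
          _ ≤ f x * (6 * max (R - SmpS p ε x) 0 * (‖x - p‖ ^ 2 / SmpS p ε x ^ 3)) :=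
              mul_le_mul (hδ x hx0) h10 (by norm_num) hfx
      · rw [hA, Set.indicator_of_notMem hx0]
        have : 0 ≤ max (R - SmpS p ε x) 0 := le_max_right _ _
        positivity
    · obtain ⟨g1, g2⟩ := hout x hx
      have hLx : L x = 0 := by simp only [hL, g1, g2]; ring
      have hBx : B x = 0 := by
        simp only [hB]; rw [Set.indicator_of_notMem hx, zero_mul]
      have hx0 : x ∉ ball x0 δ := by
        intro hh
        obtain ⟨-, h4⟩ := ha x hh
        apply hx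
        rw [mem_ball, dist_eq_norm]
        linarith
      have hAx : A x = 0 := by rw [hA, Set.indicator_of_notMem hx0]
      rw [hLx, hBx, hAx]; simp
  have hABi : Integrable (fun x => A x - 12 * R ^ 3 * B x) := hAi.sub (hBi.const_mul (12 * R ^ 3))
  have hfin := integral_mono hABi hLi hpt
  have hAint : ∫ x, A x = 3 / 4 * c * (volume : Measure E).real (ball x0 δ) := by
    rw [hA, integral_indicator measurableSet_ball, setIntegral_const, smul_eq_mul]
    ring
  have hsplit : ∫ x, (A x - 12 * R ^ 3 * B x) = (∫ x, A x) - 12 * R ^ 3 * ∫ x, B x := by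
    rw [← integral_const_mul]
    exact integral_sub hAi (hBi.const_mul (12 * R ^ 3))
  have hzero : ∫ x, L x = 0 := hint
  rw [hzero] at hfin
  have hfin' : (∫ x, A x) - 12 * R ^ 3 * ∫ x, B x ≤ 0 := by
    rw [← hsplit]; exact hfin
  rw [hAint] at hfin'
  linarith

theorem smp {f : E → ℝ} (hf : Continuous f) {p : E} {ρ K : ℝ} (hρ : 0 < ρ) (hK : 0 ≤ K)
    (h0 : ∀ x ∈ ball p ρ, 0 ≤ f x) (hp : f p = 0)
    (h : ∀ ψ : E → ℝ, ContDiff ℝ 2 ψ → HasCompactSupport ψ → tsupport ψ ⊆ ball p ρ →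
      ∫ x, f x * ((∑ i, pd (pd ψ i) i x) + K * ψ x) = 0) : ∀ᶠ x in 𝓝 p, f x = 0 := by
  have hR : 0 < ρ / 2 := by linarith
  set R := ρ / 2 with hRd
  have hball : ball p (R / 2) ∈ 𝓝 p := ball_mem_nhds p (by positivity)
  filter_upwards [hball] with x0 hx0
  rw [mem_ball, dist_eq_norm] at hx0
  by_cases hxp : x0 = p
  · rw [hxp, hp]
  have hpos : 0 < ‖x0 - p‖ := norm_pos_iff.2 (sub_ne_zero.2 hxp)
  by_contra hne
  have hfx : 0 < f x0 := by
    refine lt_of_le_of_ne (h0 x0 ?_) (Ne.symm hne)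
    rw [mem_ball, dist_eq_norm]
    linarith
  have hnear : ∀ᶠ x in 𝓝 x0, f x0 / 2 < f x :=
    (hf.tendsto x0).eventually (lt_mem_nhds (by linarith))
  obtain ⟨δ1, hδ1, hδf⟩ := Metric.eventually_nhds_iff_ball.1 hnear
  set a := ‖x0 - p‖ / 2 with had
  have ha0 : 0 < a := by positivity
  set δ := min δ1 (min a (R / 2 - ‖x0 - p‖)) with hδd
  have hδ : 0 < δ := lt_min hδ1 (lt_min ha0 (by linarith))
  have hgeo : ∀ x ∈ ball x0 δ, a ≤ ‖x - p‖ ∧ ‖x - p‖ < R / 2 := by
    intro x hx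
    rw [mem_ball, dist_eq_norm] at hx
    have h1 : δ ≤ a := (min_le_right _ _).trans (min_le_left _ _)
    have h2 : δ ≤ R / 2 - ‖x0 - p‖ := (min_le_right _ _).trans (min_le_right _ _)
    have e : x - p = (x - x0) + (x0 - p) := by abel
    have h3 : ‖x - p‖ ≤ ‖x - x0‖ + ‖x0 - p‖ := by rw [e]; exact norm_add_le _ _
    have h4 : ‖x0 - p‖ ≤ ‖x - p‖ + ‖x - x0‖ := by
      have e' : x0 - p = (x - p) - (x - x0) := by abel
      rw [e']; exact norm_sub_le _ _
    constructor
    · have : ‖x0 - p‖ = 2 * a := by rw [had]; ring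
      linarith
    · linarith
  have hcf : ∀ x ∈ ball x0 δ, f x0 / 2 ≤ f x := fun x hx =>
    (hδf x (ball_subset_ball (min_le_left _ _) hx)).le
  have hvol : 0 < (volume : Measure E).real (ball x0 δ) :=
    ENNReal.toReal_pos (measure_ball_pos volume x0 hδ).ne' measure_ball_lt_top.ne
  set e0 := min a (R / 4) with he0
  have he0p : 0 < e0 := lt_min ha0 (by positivity)
  have hu : ∀ n : ℕ, 0 < e0 * (1 / ((n : ℝ) + 1)) := fun n => by positivity
  have hu0 : Tendsto (fun n : ℕ => e0 * (1 / ((n : ℝ) + 1))) atTop (𝓝 0) := by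
    have := (tendsto_one_div_add_atTop_nhds_zero_nat (𝕜 := ℝ)).const_mul e0
    simpa using this
  have hlim := (Smp_tendsto hf (R := R) hp hu hu0).const_mul (12 * R ^ 3)
  rw [mul_zero] at hlim
  have hle : ∀ n : ℕ, 3 / 4 * (f x0 / 2) * (volume : Measure E).real (ball x0 δ) ≤
      12 * R ^ 3 * ∫ x, (ball p R).indicator f x *
        ((e0 * (1 / ((n : ℝ) + 1))) ^ 2 / SmpS p (e0 * (1 / ((n : ℝ) + 1))) x ^ 5) := by
    intro n
    have h1 : e0 * (1 / ((n : ℝ) + 1)) ≤ e0 := by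
      have : 1 / ((n : ℝ) + 1) ≤ 1 := by
        rw [div_le_one (by positivity)]
        linarith [Nat.cast_nonneg (α := ℝ) n]
      nlinarith
    exact Smp_main hf hK h0 h hR (by linarith) hcf (by linarith) hgeo (hu n)
      (h1.trans (min_le_left _ _)) (h1.trans (min_le_right _ _))
  have hcon := ge_of_tendsto' hlim hle
  have : 0 < 3 / 4 * (f x0 / 2) * (volume : Measure E).real (ball x0 δ) := by positivity
  linarith

end Pool.Agent.H68.SM
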