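import Pool.Agent.H68.SM.GrA
import Pool.Agent.H68.SM.Smp

/-!
# Module GrB (about 130 lines): the positive part vanishes near its zeros

PROOF. `e j ∈ {0, 1}` for `j ≠ 0`, `e 0 = -1`. Let `p ∈ D`, `p 0 > 0`, `pp w p = 0`, and `ρ > 0` with
`ball p ρ ⊆ D ∩ {x 0 > 0}`. There `pp w = max w 0 ≥ 0`. For `ψ` as in `smp` (support in `ball p ρ`) put
`ψ₀ = ψ - ψ ∘ rf 0`, and successively for `j = 1, 2` with `e j = 1`: `ψ_j = ψ_{j-1} + ψ_{j-1} ∘ rf j`. The
result `Ψ` is `C²`, has compact support in `D` (`hDe`) and is in `Cl e` (`rf_rf`, `rf_comm`), so by `grA`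
`∫ pp w * (ΔΨ + K Ψ) = 0`. Since `pp w ∈ Cl e` (check), `Δ (ψ ∘ rf j) = (Δψ) ∘ rf j` (chain rule; the
second derivative in direction `ee i` twice does not see the sign) and `measurePreserving_rf`,
the integral is `2^m ∫ pp w * (Δψ + K ψ)` with `m` = number of `j` with `e j ≠ 0`. So `smp` applies to
`f = pp w` (`continuous_pp`).
-/

set_option autoImplicit false

namespace Pool.Agent.H68.SM

open Filter Topology MeasureTheory Metric
open scoped ContDiff
open Pool.Agent.H68.SC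

private noncomputable def gbL (K : ℝ) (ψ : E → ℝ) (x : E) : ℝ := (∑ i, pd (pd ψ i) i x) + K * ψ x

private noncomputable def gbs (i j : Fin 3) : ℝ := if i = j then -1 else 1

private theorem gbs_sq (i j : Fin 3) : gbs i j * gbs i j = 1 := by
  unfold gbs; split_ifs <;> norm_num

private theorem gb_rf_ee (i j : Fin 3) : rf j (ee i) = gbs i j • ee i := by
  ext l
  rw [rf_apply, PiLp.smul_apply, smul_eq_mul, ee_apply]
  unfold gbs
  by_cases h1 : l = j <;> by_cases h2 : i = j <;> by_cases h3 : l = i <;>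
    simp_all

private theorem gb_pd1 {ψ : E → ℝ} (h : ContDiff ℝ 2 ψ) (i : Fin 3) : ContDiff ℝ 1 (pd ψ i) := by
  have h1 : ContDiff ℝ 1 (fderiv ℝ ψ) := h.fderiv_right (m := 1) (by norm_num)
  exact h1.clm_apply contDiff_const

private theorem gb_pd_rf {ψ : E → ℝ} (h : Differentiable ℝ ψ) (i j : Fin 3) (x : E) :
    pd (fun x => ψ (rf j x)) i x = gbs i j * pd ψ i (rf j x) := by
  have h1 : HasFDerivAt (fun y => rf j y) ((rfI j).toContinuousLinearEquiv : E →L[ℝ] E) x :=
    (rfI j).toContinuousLinearEquiv.hasFDerivAt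
  have h2 : HasFDerivAt (fun y => ψ (rf j y)) _ x := (h (rf j x)).hasFDerivAt.comp x h1
  unfold pd
  rw [h2.fderiv]
  change fderiv ℝ ψ (rf j x) (rf j (ee i)) = _
  rw [gb_rf_ee, map_smul, smul_eq_mul]

private theorem gb_pd2_rf {ψ : E → ℝ} (h : ContDiff ℝ 2 ψ) (i j : Fin 3) (x : E) :
    pd (pd (fun x => ψ (rf j x)) i) i x = pd (pd ψ i) i (rf j x) := by
  have h1 : pd (fun x => ψ (rf j x)) i = fun x => gbs i j * pd ψ i (rf j x) := by
    funext y
    exact gb_pd_rf (h.differentiable two_ne_zero) i j y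
  have h2 : Differentiable ℝ (pd ψ i) := (gb_pd1 h i).differentiable one_ne_zero
  have h3 : DifferentiableAt ℝ (fun x => pd ψ i (rf j x)) x :=
    ((h2 (rf j x)).comp x (rfI j).toContinuousLinearEquiv.differentiableAt)
  rw [h1, pd_const_mul _ h3, gb_pd_rf h2, ← mul_assoc, gbs_sq, one_mul]

private theorem gbL_rf {ψ : E → ℝ} (h : ContDiff ℝ 2 ψ) (K : ℝ) (j : Fin 3) (x : E) :
    gbL K (fun x => ψ (rf j x)) x = gbL K ψ (rf j x) := by
  unfold gbL
  congr 1
  exact Finset.sum_congr rfl fun i _ => gb_pd2_rf h i j x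

private theorem gb_pd_lin {ψ φ : E → ℝ} (h : Differentiable ℝ ψ) (h' : Differentiable ℝ φ) (s : ℝ)
    (i : Fin 3) : pd (fun x => ψ x + s * φ x) i = fun x => pd ψ i x + s * pd φ i x := by
  funext x
  rw [pd_add (h x) ((h' x).const_mul s), pd_const_mul s (h' x)]

private theorem gbL_lin {ψ φ : E → ℝ} (h : ContDiff ℝ 2 ψ) (h' : ContDiff ℝ 2 φ) (K s : ℝ)
    (x : E) : gbL K (fun x => ψ x + s * φ x) x = gbL K ψ x + s * gbL K φ x := by
  unfold gbL
  have h1 : ∀ i, pd (pd (fun x => ψ x + s * φ x) i) i x =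
      pd (pd ψ i) i x + s * pd (pd φ i) i x := by
    intro i
    rw [gb_pd_lin (h.differentiable two_ne_zero) (h'.differentiable two_ne_zero),
      gb_pd_lin ((gb_pd1 h i).differentiable one_ne_zero)
        ((gb_pd1 h' i).differentiable one_ne_zero)]
  rw [Finset.sum_congr rfl fun i _ => h1 i, Finset.sum_add_distrib, ← Finset.mul_sum]
  ring

private theorem gbL_cont {ψ : E → ℝ} (h : ContDiff ℝ 2 ψ) (K : ℝ) : Continuous (gbL K ψ) := by
  unfold gbL
  exact (continuous_finsetSum _ fun i _ => continuous_pd (gb_pd1 h i) i).add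
    (continuous_const.mul h.continuous)

private theorem gbL_supp {ψ : E → ℝ} (h : HasCompactSupport ψ) (K : ℝ) :
    HasCompactSupport (gbL K ψ) := by
  refine HasCompactSupport.intro h fun x hx => ?_
  have h1 : ψ =ᶠ[𝓝 x] fun _ => 0 := notMem_tsupport_iff_eventuallyEq.1 hx
  unfold gbL
  have h2 : ∀ i, pd (pd ψ i) i x = 0 := by
    intro i
    have h3 : pd ψ i =ᶠ[𝓝 x] fun _ => 0 := by
      filter_upwards [(isClosed_tsupport ψ).isOpen_compl.mem_nhds hx] with y hy
      exact pd_zero_of hy i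
    rw [pd_congr h3]
    unfold pd
    simp
  rw [h1.eq_of_nhds, mul_zero, add_zero]
  exact Finset.sum_eq_zero fun i _ => h2 i

private theorem gb_int {g ψ : E → ℝ} (hg : Continuous g) (h : ContDiff ℝ 2 ψ)
    (h' : HasCompactSupport ψ) (K : ℝ) : Integrable (fun x => g x * gbL K ψ x) :=
  integrable_cc (hg.mul (gbL_cont h K)) (HasCompactSupport.mul_left (gbL_supp h' K))

private theorem gb_comp (F : E → ℝ) (j : Fin 3) : ∫ x, F (rf j x) = ∫ x, F x := by
  have h : MeasurableEmbedding (rf j) := (rfI j).toHomeomorph.measurableEmbedding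
  exact (measurePreserving_rf j).integral_comp h F

private theorem gb_rf2 {ψ : E → ℝ} (h : ContDiff ℝ 2 ψ) (j : Fin 3) :
    ContDiff ℝ 2 (fun x => ψ (rf j x)) := by
  have h1 : ContDiff ℝ 2 (fun x => rf j x) := (rfI j).toContinuousLinearEquiv.contDiff
  exact h.comp h1

private theorem gb_rfc {ψ : E → ℝ} (h : HasCompactSupport ψ) (j : Fin 3) :
    HasCompactSupport (fun x => ψ (rf j x)) :=
  h.comp_homeomorph (rfI j).toHomeomorph

private theorem gb_two {g ψ : E → ℝ} (hg : Continuous g) (h : ContDiff ℝ 2 ψ)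
    (h' : HasCompactSupport ψ) (K : ℝ) (j : Fin 3) (s : ℝ) (_hs : s * s = 1)
    (hgs : ∀ x, g (rf j x) = s * g x) :
    ∫ x, g x * gbL K (fun x => ψ x + s * ψ (rf j x)) x = 2 * ∫ x, g x * gbL K ψ x := by
  have h1 : ∀ x, g x * gbL K (fun x => ψ x + s * ψ (rf j x)) x =
      g x * gbL K ψ x + g (rf j x) * gbL K ψ (rf j x) := by
    intro x
    rw [gbL_lin h (gb_rf2 h j), gbL_rf h, hgs]
    ring
  rw [integral_congr_ae (Eventually.of_forall h1), integral_add (gb_int hg h h' K)]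
  · rw [gb_comp (fun x => g x * gbL K ψ x) j]
    ring
  · have h2 := gb_int hg (gb_rf2 h j) (gb_rfc h' j) K
    have h3 := h2.const_mul s
    refine h3.congr (Eventually.of_forall fun x => ?_)
    simp only
    rw [gbL_rf h, hgs]
    ring

private theorem gb_step {D : Set E} {e : Fin 3 → ℝ} {g : E → ℝ} (hg : Continuous g) (K : ℝ)
    (he : ∀ j, e j = 0 ∨ e j * e j = 1)
    (hDe : ∀ j, e j ≠ 0 → ∀ x ∈ D, rf j x ∈ D) (hge : ∀ j, e j ≠ 0 → ∀ x, g (rf j x) = e j * g x)
    (j : Fin 3) {ψ : E → ℝ} (h1 : ContDiff ℝ 2 ψ) (h2 : HasCompactSupport ψ)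
    (h3 : tsupport ψ ⊆ D) : ∃ Ψ : E → ℝ, ContDiff ℝ 2 Ψ ∧ HasCompactSupport Ψ ∧ tsupport Ψ ⊆ D ∧
      (e j ≠ 0 → ∀ x, Ψ (rf j x) = e j * Ψ x) ∧
      (∀ j', (e j' ≠ 0 → ∀ x, ψ (rf j' x) = e j' * ψ x) →
        (e j' ≠ 0 → ∀ x, Ψ (rf j' x) = e j' * Ψ x)) ∧
      ∃ c : ℝ, c ≠ 0 ∧ ∫ x, g x * gbL K Ψ x = c * ∫ x, g x * gbL K ψ x := by
  by_cases hj : e j = 0
  · exact ⟨ψ, h1, h2, h3, fun h => absurd hj h, fun j' h => h, 1, one_ne_zero, (one_mul _).symm⟩
  have hs : e j * e j = 1 := (he j).resolve_left hj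
  refine ⟨fun x => ψ x + e j * ψ (rf j x), h1.add (contDiff_const.mul (gb_rf2 h1 j)),
    h2.add (HasCompactSupport.mul_left (gb_rfc h2 j)), ?_, ?_, ?_, 2, two_ne_zero,
    gb_two hg h1 h2 K j (e j) hs (hge j hj)⟩
  · refine (tsupport_add _ _).trans (Set.union_subset h3 ?_)
    have h4 : tsupport (fun x => e j * ψ (rf j x)) ⊆ rf j ⁻¹' tsupport ψ := by
      refine closure_minimal ?_ ((isClosed_tsupport ψ).preimage
        ((rfI j).toHomeomorph.continuous))
      intro x hx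
      refine subset_tsupport ψ ?_
      intro h5
      exact hx (by simp only; rw [h5, mul_zero])
    intro x hx
    have h5 := hDe j hj _ (h3 (h4 hx))
    rwa [rf_rf] at h5
  · intro _ x
    simp only
    rw [rf_rf]
    linear_combination (-(ψ (rf j x))) * hs
  · intro j' h hj' x
    simp only
    rw [rf_comm j j', h hj', h hj']
    ring

private theorem gb_pp {e : Fin 3 → ℝ} (he0 : e 0 = -1) (he : ∀ j, j ≠ 0 → e j = 0 ∨ e j = 1)
    {w : E → ℝ} (hwe : w ∈ Cl e) (j : Fin 3) (hj : e j ≠ 0) (x : E) :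
    pp w (rf j x) = e j * pp w x := by
  have h1 : w (rf j x) = e j * w x := hwe j hj x
  unfold pp
  rw [h1]
  by_cases h0 : j = 0
  · subst h0
    rw [he0, rf_apply, if_pos rfl]
    rcases lt_trichotomy (x 0) 0 with h | h | h
    · rw [if_pos (by linarith), if_neg (by linarith)]
      rcases le_total (w x) 0 with hw | hw
      · rw [max_eq_left (by linarith), min_eq_left hw]
      · rw [max_eq_right (by linarith), min_eq_right hw]; ring
    · have h2 : rf 0 x = x := by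
        ext i
        rw [rf_apply]
        split_ifs with hi
        · rw [hi, h, neg_zero]
        · rfl
      have h3 : w x = 0 := by
        have h4 : w (rf 0 x) = -1 * w x := by rw [h1, he0]
        rw [h2] at h4
        linarith
      rw [h3]
      simp
    · rw [if_neg (by linarith), if_pos h.le]
      rcases le_total (w x) 0 with hw | hw
      · rw [min_eq_right (by linarith), max_eq_right hw]; ring
      · rw [min_eq_left (by linarith), max_eq_left hw]
  · have h2 : e j = 1 := (he j h0).resolve_left hj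
    have h3 : (rf j x) 0 = x 0 := by rw [rf_apply, if_neg (Ne.symm h0)]
    rw [h2, h3, one_mul, one_mul]

theorem grB {D : Set E} (hD : IsOpen D) (hb : Bornology.IsBounded D) {K : ℝ} (hK : 0 < K)
    {e : Fin 3 → ℝ} (he0 : e 0 = -1) (he : ∀ j, j ≠ 0 → e j = 0 ∨ e j = 1)
    (hDe : ∀ j, e j ≠ 0 → ∀ x ∈ D, rf j x ∈ D) {w : E → ℝ} (hw : Eigf D K w) (hwe : w ∈ Cl e)
    (hpos : ∀ f ∈ C1c D ⊓ Cl e, 0 ≤ BB K f f) {p : E} (hp : p ∈ D) (hp0 : 0 < p 0)
    (hz : pp w p = 0) : ∀ᶠ x in 𝓝 p, pp w x = 0 := by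
  have hw0 : ∀ x, w (rf 0 x) = -w x := by
    intro x
    have h1 : w (rf 0 x) = e 0 * w x := hwe 0 (by rw [he0]; norm_num) x
    rw [h1, he0]; ring
  have hc : Continuous (pp w) := continuous_pp hw.cont hw0
  have hU : IsOpen (D ∩ {x : E | 0 < x 0}) :=
    hD.inter (isOpen_lt continuous_const (by fun_prop))
  obtain ⟨ρ, hρ, hsub⟩ := Metric.isOpen_iff.1 hU p ⟨hp, hp0⟩
  refine smp hc hρ hK.le ?_ hz ?_
  · intro x hx
    have h1 : 0 < x 0 := (hsub hx).2
    unfold pp
    rw [if_pos h1.le]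
    exact le_max_right _ _
  intro ψ h1 h2 h3
  have h3' : tsupport ψ ⊆ D := fun x hx => (hsub (h3 hx)).1
  have he' : ∀ j, e j = 0 ∨ e j * e j = 1 := by
    intro j
    by_cases h0 : j = 0
    · right; rw [h0, he0]; norm_num
    · rcases he j h0 with h | h
      · exact Or.inl h
      · right; rw [h]; norm_num
  have hge := gb_pp he0 he hwe
  obtain ⟨ψ0, a1, a2, a3, a4, -, c0, hc0, a6⟩ := gb_step hc K he' hDe hge 0 h1 h2 h3'
  obtain ⟨ψ1, b1, b2, b3, b4, b5, c1, hc1, b6⟩ := gb_step hc K he' hDe hge 1 a1 a2 a3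
  obtain ⟨ψ2, d1, d2, d3, d4, d5, c2, hc2, d6⟩ := gb_step hc K he' hDe hge 2 b1 b2 b3
  have hcl : ψ2 ∈ Cl e := by
    intro j
    fin_cases j
    · exact d5 0 (b5 0 a4)
    · exact d5 1 b4
    · exact d4
  have hmain := grA hD hb hK he0 he hDe hw hwe hpos d1 d2 d3 hcl
  have hmain' : ∫ x, pp w x * gbL K ψ2 x = 0 := hmain
  rw [d6, b6, a6] at hmain'
  have h5 : ∫ x, pp w x * gbL K ψ x = 0 := by
    rcases mul_eq_zero.1 hmain' with h | h
    · exact absurd h hc2
    rcases mul_eq_zero.1 h with h | h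
    · exact absurd h hc1
    rcases mul_eq_zero.1 h with h | h
    · exact absurd h hc0
    exact h
  exact h5

end Pool.Agent.H68.SM
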