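import Pool.Agent.H68.SC.TT2
import Pool.Agent.H68.SC.Mom
import Pool.Agent.H68.SC.Dense
import Pool.Agent.H68.SC.Quad

/-!
# Module UC1 (about 230 lines): unique continuation inside a ball

PROOF. Translate to `q = 0` (`w' x = w (x + q)` satisfies `Eigf` for the translated set; or do
everything with `w (q + r • y)`). Let `0 < ρ' < ρ`; it is enough to show `w = 0` on `ball 0 ρ'`. Let
`χ ∈ C1c D` with `χ = 1` near `closedBall 0 ρ'` (a smooth bump function) and `g = χ w ∈ C1c D`
(`mul_mem`), so `g ∈ C¹(E)`, `g = w` near `closedBall 0 ρ'`. Let `H : Harm` (`exists_harm`), `f = mom H g l i`, `f' = dmom H g l i`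
(continuous, `mom_deriv`). `f = 0` on `[0, r₀]` for some `r₀ > 0`.
(i) Weak equation: for `ζ : ℝ → ℝ` `C¹` with compact support in `(0, ρ')`, `hw.weak` with
`ψ = TT ζ (H.Y l i) ∈ C1c (ball 0 ρ')` (`TT_mem`), polar coordinates (`polarR`), `lagrange`, `TT_rad`,
`TT_tan`, `LL_ibp`, `H.eig` give `∫ r in 0..ρ', (r² f' ζ' + (l (l+1) - K r²) f ζ) = 0` (as in module TT2, with
`g` in place of one of the test functions: `∑ a ∫ LL a g (r y) LL a Y (y) = l (l+1) ∫ g (r y) Y y`
by `LL_scale`, `LL_ibp`).
(ii) Let `Q r = ∫ s in 0..r, (l (l+1) - K s²) f s`. Integrating by parts, `∫ (r² f' - Q) ζ' = 0` for all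
such `ζ`, so `r² f' - Q` is constant on `(0, ρ')` (test with `ζ' =` any continuous function of
compact support and mean zero), and it is `0` near `0`. So `r² |f'| ≤ C ∫ s in 0..r, |f s|`, and with
`f = 0` on `[0, r₀]` Gronwall (`norm_le_gronwallBound...`, or: on `[r₀, ρ']`,
`|f r| ≤ C' ∫_{r₀}^r sup_{[r₀, s]} |f|`) gives `f = 0` on `[0, ρ')`.
(iii) All moments of `g` on the sphere of radius `r < ρ'` vanish; by `H.complete` (`∫ h² = ∫ h (h - P) ≤ ε ∫ |h|`
for `h y = g (r • y)`) and `sg_zero`, `g (r • y) = 0`.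
-/

set_option autoImplicit false

namespace Pool.Agent.H68.SM

open Filter Topology MeasureTheory Metric
open scoped ContDiff
open Pool.Agent.H68.SC

private theorem UC1_int {f : E → ℝ} (hf : Continuous f) : Integrable (fun y : S2 => f y) sg :=
  (hf.comp continuous_subtype_val).integrable_of_hasCompactSupport
    (HasCompactSupport.of_compactSpace _)

private theorem UC1_LLc {Y : E → ℝ} (hY : ContDiff ℝ 1 Y) (a : Fin 3) : Continuous (LL a Y) :=
  (hY.continuous_fderiv one_ne_zero).clm_apply (contDiff_crs (ee a)).continuous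

private theorem UC1_LLs {Y : E → ℝ} (hY : ContDiff ℝ ∞ Y) (a : Fin 3) :
    ContDiff ℝ ∞ (LL a Y) := by
  have h1 : ContDiff ℝ ∞ (fderiv ℝ Y) := hY.fderiv_right (m := ∞) (by simp)
  exact h1.clm_apply (contDiff_crs (ee a))

private theorem UC1_tan (H : Harm) {G : E → ℝ} (hG : ContDiff ℝ 1 G) (l : ℕ) (i : Fin (H.d l)) :
    ∫ y : S2, (∑ a, LL a G y * LL a (H.Y l i) y) ∂sg =
      ((l : ℝ) * (l + 1)) * ∫ y : S2, G y * H.Y l i y ∂sg := by
  have hq := H.smooth l i
  have hi : ∀ a ∈ (Finset.univ : Finset (Fin 3)),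
      Integrable (fun y : S2 => LL a G y * LL a (H.Y l i) y) sg := by
    intro a _
    exact UC1_int (f := fun y => LL a G y * LL a (H.Y l i) y)
      ((UC1_LLc hG a).mul (UC1_LLs hq a).continuous)
  rw [integral_finsetSum _ hi]
  have h1 : ∀ a : Fin 3, ∫ y : S2, LL a G y * LL a (H.Y l i) y ∂sg =
      -∫ y : S2, G y * LL a (LL a (H.Y l i)) y ∂sg := fun a =>
    LL_ibp hG ((UC1_LLs hq a).of_le (by exact_mod_cast le_top)) a
  have hi2 : ∀ a ∈ (Finset.univ : Finset (Fin 3)),
      Integrable (fun y : S2 => G y * LL a (LL a (H.Y l i)) y) sg := by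
    intro a _
    exact UC1_int (f := fun y => G y * LL a (LL a (H.Y l i)) y)
      (hG.continuous.mul (UC1_LLs (UC1_LLs hq a) a).continuous)
  rw [Finset.sum_congr rfl fun a _ => h1 a, Finset.sum_neg_distrib, ← integral_finsetSum _ hi2,
    ← integral_const_mul, ← integral_neg]
  refine integral_congr_ae (Eventually.of_forall fun y => ?_)
  have hy : ‖(y : E)‖ = 1 := by simp
  have h2 := H.eig l i y hy
  simp only
  rw [← Finset.mul_sum, h2]
  ring

private theorem UC1_sphere (H : Harm) {g : E → ℝ} (hg : ContDiff ℝ 1 g) {ζ : ℝ → ℝ}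
    (h1 : ContDiff ℝ 1 ζ) (K : ℝ) (l : ℕ) (i : Fin (H.d l)) {ρ : ℝ} (hρ : 0 < ρ) :
    ρ ^ 2 * ∫ y : S2, (gg g (TT ζ (H.Y l i)) (ρ • (y : E)) -
      K * (g (ρ • (y : E)) * TT ζ (H.Y l i) (ρ • (y : E)))) ∂sg =
    ρ ^ 2 * (dmom H g l i ρ * deriv ζ ρ) +
      ((l : ℝ) * (l + 1) - K * ρ ^ 2) * (mom H g l i ρ * ζ ρ) := by
  have hq := H.smooth l i
  set G : E → ℝ := fun z => g (ρ • z) with hGd
  have hG : ContDiff ℝ 1 G := hg.comp (by fun_prop : ContDiff ℝ 1 fun z : E => ρ • z)
  have key : ∀ y : S2, ρ ^ 2 * (gg g (TT ζ (H.Y l i)) (ρ • (y : E)) -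
      K * (g (ρ • (y : E)) * TT ζ (H.Y l i) (ρ • (y : E)))) =
      (ρ ^ 2 * deriv ζ ρ) * (fderiv ℝ g (ρ • (y : E)) (y : E) * H.Y l i y) +
      (-(K * ρ ^ 2 * ζ ρ)) * (g (ρ • (y : E)) * H.Y l i y) +
      ζ ρ * ∑ a, LL a G y * LL a (H.Y l i) y := by
    intro y
    have hy : ‖(y : E)‖ = 1 := by simp
    have hL := lagrange g (TT ζ (H.Y l i)) (ρ • (y : E))
    have hn : ‖ρ • (y : E)‖ = ρ := by
      rw [norm_smul, hy, mul_one, Real.norm_eq_abs, abs_of_pos hρ]
    rw [hn, map_smul, map_smul, TT_rad h1 hq hρ hy] at hL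
    rw [mul_sub, hL, TT_val ζ _ hρ hy]
    have e : ∑ a, LL a g (ρ • (y : E)) * LL a (TT ζ (H.Y l i)) (ρ • (y : E)) =
        ζ ρ * ∑ a, LL a G y * LL a (H.Y l i) y := by
      rw [Finset.mul_sum]
      refine Finset.sum_congr rfl fun a _ => ?_
      rw [TT_tan h1 hq a hρ hy, ← LL_scale hg a ρ y]
      ring
    rw [e]
    simp only [smul_eq_mul]
    ring
  rw [← integral_const_mul, integral_congr_ae (Eventually.of_forall key)]
  have i1 : Integrable (fun y : S2 => (ρ ^ 2 * deriv ζ ρ) *
      (fderiv ℝ g (ρ • (y : E)) (y : E) * H.Y l i y)) sg := by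
    refine (UC1_int (f := fun y : E => fderiv ℝ g (ρ • y) y * H.Y l i y) ?_).const_mul _
    exact (((hg.continuous_fderiv one_ne_zero).comp
      (by fun_prop : Continuous fun z : E => ρ • z)).clm_apply continuous_id).mul hq.continuous
  have i2 : Integrable (fun y : S2 => (-(K * ρ ^ 2 * ζ ρ)) *
      (g (ρ • (y : E)) * H.Y l i y)) sg :=
    (UC1_int (f := fun y : E => G y * H.Y l i y) (hG.continuous.mul hq.continuous)).const_mul _
  have i3 : Integrable (fun y : S2 => ζ ρ * ∑ a, LL a G y * LL a (H.Y l i) y) sg :=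
    (UC1_int (f := fun y => ∑ a, LL a G y * LL a (H.Y l i) y)
      (continuous_finsetSum _ fun a _ =>
        (UC1_LLc hG a).mul (UC1_LLs hq a).continuous)).const_mul _
  have i12 : Integrable (fun y : S2 => (ρ ^ 2 * deriv ζ ρ) *
      (fderiv ℝ g (ρ • (y : E)) (y : E) * H.Y l i y) + (-(K * ρ ^ 2 * ζ ρ)) *
      (g (ρ • (y : E)) * H.Y l i y)) sg := i1.add i2
  rw [integral_add i12 i3, integral_add i1 i2, integral_const_mul, integral_const_mul,
    integral_const_mul, UC1_tan H hG l i]
  unfold dmom mom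
  simp only [hGd]
  ring

private theorem UC1_weak {D : Set E} {K : ℝ} {w : E → ℝ} (hw : Eigf D K w)
    {R : ℝ} (hR : 0 < R) (hD : ball (0 : E) R ⊆ D) {g : E → ℝ} (hg : ContDiff ℝ 1 g)
    (hgw : ∀ x ∈ ball (0 : E) R, g =ᶠ[𝓝 x] w) (H : Harm) (l : ℕ) (i : Fin (H.d l))
    {ζ : ℝ → ℝ} (h1 : ContDiff ℝ 1 ζ) (h2 : HasCompactSupport ζ)
    (h3 : tsupport ζ ⊆ Set.Ioo 0 R) :
    ∫ r in (0 : ℝ)..R, (r ^ 2 * (dmom H g l i r * deriv ζ r) +
      ((l : ℝ) * (l + 1) - K * r ^ 2) * (mom H g l i r * ζ r)) = 0 := by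
  set ψ := TT ζ (H.Y l i) with hψd
  have hψ : ψ ∈ C1c (ball (0 : E) R) := TT_mem h1 h2 h3 (H.smooth l i)
  have hout : ∀ x : E, R ≤ ‖x‖ → x ∉ tsupport ψ := by
    intro x hx hh
    have h4 := C1c.sub hψ hh
    rw [mem_ball_zero_iff] at h4
    linarith
  have hweak := hw.weak ψ (C1c_mono hD hψ)
  have e1 : ∀ x, gg w ψ x - K * (w x * ψ x) = gg g ψ x - K * (g x * ψ x) := by
    intro x
    by_cases hx : x ∈ ball (0 : E) R
    · have h4 := hgw x hx
      have h5 : ∀ j, pd g j x = pd w j x := fun j => pd_congr h4 j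
      have h6 : g x = w x := h4.eq_of_nhds
      rw [h6]
      congr 1
      unfold gg
      exact Finset.sum_congr rfl fun j _ => by rw [h5 j]
    · have hx' : R ≤ ‖x‖ := by
        rw [mem_ball_zero_iff, not_lt] at hx; exact hx
      have h4 := hout x hx'
      have h5 : ψ x = 0 := zero_of h4
      have h6 : ∀ j, pd ψ j x = 0 := fun j => pd_zero_of h4 j
      unfold gg
      simp only [h5, h6, mul_zero]
  rw [integral_congr_ae (Eventually.of_forall e1)] at hweak
  have hc : Continuous fun x => gg g ψ x - K * (g x * ψ x) :=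
    (continuous_gg hg (C1c.contDiff hψ)).sub
      (continuous_const.mul (hg.continuous.mul (C1c.cont hψ)))
  have h0 : ∀ x : E, R ≤ ‖x‖ → gg g ψ x - K * (g x * ψ x) = 0 := by
    intro x hx
    have h4 := hout x hx
    have h5 : ψ x = 0 := zero_of h4
    have h6 : ∀ j, pd ψ j x = 0 := fun j => pd_zero_of h4 j
    unfold gg
    simp [h5, h6]
  rw [polarR hc hR.le h0, intervalIntegral.integral_of_le hR.le] at hweak
  rw [intervalIntegral.integral_of_le hR.le]
  refine Eq.trans ?_ hweak
  refine setIntegral_congr_fun measurableSet_Ioc fun r hr => ?_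
  exact (UC1_sphere H hg h1 K l i hr.1).symm

/-- the one-dimensional part: weak solutions which vanish near zero vanish -/
private theorem UC1_ode {f f' c : ℝ → ℝ} (hf : ∀ r, HasDerivAt f (f' r) r) (hf' : Continuous f')
    (hc : Continuous c) {R r0 : ℝ} (hr0 : 0 < r0) (hrR : r0 < R)
    (hz : ∀ r ∈ Set.Icc 0 r0, f r = 0)
    (hw : ∀ ζ : ℝ → ℝ, ContDiff ℝ 1 ζ → HasCompactSupport ζ → tsupport ζ ⊆ Set.Ioo 0 R →
      ∫ r in (0 : ℝ)..R, (r ^ 2 * (f' r * deriv ζ r) + c r * (f r * ζ r)) = 0) :
    ∀ r ∈ Set.Ico 0 R, f r = 0 := by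
  have hR : 0 < R := hr0.trans hrR
  have hfc : Continuous f := continuous_iff_continuousAt.2 fun r => (hf r).continuousAt
  have hz' : ∀ r ∈ Set.Ioo 0 r0, f' r = 0 := by
    intro r hr
    have h1 : f =ᶠ[𝓝 r] fun _ => 0 := by
      have hn : Set.Ioo (0 : ℝ) r0 ∈ 𝓝 r := isOpen_Ioo.mem_nhds hr
      filter_upwards [hn] with y hy
      exact hz y ⟨hy.1.le, hy.2.le⟩
    have h2 : HasDerivAt f 0 r := (hasDerivAt_const r (0 : ℝ)).congr_of_eventuallyEq h1
    exact (hf r).unique h2
  set Q : ℝ → ℝ := fun r => ∫ s in (0 : ℝ)..r, c s * f s with hQd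
  have hcf : Continuous fun s => c s * f s := hc.mul hfc
  have hQ : ∀ r, HasDerivAt Q (c r * f r) r := fun r =>
    intervalIntegral.integral_hasDerivAt_right (hcf.intervalIntegrable _ _)
      hcf.aestronglyMeasurable.stronglyMeasurableAtFilter hcf.continuousAt
  have hQc : Continuous Q := continuous_iff_continuousAt.2 fun r => (hQ r).continuousAt
  have hQ0 : Q 0 = 0 := by simp [hQd]
  have hQz : ∀ r ∈ Set.Icc 0 r0, Q r = 0 := by
    intro r hr
    simp only [hQd]
    rw [intervalIntegral.integral_of_le hr.1]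
    rw [setIntegral_congr_fun (g := fun _ => (0 : ℝ)) measurableSet_Ioc]
    · simp
    · intro s hs
      simp only
      rw [hz s ⟨hs.1.le, hs.2.trans hr.2⟩, mul_zero]
  set P : ℝ → ℝ := fun r => r ^ 2 * f' r - Q r with hPd
  have hPc : Continuous P := ((continuous_pow 2).mul hf').sub hQc
  -- the equation
  have hP : ∀ r1 ∈ Set.Ioo r0 R, P r1 = 0 := by
    intro r1 hr1
    obtain ⟨δ, hδ0, hδ1, hδ2⟩ : ∃ δ : ℝ, 0 < δ ∧ r0 < r1 - δ ∧ r1 + δ < R :=
      ⟨min (r1 - r0) (R - r1) / 2, by
        have : 0 < min (r1 - r0) (R - r1) := lt_min (by linarith [hr1.1]) (by linarith [hr1.2])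
        linarith, by
        have h1 := min_le_left (r1 - r0) (R - r1)
        linarith [hr1.1], by
        have h1 := min_le_right (r1 - r0) (R - r1)
        linarith [hr1.2]⟩
    let β : ContDiffBump r1 := ⟨δ / 2, δ, by linarith, by linarith⟩
    have hβc : Continuous β := β.continuous
    have hβz : ∀ r, r1 + δ ≤ r → β r = 0 := fun r hr => by
      refine β.zero_of_le_dist ?_
      rw [Real.dist_eq, abs_of_nonneg (by linarith)]
      change δ ≤ _
      linarith
    have hβz' : ∀ r, r ≤ r1 - δ → β r = 0 := fun r hr => by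
      refine β.zero_of_le_dist ?_
      rw [Real.dist_eq, abs_of_nonpos (by linarith)]
      change δ ≤ _
      linarith
    have hPβ : Continuous fun s => P s * β s := hPc.mul hβc
    set Z : ℝ → ℝ := fun r => ∫ s in R..r, P s * β s with hZd
    have hZ : ∀ r, HasDerivAt Z (P r * β r) r := fun r =>
      intervalIntegral.integral_hasDerivAt_right (hPβ.intervalIntegrable _ _)
        hPβ.aestronglyMeasurable.stronglyMeasurableAtFilter hPβ.continuousAt
    have hZc : Continuous Z := continuous_iff_continuousAt.2 fun r => (hZ r).continuousAt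
    have hZR : Z R = 0 := by simp [hZd]
    have hZz : ∀ r, r1 + δ ≤ r → Z r = 0 := by
      intro r hr
      simp only [hZd]
      rw [intervalIntegral.integral_congr (g := fun _ => (0 : ℝ))]
      · simp
      · intro s hs
        have h4 : r1 + δ ≤ s := by
          have := hs.1
          rcases le_total R r with hh | hh
          · rw [min_eq_left hh] at this; linarith
          · rw [min_eq_right hh] at this; linarith
        simp only
        rw [hβz s h4, mul_zero]
    have hZ1 : ContDiff ℝ 1 Z := by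
      rw [contDiff_one_iff_deriv]
      refine ⟨fun r => (hZ r).differentiableAt, ?_⟩
      rw [funext fun r => (hZ r).deriv]
      exact hPβ
    set a := r0 / 4 with had
    have ha : 0 < a := by positivity
    set η : ℝ → ℝ := fun r => Real.smoothTransition ((r - a) / a) with hηd
    have hη : ContDiff ℝ 1 η := by
      have h5 : ContDiff ℝ 1 (fun r : ℝ => (r - a) / a) := by fun_prop
      exact (Real.smoothTransition.contDiff (n := 1)).comp h5
    have hη0 : ∀ r, r ≤ a → η r = 0 := fun r hr =>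
      Real.smoothTransition.zero_of_nonpos (div_nonpos_of_nonpos_of_nonneg (by linarith) ha.le)
    have hη1 : ∀ r, 2 * a ≤ r → η r = 1 := fun r hr =>
      Real.smoothTransition.one_of_one_le ((one_le_div ha).2 (by linarith))
    set ζ : ℝ → ℝ := fun r => η r * Z r with hζd
    have hζ1 : ContDiff ℝ 1 ζ := hη.mul hZ1
    have hζs : tsupport ζ ⊆ Set.Icc a (r1 + δ) := by
      refine closure_minimal ?_ isClosed_Icc
      intro r hr
      by_contra hne
      apply hr
      simp only [hζd]
      rw [Set.mem_Icc, not_and_or, not_le, not_le] at hne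
      rcases hne with hh | hh
      · rw [hη0 r hh.le, zero_mul]
      · rw [hZz r hh.le, mul_zero]
    have hζc : HasCompactSupport ζ := isCompact_Icc.of_isClosed_subset (isClosed_tsupport _) hζs
    have hint := hw ζ hζ1 hζc (hζs.trans fun r hr => ⟨ha.trans_le hr.1, hr.2.trans_lt hδ2⟩)
    have e1 : ∀ r ∈ Set.Ioc 0 R, r ^ 2 * (f' r * deriv ζ r) + c r * (f r * ζ r) =
        (c r * f r * Z r + Q r * (P r * β r)) + P r ^ 2 * β r := by
      intro r hr
      rcases lt_or_ge r r0 with hh | hh
      · have h4 : f r = 0 := hz r ⟨hr.1.le, hh.le⟩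
        have h5 : f' r = 0 := hz' r ⟨hr.1, hh⟩
        have h6 : Q r = 0 := hQz r ⟨hr.1.le, hh.le⟩
        have h7 : P r = 0 := by simp only [hPd, h5, h6]; ring
        rw [h4, h5, h6, h7]; ring
      · have h4 : ζ =ᶠ[𝓝 r] Z := by
          have h5 : 2 * a < r := by
            have : 2 * a = r0 / 2 := by rw [had]; ring
            linarith
          filter_upwards [Ioi_mem_nhds h5] with y hy
          have hy' : 2 * a < y := hy
          simp only [hζd]
          rw [hη1 y hy'.le, one_mul]
        rw [h4.deriv_eq, h4.eq_of_nhds, (hZ r).deriv]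
        have h6 : r ^ 2 * f' r = P r + Q r := by simp only [hPd]; ring
        calc r ^ 2 * (f' r * (P r * β r)) + c r * (f r * Z r)
            = (r ^ 2 * f' r) * (P r * β r) + c r * (f r * Z r) := by ring
          _ = _ := by rw [h6]; ring
    have c1 : Continuous fun r => c r * f r * Z r + Q r * (P r * β r) :=
      (hcf.mul hZc).add (hQc.mul hPβ)
    have c2 : Continuous fun r => P r ^ 2 * β r := (hPc.pow 2).mul hβc
    have e2 : ∫ r in (0 : ℝ)..R, (c r * f r * Z r + Q r * (P r * β r)) = 0 := by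
      have h4 : ∀ r, HasDerivAt (fun r => Q r * Z r) (c r * f r * Z r + Q r * (P r * β r)) r :=
        fun r => (hQ r).mul (hZ r)
      rw [intervalIntegral.integral_eq_sub_of_hasDerivAt (fun r _ => h4 r)
        (c1.intervalIntegrable _ _), hZR, hQ0]
      ring
    have e3 : ∫ r in (0 : ℝ)..R, P r ^ 2 * β r = 0 := by
      rw [intervalIntegral.integral_of_le hR.le, setIntegral_congr_fun measurableSet_Ioc e1,
        ← intervalIntegral.integral_of_le hR.le,
        intervalIntegral.integral_add (c1.intervalIntegrable _ _) (c2.intervalIntegrable _ _),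
        e2, zero_add] at hint
      exact hint
    by_contra hne
    have hpos : 0 < ∫ r in (0 : ℝ)..R, P r ^ 2 * β r := by
      refine intervalIntegral.integral_pos hR c2.continuousOn
        (fun r _ => mul_nonneg (sq_nonneg _) β.nonneg) ⟨r1, ⟨by linarith [hr1.1], hr1.2.le⟩, ?_⟩
      have h5 : β r1 = 1 := β.one_of_mem_closedBall (mem_closedBall_self (by
        change (0 : ℝ) ≤ δ / 2
        linarith))
      rw [h5, mul_one]
      positivity
    exact hpos.ne' e3
  -- Gronwall
  intro r hr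
  rcases le_or_gt r r0 with hh | hh
  · exact hz r ⟨hr.1, hh⟩
  have hP' : ∀ s ∈ Set.Icc r0 r, s ^ 2 * f' s = Q s := by
    intro s hs
    have h4 : Set.EqOn P (fun _ => 0) (closure (Set.Ioo r0 R)) :=
      Set.EqOn.closure (fun s hs => hP s hs) hPc continuous_const
    rw [closure_Ioo hrR.ne] at h4
    have h5 := h4 ⟨hs.1, hs.2.trans hr.2.le⟩
    simp only [hPd] at h5
    linarith
  obtain ⟨C, hC⟩ := (isCompact_Icc (a := r0) (b := r)).exists_bound_of_continuousOn hc.continuousOn
  set F : ℝ → ℝ × ℝ := fun s => (f s, Q s) with hFd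
  have hF : ∀ s ∈ Set.Icc r0 r, F s = 0 := by
    refine eq_zero_of_abs_deriv_le_mul_abs_self_of_eq_zero_right
      (f' := fun s => (f' s, c s * f s)) (K := max (r0 ^ 2)⁻¹ |C|)
      (hfc.prodMk hQc).continuousOn ?_ ?_ ?_
    · intro s _
      exact ((hf s).prodMk (hQ s)).hasDerivWithinAt
    · simp only [hFd]
      rw [hz r0 ⟨hr0.le, le_rfl⟩, hQz r0 ⟨hr0.le, le_rfl⟩]
      rfl
    · intro s hs
      have hs' : s ∈ Set.Icc r0 r := ⟨hs.1, hs.2.le⟩
      have hs0 : 0 < s := hr0.trans_le hs.1
      have h4 := hP' s hs'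
      have h5 : f' s = (s ^ 2)⁻¹ * Q s := by
        rw [← h4]; field_simp
      rw [Prod.norm_def]
      refine max_le ?_ ?_
      · simp only
        rw [h5, norm_mul, norm_inv, norm_pow, Real.norm_of_nonneg hs0.le]
        refine mul_le_mul ?_ ?_ (norm_nonneg _) ?_
        · refine le_max_of_le_left ?_
          exact inv_anti₀ (by positivity) (pow_le_pow_left₀ hr0.le hs.1 2)
        · exact norm_snd_le (F s)
        · positivity
      · simp only
        rw [norm_mul]
        refine mul_le_mul ?_ ?_ (norm_nonneg _) ?_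
        · exact le_max_of_le_right ((hC s hs').trans (le_abs_self C))
        · exact norm_fst_le (F s)
        · positivity
  have := hF r ⟨hh.le, le_rfl⟩
  exact congrArg Prod.fst this

private theorem UC1_complete (H : Harm) {h : E → ℝ} (hh : Continuous h)
    (h0 : ∀ l i, ∫ y : S2, h y * H.Y l i y ∂sg = 0) : ∀ y : S2, h y = 0 := by
  refine sg_zero (f := fun y : S2 => h y) (hh.comp continuous_subtype_val) ?_
  have hle : ∀ ε : ℝ, 0 < ε → ∫ y : S2, h y ^ 2 ∂sg ≤ ε * ∫ y : S2, |h y| ∂sg := by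
    intro ε hε
    obtain ⟨N, a, ha⟩ := H.complete h hh ε hε
    set p : E → ℝ := fun y => ∑ l ∈ Finset.range N, ∑ i, a l i * H.Y l i y with hp
    have hpc : Continuous p := by
      refine continuous_finsetSum _ fun l _ => continuous_finsetSum _ fun i _ => ?_
      exact continuous_const.mul (H.smooth l i).continuous
    have hint0 : ∫ y : S2, h y * p y ∂sg = 0 := by
      have e : ∀ y : S2, h y * p y = ∑ l ∈ Finset.range N, ∑ i, a l i * (h y * H.Y l i y) := by
        intro y
        simp only [hp]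
        rw [Finset.mul_sum]
        refine Finset.sum_congr rfl fun l _ => ?_
        rw [Finset.mul_sum]
        exact Finset.sum_congr rfl fun i _ => by ring
      have hI : ∀ l i, Integrable (fun y : S2 => a l i * (h y * H.Y l i y)) sg := fun l i =>
        (UC1_int (f := fun y => h y * H.Y l i y)
          (hh.mul (H.smooth l i).continuous)).const_mul _
      rw [integral_congr_ae (Eventually.of_forall e),
        integral_finsetSum _ fun l _ => integrable_finsetSum _ fun i _ => hI l i]
      refine Finset.sum_eq_zero fun l _ => ?_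
      rw [integral_finsetSum _ fun i _ => hI l i]
      refine Finset.sum_eq_zero fun i _ => ?_
      rw [integral_const_mul, h0, mul_zero]
    have e1 : ∫ y : S2, h y ^ 2 ∂sg = ∫ y : S2, h y * (h y - p y) ∂sg := by
      have e2 : ∀ y : S2, h y * (h y - p y) = h y ^ 2 - h y * p y := fun y => by ring
      rw [integral_congr_ae (Eventually.of_forall e2),
        integral_sub (UC1_int (f := fun y => h y ^ 2) (hh.pow 2))
          (UC1_int (f := fun y => h y * p y) (hh.mul hpc)), hint0, sub_zero]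
    rw [e1, ← integral_const_mul]
    refine integral_mono (UC1_int (f := fun y => h y * (h y - p y)) (hh.mul (hh.sub hpc)))
      ((UC1_int (f := fun y => |h y|) hh.abs).const_mul ε) fun y => ?_
    simp only
    calc h y * (h y - p y) ≤ |h y * (h y - p y)| := le_abs_self _
      _ = |h y| * |h y - p y| := abs_mul _ _
      _ ≤ |h y| * ε := mul_le_mul_of_nonneg_left (ha y).le (abs_nonneg _)
      _ = ε * |h y| := mul_comm _ _
  refine le_antisymm ?_ (integral_nonneg fun y => sq_nonneg _)
  have hA : 0 ≤ ∫ y : S2, |h y| ∂sg := integral_nonneg fun y => abs_nonneg _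
  refine le_of_forall_pos_le_add fun t ht => ?_
  rw [zero_add]
  have h1 := hle (t / ((∫ y : S2, |h y| ∂sg) + 1)) (by positivity)
  refine h1.trans ?_
  rw [div_mul_eq_mul_div, div_le_iff₀ (by positivity)]
  nlinarith

private theorem UC1_zero {D : Set E} (hD : IsOpen D) {K : ℝ} {w : E → ℝ} (hw : Eigf D K w)
    {ρ : ℝ} (hq : ball (0 : E) ρ ⊆ D) (h : ∀ᶠ x in 𝓝 (0 : E), w x = 0) :
    ∀ x ∈ ball (0 : E) ρ, w x = 0 := by
  intro x0 hx0
  rw [mem_ball_zero_iff] at hx0
  by_cases hxz : x0 = 0
  · rw [hxz]; exact h.self_of_nhds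
  have hn0 : 0 < ‖x0‖ := norm_pos_iff.2 hxz
  obtain ⟨R, hR1, hR2⟩ := exists_between hx0
  have hR : 0 < R := hn0.trans hR1
  obtain ⟨R2, hR3, hR4⟩ := exists_between hR2
  let χ : ContDiffBump (0 : E) := ⟨R, R2, hR, hR3⟩
  have hχ : (χ : E → ℝ) ∈ C1c D := by
    refine ⟨χ.contDiff, χ.hasCompactSupport, ?_⟩
    rw [χ.tsupport_eq]
    exact (closedBall_subset_ball hR4).trans hq
  set g : E → ℝ := fun x => χ x * w x with hgd
  have hg : g ∈ C1c D := mul_mem hD hw hχ
  have hgC := C1c.contDiff hg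
  have hgw : ∀ x ∈ ball (0 : E) R, g =ᶠ[𝓝 x] w := by
    intro x hx
    filter_upwards [isOpen_ball.mem_nhds hx] with y hy
    simp only [hgd]
    rw [χ.one_of_mem_closedBall (ball_subset_closedBall hy), one_mul]
  have hgw' : ∀ x ∈ ball (0 : E) R, g x = w x := fun x hx => (hgw x hx).eq_of_nhds
  have hRD : ball (0 : E) R ⊆ D := (ball_subset_ball hR2.le).trans hq
  obtain ⟨r1, hr1, hr1w⟩ := Metric.eventually_nhds_iff_ball.1 h
  set r0 := min r1 R / 2 with hr0d
  have hr0 : 0 < r0 := by
    have : 0 < min r1 R := lt_min hr1 hR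
    positivity
  have hr0a : r0 < r1 := by
    have := min_le_left r1 R
    have h2 : 0 < min r1 R := lt_min hr1 hR
    rw [hr0d]; linarith
  have hr0b : r0 < R := by
    have := min_le_right r1 R
    have h2 : 0 < min r1 R := lt_min hr1 hR
    rw [hr0d]; linarith
  obtain ⟨H⟩ := exists_harm
  have hmom : ∀ l i, ∀ r ∈ Set.Ico 0 R, mom H g l i r = 0 := by
    intro l i
    refine UC1_ode (f' := dmom H g l i) (c := fun r => (l : ℝ) * (l + 1) - K * r ^ 2)
      (fun r => mom_deriv H hgC l i r) (dmom_cont H hgC l i) (by fun_prop) hr0 hr0b ?_ ?_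
    · intro r hr
      unfold mom
      have h4 : ∀ y : S2, g (r • (y : E)) * H.Y l i y = 0 := by
        intro y
        have hy : ‖(y : E)‖ = 1 := by simp
        have hn : ‖r • (y : E)‖ = r := by
          rw [norm_smul, hy, mul_one, Real.norm_eq_abs, abs_of_nonneg hr.1]
        have h5 : r • (y : E) ∈ ball (0 : E) R := by
          rw [mem_ball_zero_iff, hn]; exact hr.2.trans_lt hr0b
        have h6 : r • (y : E) ∈ ball (0 : E) r1 := by
          rw [mem_ball_zero_iff, hn]; exact hr.2.trans_lt hr0a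
        rw [hgw' _ h5, hr1w _ h6, zero_mul]
      simp only [h4, integral_zero]
    · intro ζ h1 h2 h3
      exact UC1_weak hw hR hRD hgC hgw H l i h1 h2 h3
  have hsph := UC1_complete H (h := fun y => g (‖x0‖ • y))
    (hgC.continuous.comp (by fun_prop : Continuous fun y : E => ‖x0‖ • y))
    (fun l i => hmom l i ‖x0‖ ⟨hn0.le, hR1⟩)
  have hy : ‖‖x0‖⁻¹ • x0‖ = 1 := by
    rw [norm_smul, norm_inv, norm_norm, inv_mul_cancel₀ hn0.ne']
  have h5 := hsph ⟨‖x0‖⁻¹ • x0, by rw [mem_sphere_zero_iff_norm]; exact hy⟩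
  simp only at h5
  rw [smul_smul, mul_inv_cancel₀ hn0.ne', one_smul] at h5
  rw [← hgw' x0 (by rw [mem_ball_zero_iff]; exact hR1)]
  exact h5

theorem uc_ball {D : Set E} (hD : IsOpen D) {K : ℝ} {w : E → ℝ} (hw : Eigf D K w) {q : E} {ρ : ℝ}
    (hρ : 0 < ρ) (hq : ball q ρ ⊆ D) (h : ∀ᶠ x in 𝓝 q, w x = 0) : ∀ x ∈ ball q ρ, w x = 0 := by
  set D' : Set E := {x | x + q ∈ D} with hD'
  set w' : E → ℝ := fun x => w (x + q) with hw'
  have hc : Continuous fun x : E => x + q := continuous_id.add continuous_const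
  have hD'o : IsOpen D' := hD.preimage hc
  have hfd : ∀ (f : E → ℝ) (x : E) (i : Fin 3), pd (fun y => f (y + q)) i x = pd f i (x + q) := by
    intro f x i
    unfold pd
    rw [fderiv_comp_add_right]
  have hwE : Eigf D' K w' := by
    refine ⟨hw.cont.comp hc, fun x hx => hw.out _ hx, ?_, ?_⟩
    · exact hw.C1.comp (contDiff_id.add contDiff_const).contDiffOn fun x hx => hx
    · intro ψ hψ
      set φ : E → ℝ := fun x => ψ (x - q) with hφ
      have hc2 : Continuous fun x : E => x - q := continuous_id.sub continuous_const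
      have hφm : φ ∈ C1c D := by
        refine ⟨(C1c.contDiff hψ).comp (contDiff_id.sub contDiff_const), ?_, ?_⟩
        · exact (C1c.compact hψ).comp_homeomorph (Homeomorph.subRight q)
        · intro x hx
          have h1 : tsupport φ ⊆ (fun x => x - q) ⁻¹' tsupport ψ := by
            refine closure_minimal ?_ ((isClosed_tsupport ψ).preimage hc2)
            intro y hy
            exact subset_tsupport ψ hy
          have h2 : x - q ∈ D' := C1c.sub hψ (h1 hx)
          have h3 : x - q + q ∈ D := h2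
          rwa [sub_add_cancel] at h3
      have h1 := hw.weak φ hφm
      have h2 := integral_add_right_eq_self (μ := (volume : Measure E))
        (fun x => gg w φ x - K * (w x * φ x)) q
      rw [← h1, ← h2]
      refine integral_congr_ae (Eventually.of_forall fun x => ?_)
      have e1 : ψ = fun y => φ (y + q) := by
        funext y
        simp only [hφ, add_sub_cancel_right]
      have e2 : gg w' ψ x = gg w φ (x + q) := by
        unfold gg
        refine Finset.sum_congr rfl fun i _ => ?_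
        rw [hfd w x i, e1, hfd φ x i]
      have e3 : φ (x + q) = ψ x := by simp only [hφ, add_sub_cancel_right]
      simp only
      rw [e2, e3]
  have hsub : ball (0 : E) ρ ⊆ D' := by
    intro x hx
    apply hq
    rw [mem_ball, dist_eq_norm, add_sub_cancel_right]
    exact mem_ball_zero_iff.1 hx
  have hev : ∀ᶠ x in 𝓝 (0 : E), w' x = 0 := by
    have h1 : Tendsto (fun x : E => x + q) (𝓝 0) (𝓝 q) := by
      have := hc.tendsto (0 : E)
      rwa [zero_add] at this
    exact h1.eventually h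
  intro x hx
  have h1 := UC1_zero hD'o hwE hsub hev (x - q) (by
    rw [mem_ball_zero_iff, ← dist_eq_norm]; exact hx)
  simp only [hw', sub_add_cancel] at h1
  exact h1

end Pool.Agent.H68.SM
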