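import Pool.Agent.H68.SM.GrB
import Pool.Agent.H68.SM.UC1

/-!
# Ground states of a parity class are simple (proved from the modules)
-/

set_option autoImplicit false

namespace Pool.Agent.H68.SM

open Filter Topology MeasureTheory Metric
open scoped ContDiff
open Pool.Agent.H68.SC

theorem uc {D : Set E} (hD : IsOpen D) (hc : IsPreconnected D) {K : ℝ} {w : E → ℝ}
    (hw : Eigf D K w) {p : E} (hp : p ∈ D) (h : ∀ᶠ x in 𝓝 p, w x = 0) : w = 0 := by
  have hsub : D ⊆ {x | ∀ᶠ y in 𝓝 x, w y = 0} := by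
    refine hc.subset_of_closure_inter_subset ?_ ⟨p, hp, h⟩ ?_
    · rw [isOpen_iff_mem_nhds]
      intro x hx
      exact eventually_eventually_nhds.2 hx
    · rintro x ⟨hx1, hx2⟩
      obtain ⟨ρ, hρ, hρD⟩ := Metric.isOpen_iff.1 hD x hx2
      obtain ⟨q, hq1, hq2⟩ := Metric.mem_closure_iff.1 hx1 (ρ / 2) (half_pos hρ)
      have h1 : ball q (ρ / 2) ⊆ D := by
        refine Set.Subset.trans ?_ hρD
        intro y hy
        have h2 := mem_ball.1 hy
        refine mem_ball.2 ?_
        calc dist y x ≤ dist y q + dist q x := dist_triangle _ _ _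
          _ < ρ / 2 + ρ / 2 := by rw [dist_comm q x]; exact add_lt_add h2 hq2
          _ = ρ := add_halves ρ
      have h3 := uc_ball hD hw (half_pos hρ) h1 hq1
      have h4 : ball q (ρ / 2) ∈ 𝓝 x := isOpen_ball.mem_nhds (mem_ball.2 hq2)
      exact Filter.mem_of_superset h4 h3
  funext x
  by_cases hx : x ∈ D
  · exact (hsub hx).self_of_nhds
  · exact hw.out x hx

theorem ground {D : Set E} (hD : IsOpen D) (hb : Bornology.IsBounded D) (hc : IsPreconnected D)
    (hne : D.Nonempty) {K : ℝ} (hK : 0 < K) {e : Fin 3 → ℝ} (he0 : e 0 = -1)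
    (he : ∀ j, j ≠ 0 → e j = 0 ∨ e j = 1) (hDe : ∀ j, e j ≠ 0 → ∀ x ∈ D, rf j x ∈ D)
    (w : Fin 2 → E → ℝ) (hw : ∀ i, Eigf D K (w i)) (hwe : ∀ i, w i ∈ Cl e)
    (hli : LinearIndependent ℝ w) : AtLeast (Cl e) D K 1 := by
  by_contra hno
  -- the form is nonnegative on the class
  have hpos : ∀ f ∈ C1c D ⊓ Cl e, 0 ≤ BB K f f := by
    intro f hf
    by_contra hneg
    push Not at hneg
    refine hno ⟨Submodule.span ℝ {f}, ?_, inferInstance, ?_, ?_⟩
    · rw [Submodule.span_singleton_le_iff_mem]; exact hf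
    · have hf0 : f ≠ 0 := by
        rintro rfl
        simp [BB_self hf.1] at hneg
      rw [finrank_span_singleton hf0]
    · intro g hg hg0
      obtain ⟨a, rfl⟩ := Submodule.mem_span_singleton.1 hg
      have ha : a ≠ 0 := by rintro rfl; simp at hg0
      have h1 : BB K (a • f) (a • f) = a ^ 2 * BB K f f := by
        rw [BB_smul_left a hf.1, BB_comm, BB_smul_left a hf.1]; ring
      have h2 := BB_self (Submodule.smul_mem _ a hf.1) K
      have h3 : 0 < a ^ 2 := by positivity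
      have h4 : a ^ 2 * BB K f f < 0 := mul_neg_of_pos_of_neg h3 hneg
      rw [h2] at h1
      linarith
  -- a point of `D` with `x_0 > 0`
  obtain ⟨p, hp, hp0⟩ : ∃ p ∈ D, 0 < p 0 := by
    obtain ⟨x, hx⟩ := hne
    obtain ⟨ρ, hρ, hρD⟩ := Metric.isOpen_iff.1 hD x hx
    rcases lt_trichotomy (x 0) 0 with h | h | h
    · refine ⟨rf 0 x, hDe 0 (by rw [he0]; norm_num) x hx, ?_⟩
      rw [rf_apply, if_pos rfl]; linarith
    · refine ⟨x + (ρ / 2) • ee 0, hρD ?_, ?_⟩
      · rw [mem_ball, dist_eq_norm, add_sub_cancel_left, norm_smul, EuclideanSpace.norm_single]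
        simp only [norm_one, mul_one, Real.norm_eq_abs]
        rw [abs_of_pos (half_pos hρ)]
        linarith
      · simp only [PiLp.add_apply, PiLp.smul_apply, ee_apply, smul_eq_mul]
        rw [h]; simp [hρ]
    · exact ⟨x, hx, h⟩
  -- a combination vanishing at `p`
  obtain ⟨v, hv, hvC, hv0, hvp⟩ : ∃ v : E → ℝ, Eigf D K v ∧ v ∈ Cl e ∧ v ≠ 0 ∧ v p = 0 := by
    by_cases h0 : w 0 p = 0
    · exact ⟨w 0, hw 0, hwe 0, hli.ne_zero 0, h0⟩
    · refine ⟨w 1 p • w 0 + (-w 0 p) • w 1, (Eigf.smul hD _ (hw 0)).add hD (Eigf.smul hD _ (hw 1)),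
        Submodule.add_mem _ (Submodule.smul_mem _ _ (hwe 0)) (Submodule.smul_mem _ _ (hwe 1)),
        ?_, ?_⟩
      · intro h
        have h1 := Fintype.linearIndependent_iff.1 hli ![w 1 p, -w 0 p] (by
          rw [Fin.sum_univ_two]; simpa using h)
        have := h1 1
        simp at this
        exact h0 this
      · simp only [Pi.add_apply, Pi.smul_apply, smul_eq_mul]; ring
  have hodd : ∀ x, v (rf 0 x) = -v x := by
    intro x
    have := hvC 0 (by rw [he0]; norm_num) x
    rw [he0] at this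
    linarith
  have h1 := grB hD hb hK he0 he hDe hv hvC hpos hp hp0 (by
    unfold pp; rw [if_pos hp0.le, hvp, max_self])
  have hv' : Eigf D K ((-1 : ℝ) • v) := Eigf.smul hD _ hv
  have h2 := grB hD hb hK he0 he hDe hv' (Submodule.smul_mem _ _ hvC) hpos hp hp0 (by
    unfold pp
    rw [if_pos hp0.le]
    simp [hvp])
  have h3 : ∀ᶠ x in 𝓝 p, 0 < x 0 :=
    (continuous_apply 0 |>.comp (PiLp.continuous_ofLp 2 _)).continuousAt.eventually
      (isOpen_Ioi.mem_nhds hp0)
  refine hv0 (uc hD hc hv hp ?_)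
  filter_upwards [h1, h2, h3] with x hx1 hx2 hx3
  unfold pp at hx1 hx2
  rw [if_pos hx3.le] at hx1 hx2
  have h4 : v x ≤ 0 := by
    by_contra h; push Not at h
    rw [max_eq_left h.le] at hx1
    exact h.ne' hx1
  have h5 : (-1 : ℝ) * v x ≤ 0 := by
    by_contra h; push Not at h
    simp only [Pi.smul_apply, smul_eq_mul] at hx2
    rw [max_eq_left h.le] at hx2
    exact h.ne' hx2
  linarith

end Pool.Agent.H68.SM
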