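import Pool.Agent.H68.SM.Defs
import Pool.Agent.H68.SC.Dense

/-!
# Module HarmPx (helper53): spherical harmonics adapted to the reflections

The three reflections `rf j` act on the harmonic polynomials of degree `l` (`hxR`) and on their
images in `L²` of the sphere (`hxL`, `hxH`) as commuting symmetric involutions; the joint
eigenspaces (`hxV`) give an adapted orthonormal basis. The numbers of basis elements with given
parities are the dimensions of the parity classes (`hx_card`): degree 1: `x_0`; degree 2: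
`x_0 x_1`, `x_0 x_2`.
-/

set_option autoImplicit false

namespace Pool.Agent.H68.SM

open Filter Topology MeasureTheory Metric
open scoped ContDiff InnerProductSpace
open Pool.Agent.H68.SC
open Pool.H53.SH (P3 pf LD T yp dm rs HS sphMap)


/-- the reflection on polynomials -/
private noncomputable def hxR (j : Fin 3) : P3 →ₐ[ℝ] P3 :=
  MvPolynomial.aeval fun i => if i = j then -MvPolynomial.X i else MvPolynomial.X i

private theorem hx_pf_R (j : Fin 3) (p : P3) (x : E) : pf (hxR j p) x = pf p (rf j x) := by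
  induction p using MvPolynomial.induction_on with
  | C a => simp [hxR, pf]
  | add p q hp hq => rw [map_add, Pool.H53.SH.pf_add, hp, hq, Pool.H53.SH.pf_add]
  | mul_X p i hp =>
    rw [map_mul, Pool.H53.SH.pf_mul, hp, Pool.H53.SH.pf_mul, Pool.H53.SH.pf_X]
    congr 1
    rw [rf_apply]
    simp only [hxR, MvPolynomial.aeval_X]
    split_ifs <;> simp [pf]

private theorem hx_R_X (j i : Fin 3) :
    hxR j (MvPolynomial.X i) = if i = j then -MvPolynomial.X i else MvPolynomial.X i := by
  simp only [hxR, MvPolynomial.aeval_X]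

private theorem hx_coeff (j : Fin 3) (p : P3) (m : Fin 3 →₀ ℕ) :
    (hxR j p).coeff m = (-1) ^ (m j) * p.coeff m := by
  induction p using MvPolynomial.induction_on generalizing m with
  | C a =>
    have h1 : hxR j (MvPolynomial.C a) = MvPolynomial.C a := by simp [hxR]
    rw [h1, MvPolynomial.coeff_C]
    split_ifs with h
    · rw [← h]; simp
    · simp
  | add p q hp hq => rw [map_add, MvPolynomial.coeff_add, hp, hq, MvPolynomial.coeff_add]; ring
  | mul_X p i hp =>
    rw [map_mul, hx_R_X]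
    have h1 : (hxR j p * (if i = j then -MvPolynomial.X i else MvPolynomial.X i)) =
        (if i = j then -1 else 1 : ℝ) • (hxR j p * MvPolynomial.X i) := by
      split_ifs
      · rw [neg_smul, one_smul, mul_neg]
      · rw [one_smul]
    rw [h1, MvPolynomial.coeff_smul, MvPolynomial.coeff_mul_X', MvPolynomial.coeff_mul_X']
    split_ifs with h2 h3
    · subst h2
      rw [hp, Finsupp.tsub_apply, Finsupp.single_eq_same]
      have h4 : m i ≠ 0 := Finsupp.mem_support_iff.1 h3
      obtain ⟨k, hk⟩ := Nat.exists_eq_succ_of_ne_zero h4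
      rw [hk, Nat.succ_sub_one, pow_succ, smul_eq_mul]; ring
    · simp
    · rw [hp, Finsupp.tsub_apply, Finsupp.single_eq_of_ne (Ne.symm h2)]
      simp
    · simp

private theorem hx_lap (j : Fin 3) (p : P3) :
    Pool.H53.SH.lap (hxR j p) = hxR j (Pool.H53.SH.lap p) := by
  ext m
  have key : ∀ i : Fin 3, (-1 : ℝ) ^ ((m + Finsupp.single i 1 + Finsupp.single i 1 : Fin 3 →₀ ℕ) j) =
      (-1) ^ (m j) := by
    intro i
    rw [Finsupp.add_apply, Finsupp.add_apply, add_assoc, pow_add, ← two_mul, pow_mul']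
    rcases neg_one_pow_eq_or ℝ (Finsupp.single i 1 j) with h | h <;> rw [h] <;> ring
  simp only [Pool.H53.SH.lap_apply, map_add, MvPolynomial.coeff_add, MvPolynomial.coeff_pderiv,
    hx_coeff, key]
  ring

private theorem hx_hom {l : ℕ} {p : P3} (hp : p.IsHomogeneous l) (j : Fin 3) :
    (hxR j p).IsHomogeneous l := by
  intro m hm
  apply hp
  intro h
  rw [hx_coeff, h, mul_zero] at hm
  exact hm rfl

private theorem hx_mem_Harm {l : ℕ} {p : P3} (hp : p ∈ Pool.H53.SH.Harm l) (j : Fin 3) :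
    hxR j p ∈ Pool.H53.SH.Harm l := by
  rw [Pool.H53.SH.mem_Harm] at hp ⊢
  exact ⟨hx_hom hp.1 j, by rw [hx_lap, hp.2, map_zero]⟩

/-- the reflection on `L²` of the sphere -/
private noncomputable def hxL (j : Fin 3) :
    Lp ℝ 2 Pool.H53.SH.sig →ₗᵢ[ℝ] Lp ℝ 2 Pool.H53.SH.sig :=
  Lp.compMeasurePreservingₗᵢ ℝ (sphMap (rfI j)) (Pool.H53.SH.measurePreserving_sphMap (rfI j))

private theorem hxL_T (j : Fin 3) (p : P3) : hxL j (T p) = T (hxR j p) := by
  apply Lp.ext
  have h1 : (hxL j (T p) : Pool.H53.SH.S2 → ℝ) =ᵐ[Pool.H53.SH.sig] T p ∘ sphMap (rfI j) :=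
    Lp.coeFn_compMeasurePreserving _ _
  have h2 : (T p : Pool.H53.SH.S2 → ℝ) =ᵐ[Pool.H53.SH.sig] rs p := by
    rw [Pool.H53.SH.T_apply]; exact ContinuousMap.coeFn_toLp _ _
  have h3 : (T (hxR j p) : Pool.H53.SH.S2 → ℝ) =ᵐ[Pool.H53.SH.sig] rs (hxR j p) := by
    rw [Pool.H53.SH.T_apply]; exact ContinuousMap.coeFn_toLp _ _
  have h4 : (T p : Pool.H53.SH.S2 → ℝ) ∘ sphMap (rfI j) =ᵐ[Pool.H53.SH.sig]
      rs p ∘ sphMap (rfI j) :=
    (Pool.H53.SH.measurePreserving_sphMap (rfI j)).quasiMeasurePreserving.ae_eq_comp h2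
  refine h1.trans (h4.trans (Filter.EventuallyEq.trans ?_ h3.symm))
  refine Filter.Eventually.of_forall fun w => ?_
  rw [Function.comp_apply, Pool.H53.SH.rs_apply, Pool.H53.SH.rs_apply, hx_pf_R]
  rfl

private theorem hx_T_eq {p q : P3} (h : T p = T q) (y : Pool.H53.SH.S2) : pf p y = pf q y := by
  have h1 : rs p = rs q := ContinuousMap.toLp_injective (p := 2) (𝕜 := ℝ) Pool.H53.SH.sig h
  rw [← Pool.H53.SH.rs_apply, ← Pool.H53.SH.rs_apply, h1]

/-- `T` is injective on homogeneous polynomials -/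
private theorem hx_T_inj {l : ℕ} {p q : P3} (hp : p.IsHomogeneous l) (hq : q.IsHomogeneous l)
    (h : T p = T q) : p = q := by
  have h1 : ∀ x : E, pf p x = pf q x := by
    intro x
    by_cases hx : x = 0
    · subst hx
      have hz := Pool.H53.SH.pf_hom hp 0 (0 : E)
      have hz' := Pool.H53.SH.pf_hom hq 0 (0 : E)
      rcases Nat.eq_zero_or_pos l with hl | hl
      · subst hl
        rw [← MvPolynomial.totalDegree_zero_iff_isHomogeneous,
          MvPolynomial.totalDegree_eq_zero_iff_eq_C] at hp hq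
        have h2 := hx_T_eq h ⟨ee 0, by simp⟩
        rw [hp, hq, Pool.H53.SH.pf_C, Pool.H53.SH.pf_C] at h2 ⊢
        exact h2
      · rw [smul_zero, zero_pow (by omega), zero_mul] at hz hz'
        rw [hz, hz']
    · have hn : ‖x‖ ≠ 0 := norm_ne_zero_iff.2 hx
      have h3 : ‖‖x‖⁻¹ • x‖ = 1 := by
        rw [norm_smul, norm_inv, norm_norm, inv_mul_cancel₀ hn]
      have h4 := hx_T_eq h ⟨‖x‖⁻¹ • x, by simpa using h3⟩
      have h5 : x = ‖x‖ • (‖x‖⁻¹ • x) := by rw [smul_smul, mul_inv_cancel₀ hn, one_smul]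
      rw [h5, Pool.H53.SH.pf_hom hp, Pool.H53.SH.pf_hom hq, h4]
  apply MvPolynomial.funext
  intro v
  have := h1 (WithLp.toLp 2 v)
  simpa [pf] using this

private theorem hxL_mem {l : ℕ} (j : Fin 3) (x : Lp ℝ 2 Pool.H53.SH.sig) (hx : x ∈ HS l) :
    hxL j x ∈ HS l := by
  obtain ⟨p, hp, rfl⟩ := hx
  exact ⟨hxR j p, hx_mem_Harm hp j, (hxL_T j p).symm⟩

private theorem hxR_hxR (j : Fin 3) (p : P3) : hxR j (hxR j p) = p := by
  ext m
  rw [hx_coeff, hx_coeff, ← mul_assoc, ← mul_pow]
  norm_num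

private theorem hxR_comm (j k : Fin 3) (p : P3) : hxR j (hxR k p) = hxR k (hxR j p) := by
  ext m
  rw [hx_coeff, hx_coeff, hx_coeff, hx_coeff]
  ring

/-- the reflection on the space of harmonics of degree `l` -/
private noncomputable def hxH (l : ℕ) (j : Fin 3) : HS l →ₗ[ℝ] HS l :=
  (hxL j).toLinearMap.restrict (p := HS l) (q := HS l) fun x hx => hxL_mem j x hx

private theorem hxH_coe (l : ℕ) (j : Fin 3) (x : HS l) :
    (hxH l j x : Lp ℝ 2 Pool.H53.SH.sig) = hxL j x := rfl

private theorem hxH_hxH (l : ℕ) (j : Fin 3) (x : HS l) : hxH l j (hxH l j x) = x := by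
  apply Subtype.ext
  rw [hxH_coe, hxH_coe]
  obtain ⟨p, hp, h⟩ := x.2
  rw [← h, hxL_T, hxL_T, hxR_hxR]

private theorem hxH_comm (l : ℕ) (j k : Fin 3) (x : HS l) :
    hxH l j (hxH l k x) = hxH l k (hxH l j x) := by
  apply Subtype.ext
  rw [hxH_coe, hxH_coe, hxH_coe, hxH_coe]
  obtain ⟨p, hp, h⟩ := x.2
  rw [← h, hxL_T, hxL_T, hxL_T, hxL_T, hxR_comm]

private theorem hxH_inner (l : ℕ) (j : Fin 3) (x y : HS l) :
    ⟪hxH l j x, hxH l j y⟫_ℝ = ⟪x, y⟫_ℝ := by
  rw [Submodule.coe_inner, Submodule.coe_inner, hxH_coe, hxH_coe]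
  exact (hxL j).inner_map_map _ _

private theorem hxH_symm (l : ℕ) (j : Fin 3) : (hxH l j).IsSymmetric := by
  intro x y
  rw [← hxH_inner l j (hxH l j x) y, hxH_hxH]


/-- the sign of a boolean -/
private def hxs (b : Bool) : ℝ := if b then -1 else 1

private theorem hxs_inj {b c : Bool} (h : hxs b = hxs c) : b = c := by
  cases b <;> cases c <;> simp [hxs] at h ⊢ <;> norm_num at h

/-- the joint parity classes -/
private noncomputable def hxV (l : ℕ) (e : Fin 3 → Bool) : Submodule ℝ (HS l) :=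
  ⨅ j, Module.End.eigenspace (hxH l j) (hxs (e j))

private theorem hx_mem_V {l : ℕ} {e : Fin 3 → Bool} {x : HS l} :
    x ∈ hxV l e ↔ ∀ j, hxH l j x = hxs (e j) • x := by
  unfold hxV
  simp only [Submodule.mem_iInf, Module.End.mem_eigenspace_iff]

open scoped Function in
private theorem hxV_iSup (l : ℕ) : ⨆ e, hxV l e = ⊤ := by
  have h1 := LinearMap.IsSymmetric.iSup_iInf_eq_top_of_commute (T := hxH l) (hxH_symm l)
    (fun j k _ => LinearMap.ext fun x => hxH_comm l j k x)
  rw [eq_top_iff, ← h1]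
  refine iSup_le fun χ => ?_
  intro x hx
  by_cases h0 : x = 0
  · rw [h0]; exact Submodule.zero_mem _
  simp only [Submodule.mem_iInf, Module.End.mem_eigenspace_iff] at hx
  have h2 : ∀ j, ∃ b : Bool, χ j = hxs b := by
    intro j
    have h3 := hxH_hxH l j x
    rw [hx j, map_smul, hx j, smul_smul] at h3
    have h4 : (χ j * χ j - 1) • x = 0 := by rw [sub_smul, h3, one_smul, sub_self]
    rcases smul_eq_zero.1 h4 with h5 | h5
    · have h6 : (χ j - 1) * (χ j + 1) = 0 := by linarith
      rcases mul_eq_zero.1 h6 with h7 | h7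
      · exact ⟨false, by simp only [hxs]; norm_num; linarith⟩
      · exact ⟨true, by simp only [hxs]; norm_num; linarith⟩
    · exact absurd h5 h0
  choose b hb using h2
  refine Submodule.mem_iSup_of_mem b ?_
  rw [hx_mem_V]
  intro j
  rw [hx j, hb j]

private theorem hxV_orth (l : ℕ) :
    OrthogonalFamily ℝ (fun e => hxV l e) fun e => (hxV l e).subtypeₗᵢ := by
  have h1 := LinearMap.IsSymmetric.orthogonalFamily_iInf_eigenspaces (T := hxH l) (hxH_symm l)
  intro e e' hne v w
  exact h1 (show (fun j => hxs (e j)) ≠ (fun j => hxs (e' j)) from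
    fun h => hne (funext fun j => hxs_inj (congrFun h j))) v w

private theorem hxV_int (l : ℕ) : DirectSum.IsInternal (hxV l) := by
  rw [(hxV_orth l).isInternal_iff, hxV_iSup, Submodule.top_orthogonal_eq_bot]

/-- the adapted orthonormal basis -/
private noncomputable def hxB (l : ℕ) : OrthonormalBasis (Fin (dm l)) ℝ (HS l) :=
  (hxV_int l).subordinateOrthonormalBasis (n := dm l) rfl (hxV_orth l)

/-- its parities -/
private noncomputable def hxE (l : ℕ) (i : Fin (dm l)) : Fin 3 → Bool :=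
  (hxV_int l).subordinateOrthonormalBasisIndex (n := dm l) rfl i (hxV_orth l)

private theorem hxB_eig (l : ℕ) (i : Fin (dm l)) (j : Fin 3) :
    hxH l j (hxB l i) = hxs (hxE l i j) • hxB l i := by
  have h1 := (hxV_int l).subordinateOrthonormalBasis_subordinate (n := dm l) rfl i (hxV_orth l)
  exact hx_mem_V.1 h1 j

private theorem hx_exists_yp (l : ℕ) (m : Fin (dm l)) :
    ∃ p ∈ Pool.H53.SH.Harm l, T p = (hxB l m : Lp ℝ 2 Pool.H53.SH.sig) := by
  obtain ⟨p, hp, h⟩ := Submodule.mem_map.1 (hxB l m).2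
  exact ⟨p, hp, h⟩

/-- the polynomials of the adapted basis -/
private noncomputable def hxP (l : ℕ) (m : Fin (dm l)) : P3 := (hx_exists_yp l m).choose

private theorem hxP_mem (l : ℕ) (m : Fin (dm l)) : hxP l m ∈ Pool.H53.SH.Harm l :=
  (hx_exists_yp l m).choose_spec.1

private theorem hxP_T (l : ℕ) (m : Fin (dm l)) :
    T (hxP l m) = (hxB l m : Lp ℝ 2 Pool.H53.SH.sig) := (hx_exists_yp l m).choose_spec.2

private theorem hxP_refl (l : ℕ) (i : Fin (dm l)) (j : Fin 3) :
    hxR j (hxP l i) = hxs (hxE l i j) • hxP l i := by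
  refine hx_T_inj (l := l) (hx_hom (Pool.H53.SH.mem_Harm.1 (hxP_mem l i)).1 j) ?_ ?_
  · rw [MvPolynomial.smul_eq_C_mul]
    exact (Pool.H53.SH.mem_Harm.1 (hxP_mem l i)).1.C_mul _
  · have h1 := congrArg (fun x : HS l => (x : Lp ℝ 2 Pool.H53.SH.sig)) (hxB_eig l i j)
    simp only [hxH_coe, Submodule.coe_smul] at h1
    rw [← hxP_T, hxL_T] at h1
    rw [h1, map_smul]

private theorem hx_apply_span (l : ℕ) {p : P3} (hp : p ∈ Pool.H53.SH.Harm l) :
    T p ∈ Submodule.span ℝ (Set.range fun m : Fin (dm l) => T (hxP l m)) := by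
  have h1 : T p ∈ HS l := ⟨p, hp, rfl⟩
  have h2 := (hxB l).sum_repr ⟨T p, h1⟩
  have h3 : T p = ∑ m, (hxB l).repr ⟨T p, h1⟩ m • T (hxP l m) := by
    have h4 := congrArg (Subtype.val) h2
    simp only [Submodule.coe_sum, Submodule.coe_smul] at h4
    refine h4.symm.trans ?_
    exact Finset.sum_congr rfl fun m _ => by rw [hxP_T]
  rw [h3]
  exact Submodule.sum_mem _ fun m _ => Submodule.smul_mem _ _ (Submodule.subset_span ⟨m, rfl⟩)

private noncomputable def hxY (a : Σ l : ℕ, Fin (dm l)) : Lp ℝ 2 Pool.H53.SH.sig := T (hxP a.1 a.2)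

private theorem hxY_orth : Orthonormal ℝ hxY := by
  constructor
  · rintro ⟨l, m⟩
    simp only [hxY, hxP_T]
    exact (hxB l).orthonormal.1 m
  · rintro ⟨l, m⟩ ⟨l', m'⟩ hne
    simp only [hxY]
    by_cases h : l = l'
    · subst h
      have hm : m ≠ m' := fun h => hne (by rw [h])
      rw [hxP_T, hxP_T, ← Submodule.coe_inner]
      exact (hxB l).orthonormal.2 hm
    · exact Pool.H53.SH.inner_Harm h (hxP_mem l m) (hxP_mem l' m')

private theorem hx_T_mem_span (p : P3) : T p ∈ Submodule.span ℝ (Set.range hxY) := by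
  have hhom : ∀ (n : ℕ) (q : P3), q.IsHomogeneous n → T q ∈ Submodule.span ℝ (Set.range hxY) := by
    intro n q hq
    have h1 := Pool.H53.SH.hom_mem_Lay n q hq
    unfold Pool.H53.SH.Lay at h1
    induction h1 using Submodule.span_induction with
    | mem x hx =>
      obtain ⟨j, l, -, h, hh, rfl⟩ := hx
      rw [Pool.H53.SH.T_pow_r2]
      have h2 := hx_apply_span l hh
      refine Submodule.span_mono ?_ h2
      rintro _ ⟨m, rfl⟩
      exact ⟨⟨l, m⟩, rfl⟩
    | zero => rw [map_zero]; exact Submodule.zero_mem _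
    | add x y hx' hy' hx hy =>
      rw [map_add]
      exact Submodule.add_mem _ (hx (Pool.H53.SH.Lay_hom hx')) (hy (Pool.H53.SH.Lay_hom hy'))
    | smul c x hx' hx =>
      rw [map_smul]
      exact Submodule.smul_mem _ _ (hx (Pool.H53.SH.Lay_hom hx'))
  rw [← MvPolynomial.sum_homogeneousComponent p, map_sum]
  exact Submodule.sum_mem _ fun n _ =>
    hhom n _ (MvPolynomial.homogeneousComponent_isHomogeneous n p)

private theorem hx_LL (a : Fin 3) (p : P3) : LL a (pf p) = pf (LD a p) := by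
  funext x
  rw [LL_eq_Ld, Pool.H53.SH.Ld_pf]

private theorem hx_eig (l : ℕ) (i : Fin (dm l)) (y : E) :
    ∑ a, LL a (LL a (pf (hxP l i))) y = -((l : ℝ) * (l + 1)) * pf (hxP l i) y := by
  have h := Pool.H53.SH.sum_LD_LD_Harm (hxP_mem l i)
  rw [Fin.sum_univ_three]
  simp only [hx_LL]
  rw [← Pool.H53.SH.pf_add, ← Pool.H53.SH.pf_add, h, Pool.H53.SH.pf_mul, Pool.H53.SH.pf_C]

/-- a polynomial function is a finite combination of harmonics on the sphere -/
private theorem hx_span (p : P3) : ∃ (N : ℕ) (a : (l : ℕ) → Fin (dm l) → ℝ),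
    ∀ y : S2, pf p y = ∑ l ∈ Finset.range N, ∑ i, a l i * pf (hxP l i) y := by
  have h := hx_T_mem_span p
  rw [Finsupp.mem_span_range_iff_exists_finsupp] at h
  obtain ⟨c, hc⟩ := h
  obtain ⟨N, hN⟩ : ∃ N : ℕ, ∀ q ∈ c.support, q.1 < N := by
    refine ⟨c.support.sup (fun q => q.1) + 1, fun q hq => Nat.lt_succ_of_le ?_⟩
    exact Finset.le_sup (f := fun q : (l : ℕ) × Fin (dm l) => q.1) hq
  refine ⟨N, fun l i => c ⟨l, i⟩, fun y => ?_⟩
  have h1 : T p = T (∑ l ∈ Finset.range N, ∑ i : Fin (dm l), c ⟨l, i⟩ • hxP l i) := by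
    rw [← hc, map_sum]
    simp only [map_sum, map_smul]
    rw [Finsupp.sum, Finset.sum_sigma']
    refine Finset.sum_subset_zero_on_sdiff ?_ ?_ ?_
    · intro q hq
      exact Finset.mem_sigma.2 ⟨Finset.mem_range.2 (hN q hq), Finset.mem_univ _⟩
    · intro q hq
      have : c q = 0 := Finsupp.notMem_support_iff.1 (Finset.mem_sdiff.1 hq).2
      show c ⟨q.1, q.2⟩ • T (hxP q.1 q.2) = 0
      rw [this, zero_smul]
    · intro q _; rfl
  rw [hx_T_eq h1 y]
  simp only [Pool.H53.SH.pf, map_sum, MvPolynomial.smul_eval]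

private theorem hx_complete (f : E → ℝ) (hf : Continuous f) (ε : ℝ) (hε : 0 < ε) :
    ∃ (N : ℕ) (a : (l : ℕ) → Fin (dm l) → ℝ),
      ∀ y : S2, |f y - ∑ l ∈ Finset.range N, ∑ i, a l i * pf (hxP l i) y| < ε := by
  obtain ⟨g, hg⟩ := ContinuousMap.exists_mem_subalgebra_near_continuous_of_separatesPoints
    _ Pool.H53.SH.rs_separates (fun y : S2 => f y) (hf.comp continuous_subtype_val) ε hε
  obtain ⟨p, hp⟩ := g.2
  obtain ⟨N, a, ha⟩ := hx_span p
  refine ⟨N, a, fun y => ?_⟩
  rw [← ha y]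
  have h1 := hg y
  have h2 : (g : C(S2, ℝ)) y = pf p y := by
    rw [← Pool.H53.SH.rs_apply, ← hp]; rfl
  rw [h2, Real.norm_eq_abs, abs_sub_comm] at h1
  exact h1

private theorem hx_parity (l : ℕ) (i : Fin (dm l)) (y : E) :
    pf (hxP l i) (-y) = (-1) ^ l * pf (hxP l i) y := by
  have h := Pool.H53.SH.pf_hom (Pool.H53.SH.mem_Harm.1 (hxP_mem l i)).1 (-1) y
  rwa [neg_smul, one_smul] at h

private theorem hx_T_ne {p : P3} {y : S2} (h : pf p y ≠ 0) : T p ≠ 0 := by
  intro h1
  have h2 : T p = T 0 := by rw [h1, map_zero]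
  exact h (by rw [hx_T_eq h2 y]; simp)

/-- the point `e_i` of the sphere -/
private noncomputable def hx_pt (i : Fin 3) : S2 := ⟨ee i, by simp⟩

private theorem hx_d0 : dm 0 = 1 := by
  have h1 : HS 0 = Submodule.span ℝ {T 1} := by
    unfold HS
    have h2 : Pool.H53.SH.Harm 0 = Submodule.span ℝ {(1 : P3)} := by
      ext p
      rw [Pool.H53.SH.mem_Harm, Submodule.mem_span_singleton]
      constructor
      · rintro ⟨h3, -⟩
        rw [← MvPolynomial.totalDegree_zero_iff_isHomogeneous,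
          MvPolynomial.totalDegree_eq_zero_iff_eq_C] at h3
        refine ⟨p.coeff 0, ?_⟩
        conv_rhs => rw [h3]
        rw [MvPolynomial.smul_eq_C_mul, mul_one]
      · rintro ⟨c, rfl⟩
        have h3 : (c • (1 : P3)).IsHomogeneous 0 := by
          rw [MvPolynomial.smul_eq_C_mul, mul_one]; exact MvPolynomial.isHomogeneous_C _ _
        exact ⟨h3, Pool.H53.SH.lap_hom_small (by norm_num) h3⟩
    rw [h2, Submodule.map_span, Set.image_singleton]
  unfold dm
  rw [h1]
  exact finrank_span_singleton (hx_T_ne (y := hx_pt 0) (by simp))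

private theorem hx_d1 : dm 1 = 3 := by
  have h1 : HS 1 = Submodule.span ℝ (Set.range fun i : Fin 3 => T (MvPolynomial.X i)) := by
    unfold HS
    have h2 : Pool.H53.SH.Harm 1 = Submodule.span ℝ (Set.range (MvPolynomial.X : Fin 3 → P3)) := by
      rw [← MvPolynomial.homogeneousSubmodule_one_eq_span_X]
      ext p
      rw [Pool.H53.SH.mem_Harm, MvPolynomial.mem_homogeneousSubmodule]
      exact ⟨fun h => h.1, fun h => ⟨h, Pool.H53.SH.lap_hom_small (by norm_num) h⟩⟩
    rw [h2, Submodule.map_span, ← Set.range_comp]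
    rfl
  have h2 : LinearIndependent ℝ fun i : Fin 3 => T (MvPolynomial.X i) := by
    rw [Fintype.linearIndependent_iff]
    intro c hc j
    have h3 : T (∑ i, c i • (MvPolynomial.X i : P3)) = T 0 := by
      rw [map_sum, map_zero, ← hc]
      exact Finset.sum_congr rfl fun i _ => by rw [map_smul]
    have h4 := hx_T_eq h3 (hx_pt j)
    rw [Pool.H53.SH.pf_zero] at h4
    rw [← h4]
    simp only [Pool.H53.SH.pf, map_sum, MvPolynomial.smul_eval, MvPolynomial.eval_X]
    rw [Finset.sum_eq_single j]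
    · simp [hx_pt]
    · intro i _ hij
      simp [hx_pt, hij]
    · intro h; exact absurd (Finset.mem_univ _) h
  unfold dm
  rw [h1, finrank_span_eq_card h2]
  rfl

/-- a harmonic polynomial with prescribed parities is a combination of the basis polynomials with
these parities -/
private theorem hx_card (l : ℕ) (Q : (Fin 3 → Bool) → Prop) [DecidablePred Q]
    (W : Submodule ℝ (HS l)) (h1 : ∀ e, Q e → hxV l e ≤ W)
    (h2 : ∀ e, ¬ Q e → ∀ v ∈ hxV l e, ∀ x ∈ W, ⟪v, x⟫_ℝ = 0) :
    (Finset.univ.filter fun i : Fin (dm l) => Q (hxE l i)).card = Module.finrank ℝ W := by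
  have hsub := fun i => (hxV_int l).subordinateOrthonormalBasis_subordinate (n := dm l) rfl i
    (hxV_orth l)
  have hW : W = Submodule.span ℝ (Set.range fun i : {i : Fin (dm l) // Q (hxE l i)} =>
      hxB l i.1) := by
    apply le_antisymm
    · intro x hx
      have h3 := (hxB l).sum_repr' x
      rw [← h3]
      refine Submodule.sum_mem _ fun i _ => ?_
      by_cases hi : Q (hxE l i)
      · exact Submodule.smul_mem _ _ (Submodule.subset_span ⟨⟨i, hi⟩, rfl⟩)
      · rw [h2 _ hi (hxB l i) (hsub i) x hx, zero_smul]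
        exact Submodule.zero_mem _
    · rw [Submodule.span_le]
      rintro _ ⟨i, rfl⟩
      exact h1 _ i.2 (hsub i.1)
  have hli : LinearIndependent ℝ fun i : {i : Fin (dm l) // Q (hxE l i)} => hxB l i.1 :=
    (hxB l).orthonormal.linearIndependent.comp _ Subtype.val_injective
  rw [hW, finrank_span_eq_card hli, Fintype.card_subtype]

private theorem hx_sup {l : ℕ} {p : P3} (hp : p.IsHomogeneous l) {j : Fin 3} {b : Bool}
    (hR : hxR j p = hxs b • p) {m : Fin 3 →₀ ℕ} (hm : p.coeff m ≠ 0) :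
    m 0 + m 1 + m 2 = l ∧ (-1 : ℝ) ^ (m j) = hxs b := by
  constructor
  · have h1 : m.degree = l := by
      by_contra h
      exact hm (hp.coeff_eq_zero h)
    rw [Finsupp.degree_eq_sum, Fin.sum_univ_three] at h1
    exact h1
  · have h1 := hx_coeff j p m
    rw [hR, MvPolynomial.coeff_smul, smul_eq_mul] at h1
    exact (mul_right_cancel₀ hm h1).symm

/-- the element of `HS l` of a harmonic polynomial -/
private noncomputable def hxt {l : ℕ} (p : P3) (hp : p ∈ Pool.H53.SH.Harm l) : HS l :=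
  ⟨T p, p, hp, rfl⟩

private theorem hx_odd {l : ℕ} {x : HS l} {j : Fin 3} {b : Bool}
    (hx : hxH l j x = hxs b • x) {p : P3} (hp : p ∈ Pool.H53.SH.Harm l)
    (hpx : T p = (x : Lp ℝ 2 Pool.H53.SH.sig)) : hxR j p = hxs b • p := by
  refine hx_T_inj (l := l) (hx_hom (Pool.H53.SH.mem_Harm.1 hp).1 j) ?_ ?_
  · rw [MvPolynomial.smul_eq_C_mul]
    exact (Pool.H53.SH.mem_Harm.1 hp).1.C_mul _
  · have h1 := congrArg (fun x : HS l => (x : Lp ℝ 2 Pool.H53.SH.sig)) hx
    simp only [hxH_coe, Submodule.coe_smul] at h1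
    rw [← hpx, hxL_T] at h1
    rw [h1, map_smul]

/-- odd in `x_0` -/
private noncomputable def hxWa (l : ℕ) : Submodule ℝ (HS l) :=
  Module.End.eigenspace (hxH l 0) (hxs true)

/-- odd in `x_0`, even in `x_1` -/
private noncomputable def hxWb (l : ℕ) : Submodule ℝ (HS l) :=
  Module.End.eigenspace (hxH l 0) (hxs true) ⊓ Module.End.eigenspace (hxH l 1) (hxs false)

private theorem hx_perp {l : ℕ} {j : Fin 3} {b c : Bool} (hbc : b ≠ c) {v x : HS l}
    (hv : hxH l j v = hxs b • v) (hx : hxH l j x = hxs c • x) : ⟪v, x⟫_ℝ = 0 := by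
  have h1 := hxH_inner l j v x
  rw [hv, hx, Submodule.coe_inner, Submodule.coe_smul, Submodule.coe_smul,
    real_inner_smul_left, real_inner_smul_right, ← Submodule.coe_inner] at h1
  have h2 : hxs b * hxs c = -1 := by
    cases b <;> cases c <;> simp [hxs] at hbc ⊢
  have h3 : hxs b * (hxs c * ⟪v, x⟫_ℝ) = -⟪v, x⟫_ℝ := by rw [← mul_assoc, h2]; ring
  linarith

private theorem hx_carda (l : ℕ) :
    (Finset.univ.filter fun i : Fin (dm l) => hxE l i 0 = true).card =
      Module.finrank ℝ (hxWa l) := by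
  refine hx_card l (fun e => e 0 = true) (hxWa l) ?_ ?_
  · intro e he x hx
    unfold hxWa
    rw [Module.End.mem_eigenspace_iff, hx_mem_V.1 hx 0, he]
  · intro e he v hv x hx
    unfold hxWa at hx
    rw [Module.End.mem_eigenspace_iff] at hx
    exact hx_perp he (hx_mem_V.1 hv 0) hx

private theorem hx_cardb (l : ℕ) :
    (Finset.univ.filter fun i : Fin (dm l) => hxE l i 0 = true ∧ hxE l i 1 = false).card =
      Module.finrank ℝ (hxWb l) := by
  refine hx_card l (fun e => e 0 = true ∧ e 1 = false) (hxWb l) ?_ ?_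
  · intro e he x hx
    unfold hxWb
    rw [Submodule.mem_inf, Module.End.mem_eigenspace_iff, Module.End.mem_eigenspace_iff,
      hx_mem_V.1 hx 0, hx_mem_V.1 hx 1, he.1, he.2]
    exact ⟨rfl, rfl⟩
  · intro e he v hv x hx
    unfold hxWb at hx
    rw [Submodule.mem_inf, Module.End.mem_eigenspace_iff, Module.End.mem_eigenspace_iff] at hx
    by_cases h0 : e 0 = true
    · exact hx_perp (fun h => he ⟨h0, h⟩) (hx_mem_V.1 hv 1) hx.2
    · exact hx_perp h0 (hx_mem_V.1 hv 0) hx.1

private theorem hx_X_mem (i : Fin 3) : (MvPolynomial.X i : P3) ∈ Pool.H53.SH.Harm 1 := by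
  rw [Pool.H53.SH.mem_Harm]
  exact ⟨MvPolynomial.isHomogeneous_X _ _,
    Pool.H53.SH.lap_hom_small (by norm_num) (MvPolynomial.isHomogeneous_X _ _)⟩

private theorem hx_XX_mem (i j : Fin 3) (hij : i ≠ j) :
    (MvPolynomial.X i * MvPolynomial.X j : P3) ∈ Pool.H53.SH.Harm 2 := by
  rw [Pool.H53.SH.mem_Harm]
  refine ⟨(MvPolynomial.isHomogeneous_X ℝ i).mul (MvPolynomial.isHomogeneous_X ℝ j), ?_⟩
  have key : ∀ k : Fin 3, MvPolynomial.pderiv k (MvPolynomial.pderiv k
      (MvPolynomial.X i * MvPolynomial.X j : P3)) = 0 := by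
    intro k
    rw [MvPolynomial.pderiv_mul, map_add, MvPolynomial.pderiv_mul, MvPolynomial.pderiv_mul]
    by_cases hi : i = k
    · subst hi
      rw [MvPolynomial.pderiv_X_self, MvPolynomial.pderiv_X_of_ne (Ne.symm hij)]
      simp
    · rw [MvPolynomial.pderiv_X_of_ne hi]
      by_cases hj : j = k
      · subst hj
        rw [MvPolynomial.pderiv_X_self]
        simp
      · rw [MvPolynomial.pderiv_X_of_ne hj]
        simp
  rw [Pool.H53.SH.lap_apply, key, key, key]
  simp

private theorem hx_pow_odd {n : ℕ} (h : (-1 : ℝ) ^ n = hxs true) : Odd n := by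
  by_contra hn
  rw [Nat.not_odd_iff_even] at hn
  rw [hn.neg_one_pow] at h
  simp [hxs] at h
  norm_num at h

private theorem hx_pow_even {n : ℕ} (h : (-1 : ℝ) ^ n = hxs false) : Even n := by
  by_contra hn
  rw [Nat.not_even_iff_odd] at hn
  rw [hn.neg_one_pow] at h
  simp [hxs] at h
  norm_num at h

private theorem hx_p1 {p : P3} (hp : p.IsHomogeneous 1) (hR : hxR 0 p = hxs true • p) :
    ∃ c : ℝ, p = c • MvPolynomial.X 0 := by
  refine ⟨p.coeff (Finsupp.single 0 1), ?_⟩
  ext m
  rw [MvPolynomial.coeff_smul, MvPolynomial.coeff_X]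
  by_cases hm : p.coeff m = 0
  · rw [hm]
    split_ifs with h
    · rw [h, hm]; simp
    · simp
  · obtain ⟨h1, h2⟩ := hx_sup hp hR hm
    have h3 := hx_pow_odd h2
    have h4 : m = Finsupp.single 0 1 := by
      have := h3.pos
      ext k
      fin_cases k
      · simp; omega
      · simp; omega
      · simp; omega
    rw [← h4]; simp

private theorem hx_p2 {p : P3} (hp : p.IsHomogeneous 2) (hR : hxR 0 p = hxs true • p) :
    p = (p.coeff (Finsupp.single 0 1 + Finsupp.single 1 1)) •
        (MvPolynomial.X 0 * MvPolynomial.X 1) +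
      (p.coeff (Finsupp.single 0 1 + Finsupp.single 2 1)) •
        (MvPolynomial.X 0 * MvPolynomial.X 2) := by
  have e1 : (MvPolynomial.X 0 * MvPolynomial.X 1 : P3) =
      MvPolynomial.monomial (Finsupp.single 0 1 + Finsupp.single 1 1) 1 := by
    simp [MvPolynomial.X, MvPolynomial.monomial_mul]
  have e2 : (MvPolynomial.X 0 * MvPolynomial.X 2 : P3) =
      MvPolynomial.monomial (Finsupp.single 0 1 + Finsupp.single 2 1) 1 := by
    simp [MvPolynomial.X, MvPolynomial.monomial_mul]
  have hne : (Finsupp.single 0 1 + Finsupp.single 1 1 : Fin 3 →₀ ℕ) ≠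
      Finsupp.single 0 1 + Finsupp.single 2 1 := by
    intro h
    have := DFunLike.congr_fun h 1
    simp at this
  ext m
  rw [MvPolynomial.coeff_add, MvPolynomial.coeff_smul, MvPolynomial.coeff_smul, e1, e2,
    MvPolynomial.coeff_monomial, MvPolynomial.coeff_monomial]
  by_cases hm : p.coeff m = 0
  · rw [hm]
    split_ifs with h h' h'
    · exact absurd (h.trans h'.symm) hne
    · rw [h, hm]; simp
    · rw [h', hm]; simp
    · simp
  · obtain ⟨h1, h2⟩ := hx_sup hp hR hm
    have h3 := hx_pow_odd h2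
    have h30 : m 0 = 1 := by
      rcases h3 with ⟨k, hk⟩
      omega
    by_cases h5 : m 1 = 1
    · have h4 : m = Finsupp.single 0 1 + Finsupp.single 1 1 := by
        ext k
        fin_cases k
        · simp; omega
        · simp; omega
        · simp; omega
      rw [← h4, if_pos rfl, if_neg (by rw [h4]; exact fun h => hne h.symm)]; simp
    · have h4 : m = Finsupp.single 0 1 + Finsupp.single 2 1 := by
        ext k
        fin_cases k
        · simp; omega
        · simp; omega
        · simp; omega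
      rw [← h4, if_pos rfl, if_neg (by rw [h4]; exact hne)]; simp

private theorem hxs_true : hxs true = -1 := by simp [hxs]
private theorem hxs_false : hxs false = 1 := by simp [hxs]

private theorem hxt_eig {l : ℕ} {p : P3} (hp : p ∈ Pool.H53.SH.Harm l) {j : Fin 3} {b : Bool}
    (hR : hxR j p = hxs b • p) : hxH l j (hxt p hp) = hxs b • hxt p hp := by
  apply Subtype.ext
  rw [hxH_coe, Submodule.coe_smul]
  change hxL j (T p) = hxs b • T p
  rw [hxL_T, hR, map_smul]

private theorem hxR_X0 : hxR 0 (MvPolynomial.X 0) = hxs true • (MvPolynomial.X 0 : P3) := by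
  rw [hx_R_X, if_pos rfl, hxs_true, neg_smul, one_smul]

private theorem hxR_X1 (j : Fin 3) (hj : j ≠ 0) :
    hxR j (MvPolynomial.X 0) = hxs false • (MvPolynomial.X 0 : P3) := by
  rw [hx_R_X, if_neg (Ne.symm hj), hxs_false, one_smul]

private theorem hx_fa1 : hxWa 1 = Submodule.span ℝ {hxt (MvPolynomial.X 0) (hx_X_mem 0)} := by
  apply le_antisymm
  · intro x hx
    unfold hxWa at hx
    rw [Module.End.mem_eigenspace_iff] at hx
    obtain ⟨p, hp, hpx⟩ := x.2
    obtain ⟨c, hc⟩ := hx_p1 (Pool.H53.SH.mem_Harm.1 hp).1 (hx_odd hx hp hpx)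
    rw [Submodule.mem_span_singleton]
    refine ⟨c, Subtype.ext ?_⟩
    rw [← hpx, hc, map_smul]
    rfl
  · rw [Submodule.span_singleton_le_iff_mem]
    unfold hxWa
    rw [Module.End.mem_eigenspace_iff]
    exact hxt_eig _ hxR_X0

private theorem hx_fb1 : hxWb 1 = Submodule.span ℝ {hxt (MvPolynomial.X 0) (hx_X_mem 0)} := by
  apply le_antisymm
  · rw [← hx_fa1]
    exact inf_le_left
  · rw [Submodule.span_singleton_le_iff_mem]
    unfold hxWb
    rw [Submodule.mem_inf, Module.End.mem_eigenspace_iff, Module.End.mem_eigenspace_iff]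
    exact ⟨hxt_eig _ hxR_X0, hxt_eig _ (hxR_X1 1 (by decide))⟩

private theorem hxt_ne {l : ℕ} {p : P3} (hp : p ∈ Pool.H53.SH.Harm l) (h0 : p ≠ 0) :
    hxt p hp ≠ 0 := by
  intro h
  apply h0
  refine hx_T_inj (l := l) (Pool.H53.SH.mem_Harm.1 hp).1 (MvPolynomial.isHomogeneous_zero _ _ _) ?_
  have := congrArg (fun x : HS l => (x : Lp ℝ 2 Pool.H53.SH.sig)) h
  rw [map_zero]
  exact this

private theorem hx_XX_ne (i j : Fin 3) : (MvPolynomial.X i * MvPolynomial.X j : P3) ≠ 0 :=
  mul_ne_zero (MvPolynomial.X_ne_zero _) (MvPolynomial.X_ne_zero _)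

private theorem hx_na1 : Module.finrank ℝ (hxWa 1) = 1 := by
  rw [hx_fa1]
  exact finrank_span_singleton (hxt_ne _ (MvPolynomial.X_ne_zero _))

private theorem hx_nb1 : Module.finrank ℝ (hxWb 1) = 1 := by
  rw [hx_fb1]
  exact finrank_span_singleton (hxt_ne _ (MvPolynomial.X_ne_zero _))

private theorem hx_fa2 : hxWa 2 = Submodule.span ℝ (Set.range
    ![hxt (MvPolynomial.X 0 * MvPolynomial.X 1) (hx_XX_mem 0 1 (by decide)),
      hxt (MvPolynomial.X 0 * MvPolynomial.X 2) (hx_XX_mem 0 2 (by decide))]) := by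
  apply le_antisymm
  · intro x hx
    unfold hxWa at hx
    rw [Module.End.mem_eigenspace_iff] at hx
    obtain ⟨p, hp, hpx⟩ := x.2
    have hc := hx_p2 (Pool.H53.SH.mem_Harm.1 hp).1 (hx_odd hx hp hpx)
    have hx2 : x = (p.coeff (Finsupp.single 0 1 + Finsupp.single 1 1)) •
        hxt (MvPolynomial.X 0 * MvPolynomial.X 1) (hx_XX_mem 0 1 (by decide)) +
      (p.coeff (Finsupp.single 0 1 + Finsupp.single 2 1)) •
        hxt (MvPolynomial.X 0 * MvPolynomial.X 2) (hx_XX_mem 0 2 (by decide)) := by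
      apply Subtype.ext
      rw [← hpx]
      conv_lhs => rw [hc]
      rw [map_add, map_smul, map_smul]
      rfl
    rw [hx2]
    exact Submodule.add_mem _ (Submodule.smul_mem _ _ (Submodule.subset_span ⟨0, rfl⟩))
      (Submodule.smul_mem _ _ (Submodule.subset_span ⟨1, rfl⟩))
  · rw [Submodule.span_le]
    rintro _ ⟨k, rfl⟩
    unfold hxWa
    rw [SetLike.mem_coe, Module.End.mem_eigenspace_iff]
    fin_cases k
    · exact hxt_eig (hx_XX_mem 0 1 (by decide))
        (by rw [map_mul, hxR_X0, hx_R_X, if_neg (by decide), smul_mul_assoc])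
    · exact hxt_eig (hx_XX_mem 0 2 (by decide))
        (by rw [map_mul, hxR_X0, hx_R_X, if_neg (by decide), smul_mul_assoc])

private theorem hx_na2 : Module.finrank ℝ (hxWa 2) = 2 := by
  rw [hx_fa2]
  have hli : LinearIndependent ℝ
    ![hxt (MvPolynomial.X 0 * MvPolynomial.X 1) (hx_XX_mem 0 1 (by decide)),
      hxt (MvPolynomial.X 0 * MvPolynomial.X 2) (hx_XX_mem 0 2 (by decide))] := by
    rw [LinearIndependent.pair_iff]
    intro s t hst
    have h1 : T (s • (MvPolynomial.X 0 * MvPolynomial.X 1) +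
        t • (MvPolynomial.X 0 * MvPolynomial.X 2)) = T 0 := by
      rw [map_add, map_smul, map_smul, map_zero]
      exact congrArg (fun x : HS 2 => (x : Lp ℝ 2 Pool.H53.SH.sig)) hst
    have h2 : s • (MvPolynomial.X 0 * MvPolynomial.X 1) +
        t • (MvPolynomial.X 0 * MvPolynomial.X 2) = (0 : P3) := by
      refine hx_T_inj (l := 2) ?_ (MvPolynomial.isHomogeneous_zero _ _ _) h1
      refine MvPolynomial.IsHomogeneous.add ?_ ?_
      · rw [MvPolynomial.smul_eq_C_mul]
        exact ((MvPolynomial.isHomogeneous_X ℝ 0).mul (MvPolynomial.isHomogeneous_X ℝ 1)).C_mul _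
      · rw [MvPolynomial.smul_eq_C_mul]
        exact ((MvPolynomial.isHomogeneous_X ℝ 0).mul (MvPolynomial.isHomogeneous_X ℝ 2)).C_mul _
    have h3 := congrArg (MvPolynomial.eval ![(1 : ℝ), 1, 0]) h2
    have h4 := congrArg (MvPolynomial.eval ![(1 : ℝ), 0, 1]) h2
    simp [MvPolynomial.smul_eval] at h3 h4
    exact ⟨h3, h4⟩
  rw [finrank_span_eq_card hli]
  rfl

private theorem hx_fb2 : hxWb 2 = Submodule.span ℝ
    {hxt (MvPolynomial.X 0 * MvPolynomial.X 2) (hx_XX_mem 0 2 (by decide))} := by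
  apply le_antisymm
  · intro x hx
    unfold hxWb at hx
    rw [Submodule.mem_inf, Module.End.mem_eigenspace_iff, Module.End.mem_eigenspace_iff] at hx
    obtain ⟨p, hp, hpx⟩ := x.2
    have hc := hx_p2 (Pool.H53.SH.mem_Harm.1 hp).1 (hx_odd hx.1 hp hpx)
    have h0 : p.coeff (Finsupp.single 0 1 + Finsupp.single 1 1) = 0 := by
      by_contra h
      have h1 := hx_pow_even (hx_sup (Pool.H53.SH.mem_Harm.1 hp).1 (hx_odd hx.2 hp hpx) h).2
      simp at h1
    rw [h0, zero_smul, zero_add] at hc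
    rw [Submodule.mem_span_singleton]
    refine ⟨p.coeff (Finsupp.single 0 1 + Finsupp.single 2 1), Subtype.ext ?_⟩
    rw [← hpx]
    conv_rhs => rw [hc]
    rw [map_smul]
    rfl
  · rw [Submodule.span_singleton_le_iff_mem]
    unfold hxWb
    rw [Submodule.mem_inf, Module.End.mem_eigenspace_iff, Module.End.mem_eigenspace_iff]
    refine ⟨hxt_eig _ ?_, hxt_eig _ ?_⟩
    · rw [map_mul, hxR_X0, hx_R_X, if_neg (by decide), smul_mul_assoc]
    · rw [map_mul, hxR_X1 1 (by decide), hx_R_X, if_neg (by decide), smul_mul_assoc]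

private theorem hx_nb2 : Module.finrank ℝ (hxWb 2) = 1 := by
  rw [hx_fb2]
  exact finrank_span_singleton (hxt_ne _ (hx_XX_ne 0 2))

private theorem hx_a0 (i : Fin (dm 0)) : hxs (hxE 0 i 0) = 1 := by
  have h1 := hxP_refl 0 i 0
  have h2 := (Pool.H53.SH.mem_Harm.1 (hxP_mem 0 i)).1
  rw [← MvPolynomial.totalDegree_zero_iff_isHomogeneous,
    MvPolynomial.totalDegree_eq_zero_iff_eq_C] at h2
  have h3 : hxR 0 (hxP 0 i) = hxP 0 i := by
    conv_lhs => rw [h2]
    conv_rhs => rw [h2]
    simp [hxR]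
  have h4 : hxP 0 i ≠ 0 := by
    intro h
    have h5 := hxP_T 0 i
    rw [h, map_zero] at h5
    have h6 := (hxB 0).orthonormal.1 i
    have h7 : hxB 0 i = 0 := Subtype.ext h5.symm
    rw [h7, norm_zero] at h6
    exact zero_ne_one h6
  rw [h3] at h1
  have h5 : (hxs (hxE 0 i 0) - 1) • hxP 0 i = 0 := by rw [sub_smul, ← h1, one_smul, sub_self]
  rcases smul_eq_zero.1 h5 with h6 | h6
  · linarith
  · exact absurd h6 h4

private theorem hxs_eq_true (b : Bool) : hxs b = -1 ↔ b = true := by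
  cases b
  · simp only [hxs_false]; norm_num
  · simp [hxs_true]

private theorem hxs_eq_false (b : Bool) : hxs b = 1 ↔ b = false := by
  cases b
  · simp [hxs_false]
  · simp only [hxs_true]; norm_num

theorem exists_harmP : Nonempty HarmP := by
  refine ⟨{ d := dm
            Y := fun l i => pf (hxP l i)
            smooth := fun l i => Pool.H53.SH.contDiff_pf _
            eig := fun l i y _ => hx_eig l i y
            orth := ?_
            complete := hx_complete
            parity := fun l i y _ => hx_parity l i y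
            d0 := hx_d0
            d1 := hx_d1
            p := fun l i j => hxs (hxE l i j)
            p_sign := ?_
            refl := ?_
            a0 := hx_a0
            a1 := ?_
            a2 := ?_
            b1 := ?_
            b2 := ?_ }⟩
  · intro p q
    have h1 := Pool.H53.SH.inner_T (hxP p.1 p.2) (hxP q.1 q.2)
    have h2 := (orthonormal_iff_ite.1 hxY_orth) p q
    rw [← h2]
    exact h1.symm
  · intro l i j
    cases hxE l i j
    · left; exact hxs_false
    · right; exact hxs_true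
  · intro l i j y _
    rw [← hx_pf_R, hxP_refl, Pool.H53.SH.pf_smul]
  · simp only [hxs_eq_true]
    rw [hx_carda, hx_na1]
  · simp only [hxs_eq_true]
    rw [hx_carda, hx_na2]
  · simp only [hxs_eq_true, hxs_eq_false]
    rw [hx_cardb, hx_nb1]
  · simp only [hxs_eq_true, hxs_eq_false]
    rw [hx_cardb, hx_nb2]

end Pool.Agent.H68.SM
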