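import Pool.Agent.H68.SM.Defs
import Pool.Agent.H68.SC.Ext
import Pool.Agent.H68.SC.Kill

/-!
# Module Inv (about 150 lines): symmetries of `U` are symmetries of `D`

PROOF.
* `inv_of`: `U = extU D c u`, `h' = ext_UU h`. Let `B = {y ∈ D | g y ∉ D}`. For `y ∈ B`, `U y = U (g y) = 0`.
  `B` has empty interior: if `U = 0` on a nonempty open subset of `D` then `helm` gives `k² c = 0`.
  So `{y ∈ D | g y ∈ D}` is dense in `D`. Let `x ∈ D`. Near `g x` every point is `g y` with `y` near
  `x`, `y ∈ D`; `φ (g y) < 0` for a dense set of such `y`, so `φ ≤ 0` near `g x` (continuity; `g` is a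
  homeomorphism). If `g x ∉ D` then `φ (g x) = 0` is a local maximum of `φ`, so
  `fderiv ℝ φ (g x) = 0` (`IsLocalMax.fderiv_eq_zero`), against `reg`.
* `rot_inv`: `rot θ x = (cos θ x_0 - sin θ x_1, sin θ x_0 + cos θ x_1, x_2)`. `θ ↦ U (rot θ x)` has derivative
  `fderiv ℝ U (rot θ x) (crs (ee 2) (rot θ x)) = ww U (0, ee 2) (rot θ x) = 0` (`crs (ee 2) y = (-y_1, y_0, 0)`), so it is
  constant (`is_const_of_deriv_eq_zero`).
* `refl_even`: `rf 0 x` and `rf 1 x` are of the form `rot θ x` (same `x_2`, same `x_0² + x_1²`); `rot_inv`.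
* `refl_inv`: under the hypotheses `x ∈ D → rot θ x ∈ D` for all `θ` (`inv_of` with the homeomorphism
  `rot θ`, inverse `rot (-θ)`), and `rf 0 x`, `rf 1 x` are of the form `rot θ x` (same `x_2` and same
  `x_0² + x_1²`).
-/

set_option autoImplicit false

namespace Pool.Agent.H68.SM

open Filter Topology MeasureTheory Metric
open scoped ContDiff
open Pool.Agent.H68.SC

theorem inv_of {D : Set E} {φ : E → ℝ} {k c : ℝ} {u : E → ℝ} (h : Sol D φ k c u) (g : E ≃ₜ E)
    (hg : ∀ x, extU D c u (g x) = extU D c u x) : ∀ x ∈ D, g x ∈ D := by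
  have h' := ext_UU h
  set U : E → ℝ := extU D c u with hU
  have hφ : Continuous φ := h.smooth.continuous
  -- `U` does not vanish on a nonempty open subset
  have key : ∀ V : Set E, IsOpen V → V ⊆ D → ∀ y ∈ V, ∃ z ∈ V, U z ≠ 0 := by
    intro V hV hVD y hy
    by_contra hcon
    push Not at hcon
    have e1 : ∀ z ∈ V, fderiv ℝ U z = 0 := by
      intro z hz
      have : U =ᶠ[𝓝 z] fun _ => (0 : ℝ) := by
        filter_upwards [hV.mem_nhds hz] with w hw
        exact hcon w hw
      rw [this.fderiv_eq]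
      simp
    have e2 : ∀ i : Fin 3, pd (pd U i) i y = 0 := by
      intro i
      have : pd U i =ᶠ[𝓝 y] fun _ => (0 : ℝ) := by
        filter_upwards [hV.mem_nhds hy] with w hw
        unfold pd
        rw [e1 w hw]
        rfl
      change fderiv ℝ (pd U i) y (ee i) = 0
      rw [this.fderiv_eq]
      simp
    have e3 := h'.helm y (hVD hy)
    rw [Finset.sum_eq_zero fun i _ => e2 i, hcon y hy] at e3
    have h1 : k ^ 2 * c = 0 := by linarith
    rcases mul_eq_zero.1 h1 with h2 | h2
    · exact (pow_ne_zero 2 h'.kpos.ne') h2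
    · exact h'.cne h2
  have hDφ : ∀ z, z ∈ D ↔ φ z < 0 := by
    intro z
    rw [h.eqD]
    exact Iff.rfl
  intro x hx
  by_contra hgx
  have hle : ∀ z ∈ g '' D, φ z ≤ 0 := by
    rintro z ⟨y, hy, rfl⟩
    by_contra hpos
    push Not at hpos
    obtain ⟨y', hy', hne⟩ := key (D ∩ {y | 0 < φ (g y)})
      (h'.opn.inter (isOpen_lt continuous_const (hφ.comp g.continuous))) Set.inter_subset_left
      y ⟨hy, hpos⟩
    have h1 : U (g y') ≠ 0 := by
      rw [hg y']
      exact hne
    have h2 : g y' ∈ D := by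
      by_contra hn
      exact h1 (h'.out _ hn).1
    have h3 : φ (g y') < 0 := (hDφ _).1 h2
    have h4 : 0 < φ (g y') := hy'.2
    linarith
  have hnb : g '' D ∈ 𝓝 (g x) := (g.isOpenMap D h'.opn).mem_nhds ⟨x, hx, rfl⟩
  have hx0 : φ (g x) = 0 := by
    apply le_antisymm (hle _ ⟨x, hx, rfl⟩)
    by_contra hneg
    push Not at hneg
    exact hgx ((hDφ _).2 hneg)
  have hmax : IsLocalMax φ (g x) := by
    filter_upwards [hnb] with z hz
    rw [hx0]
    exact hle z hz
  exact h.reg (g x) hx0 hmax.fderiv_eq_zero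

/-- rotation about the third axis -/
noncomputable def rot (θ : ℝ) (x : E) : E :=
  !₂[Real.cos θ * x 0 - Real.sin θ * x 1, Real.sin θ * x 0 + Real.cos θ * x 1, x 2]

private theorem rot_eq (θ : ℝ) (x : E) : rot θ x =
    Real.cos θ • (!₂[x 0, x 1, 0] : E) + Real.sin θ • (!₂[-x 1, x 0, 0] : E) +
      (!₂[0, 0, x 2] : E) := by
  ext i
  unfold rot
  fin_cases i
  · simp; ring
  · simp; ring
  · simp

private theorem rot_eq2 (θ : ℝ) (x : E) : rot θ x =
    x 0 • (!₂[Real.cos θ, Real.sin θ, 0] : E) + x 1 • (!₂[-Real.sin θ, Real.cos θ, 0] : E) +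
      x 2 • (!₂[0, 0, 1] : E) := by
  ext i
  unfold rot
  fin_cases i
  · simp; ring
  · simp; ring
  · simp

private theorem rot_cont (θ : ℝ) : Continuous (rot θ) := by
  have h1 : rot θ = fun x : E => x 0 • (!₂[Real.cos θ, Real.sin θ, 0] : E) +
      x 1 • (!₂[-Real.sin θ, Real.cos θ, 0] : E) + x 2 • (!₂[0, 0, 1] : E) := by
    funext x
    exact rot_eq2 θ x
  rw [h1]
  have h0 : ∀ i : Fin 3, Continuous fun x : E => x i := fun i =>
    (EuclideanSpace.proj (𝕜 := ℝ) i : E →L[ℝ] ℝ).continuous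
  exact ((h0 0).smul continuous_const).add ((h0 1).smul continuous_const) |>.add
    ((h0 2).smul continuous_const)

private theorem rot_rot (θ : ℝ) (x : E) : rot (-θ) (rot θ x) = x := by
  have h1 := Real.sin_sq_add_cos_sq θ
  ext i
  unfold rot
  fin_cases i
  · simp
    linear_combination x 0 * h1
  · simp
    linear_combination x 1 * h1
  · simp

private theorem rot_deriv (θ : ℝ) (x : E) :
    HasDerivAt (fun t => rot t x) (crs (ee 2) (rot θ x)) θ := by
  have h1 : HasDerivAt (fun t : ℝ => Real.cos t • (!₂[x 0, x 1, 0] : E) +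
      Real.sin t • (!₂[-x 1, x 0, 0] : E) + (!₂[0, 0, x 2] : E))
      ((-Real.sin θ) • (!₂[x 0, x 1, 0] : E) + Real.cos θ • (!₂[-x 1, x 0, 0] : E)) θ :=
    (((Real.hasDerivAt_cos θ).smul_const _).add ((Real.hasDerivAt_sin θ).smul_const _)).add_const _
  have h2 : (fun t => rot t x) = fun t : ℝ => Real.cos t • (!₂[x 0, x 1, 0] : E) +
      Real.sin t • (!₂[-x 1, x 0, 0] : E) + (!₂[0, 0, x 2] : E) := by
    funext t
    exact rot_eq t x
  rw [h2]
  convert h1 using 1
  ext i
  unfold crs rot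
  fin_cases i
  · simp
    ring
  · simp
    ring
  · simp

theorem rot_inv {D : Set E} {k c : ℝ} {U : E → ℝ} (h : UU D k c U) (h0 : ww U (0, ee 2) = 0) :
    ∀ θ x, U (rot θ x) = U x := by
  intro θ x
  have hd : ∀ t, HasDerivAt (fun t => U (rot t x)) 0 t := by
    intro t
    have h1 : HasFDerivAt U (fderiv ℝ U (rot t x)) (rot t x) :=
      ((h.C1.differentiable one_ne_zero) _).hasFDerivAt
    have h2 := h1.comp_hasDerivAt t (rot_deriv t x)
    have h3 : fderiv ℝ U (rot t x) (crs (ee 2) (rot t x)) = 0 := by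
      have h4 := congrFun h0 (rot t x)
      unfold ww kf at h4
      simpa using h4
    rw [h3] at h2
    exact h2
  have h5 := is_const_of_deriv_eq_zero (f := fun t => U (rot t x))
    (fun t => (hd t).differentiableAt) (fun t => (hd t).deriv) θ 0
  have h6 : rot 0 x = x := by
    ext i
    unfold rot
    fin_cases i <;> simp
  simp only [h6] at h5
  exact h5

private theorem ex_rot (a b a' b' : ℝ) (h : a' ^ 2 + b' ^ 2 = a ^ 2 + b ^ 2) :
    ∃ θ : ℝ, Real.cos θ * a - Real.sin θ * b = a' ∧ Real.sin θ * a + Real.cos θ * b = b' := by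
  by_cases hw : a ^ 2 + b ^ 2 = 0
  · have h1 : a = 0 := by nlinarith [sq_nonneg a, sq_nonneg b]
    have h2 : b = 0 := by nlinarith [sq_nonneg a, sq_nonneg b]
    rw [hw] at h
    have h3 : a' = 0 := by nlinarith [sq_nonneg a', sq_nonneg b']
    have h4 : b' = 0 := by nlinarith [sq_nonneg a', sq_nonneg b']
    exact ⟨0, by rw [h1, h2, h3]; simp, by rw [h1, h2, h4]; simp⟩
  · set r : ℝ := a ^ 2 + b ^ 2 with hr
    set z : ℂ := ⟨(a' * a + b' * b) / r, (b' * a - a' * b) / r⟩ with hz
    have hn : ‖z‖ = 1 := by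
      have h1 : ‖z‖ ^ 2 = 1 := by
        rw [Complex.sq_norm, Complex.normSq_apply]
        change (a' * a + b' * b) / r * ((a' * a + b' * b) / r) +
          (b' * a - a' * b) / r * ((b' * a - a' * b) / r) = 1
        field_simp
        have h7 : (a' * a + b' * b) ^ 2 + (b' * a - a' * b) ^ 2 =
          (a' ^ 2 + b' ^ 2) * (a ^ 2 + b ^ 2) := by ring
        have h8 : (a' ^ 2 + b' ^ 2) * (a ^ 2 + b ^ 2) = r ^ 2 := by
          rw [h, ← hr]; ring
        linear_combination h7 + h8
      have h2 := norm_nonneg z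
      nlinarith
    have hc : Real.cos z.arg = z.re := by
      have := Complex.norm_mul_cos_arg z
      rw [hn, one_mul] at this
      exact this
    have hs : Real.sin z.arg = z.im := by
      have := Complex.norm_mul_sin_arg z
      rw [hn, one_mul] at this
      exact this
    refine ⟨z.arg, ?_, ?_⟩
    · rw [hc, hs]
      change (a' * a + b' * b) / r * a - (b' * a - a' * b) / r * b = a'
      field_simp
      rw [hr]
      ring
    · rw [hc, hs]
      change (b' * a - a' * b) / r * a + (a' * a + b' * b) / r * b = b'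
      field_simp
      rw [hr]
      ring

private theorem rf_rot (j : Fin 3) (hj : j ≠ 2) (x : E) : ∃ θ, rf j x = rot θ x := by
  have h2 : rf j x 2 = x 2 := by
    rw [rf_apply, if_neg (Ne.symm hj)]
  obtain ⟨θ, h3, h4⟩ := ex_rot (x 0) (x 1) (rf j x 0) (rf j x 1) (by
    rw [rf_apply, rf_apply]
    split_ifs <;> ring)
  refine ⟨θ, ?_⟩
  ext i
  unfold rot
  fin_cases i
  · simpa using h3.symm
  · simpa using h4.symm
  · simpa using h2

theorem refl_even {D : Set E} {k c : ℝ} {U : E → ℝ} (h : UU D k c U)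
    (h0 : ww U (0, ee 2) = 0) : ∀ j : Fin 3, j ≠ 2 → ∀ x, U (rf j x) = U x := by
  intro j hj x
  obtain ⟨θ, hθ⟩ := rf_rot j hj x
  rw [hθ]
  exact rot_inv h h0 θ x

theorem refl_inv {D : Set E} {φ : E → ℝ} {k c : ℝ} {u : E → ℝ} (h : Sol D φ k c u)
    (h0 : ww (extU D c u) (0, ee 2) = 0) : ∀ j : Fin 3, j ≠ 2 → ∀ x ∈ D, rf j x ∈ D := by
  intro j hj x hx
  obtain ⟨θ, hθ⟩ := rf_rot j hj x
  rw [hθ]
  let g : E ≃ₜ E :=
    { toFun := rot θ
      invFun := rot (-θ)
      left_inv := rot_rot θ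
      right_inv := fun y => by
        have := rot_rot (-θ) y
        rw [neg_neg] at this
        exact this
      continuous_toFun := rot_cont θ
      continuous_invFun := rot_cont (-θ) }
  exact inv_of h g (fun y => rot_inv (ext_UU h) h0 θ y) x hx

end Pool.Agent.H68.SM
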