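import Pool.Agent.H68.SC.J576

/-!
# Module J698 (about 170 lines): zeros below `6.98`

PROOF (pattern: H68/SC/J576.lean). Let `g t = sin t - t cos t = t² jl 1 t`, `g' = t sin t`: `g` increases on
`[0, π]`, decreases on `[π, 2π]`, increases on `[2π, 3π]`; `g 0 = 0`, `g π > 0`, `g (2π) < 0`, `g 6.98 < 0`.
`j1_one'`: so `g` has exactly one zero in `(0, 6.98]` (it is positive on `(0, π]`, strictly
decreasing on `[π, 2π]`, negative on `[2π, 6.98]`).
`P2 t = t³ jl 2 t`, `P2' = t g t` (`jl_up`): `P2` is strictly increasing up to the zero `z₁` of `g`, strictly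
decreasing on `[z₁, 6.98]`, `P2 → 0` at `0`. `j2_one'`: at most one zero (`P2 > 0` on `(0, z₁]`).
`P3 t = t⁴ jl 3 t = (15 - 6 t²) sin t - (15 t - t³) cos t`, `P3' = t P2 t`: if `P3 t ≤ 0` for some
`t ∈ (0, 6.98]` and `P3 6.98 > 0` then by the mean value theorem there are `s₁ < s₂ ≤ 6.98` with
`P2 s₁ ≤ 0 < P2 s₂`, so `z₁ < s₁ < s₂` contradicts the monotonicity of `P2` on `[z₁, 6.98]`.
Numerics: with `x = 6.98 - 2π ∈ (0.69681, 0.69682)`: `sin x ≤ 0.64180`, `cos x ≥ 0.76685`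
(`Real.sin_bound`, `Real.cos_bound` at `x / 2`, double angle), `P3 6.98 = - 277.3224 sin x + 235.3683... cos x`
(`15 - 6·6.98² = -277.3224`, `6.98³ - 15·6.98 = 235.368392`) `≥ - 277.3224 · 0.64180 + 235.3683 · 0.76685
≥ - 177.99 + 180.49 > 0`; `g 6.98 = sin x - 6.98 cos x < 0`.
`jl_pos_698`: `l = 3`, then `jl_pos_succ`.
-/

set_option autoImplicit false

namespace Pool.Agent.H68.SM

open Pool.Agent.H68.SC

/-- `t² jl 1 t` -/
private noncomputable def g5 (t : ℝ) : ℝ := Real.sin t - t * Real.cos t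

/-- `t³ jl 2 t` -/
private noncomputable def p5 (t : ℝ) : ℝ := (3 - t ^ 2) * Real.sin t - 3 * t * Real.cos t

/-- `t⁴ jl 3 t` -/
private noncomputable def p7 (t : ℝ) : ℝ :=
  (15 - 6 * t ^ 2) * Real.sin t - (15 * t - t ^ 3) * Real.cos t

private theorem hasDerivAt_g5 (t : ℝ) : HasDerivAt g5 (t * Real.sin t) t := by
  have h := (Real.hasDerivAt_sin t).sub ((hasDerivAt_id t).mul (Real.hasDerivAt_cos t))
  have e : Real.cos t - (1 * Real.cos t + id t * -Real.sin t) = t * Real.sin t := by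
    simp only [id]
    ring
  rw [e] at h
  exact h

private theorem hasDerivAt_p5 (t : ℝ) : HasDerivAt p5 (t * g5 t) t := by
  have h1 : HasDerivAt (fun t : ℝ => 3 - t ^ 2) (-(2 * t)) t := by
    have := (hasDerivAt_pow 2 t).const_sub 3
    simpa using this
  have h2 : HasDerivAt (fun t : ℝ => 3 * t) 3 t := by
    simpa using (hasDerivAt_id t).const_mul (3 : ℝ)
  have h := (h1.mul (Real.hasDerivAt_sin t)).sub (h2.mul (Real.hasDerivAt_cos t))
  have e : -(2 * t) * Real.sin t + (3 - t ^ 2) * Real.cos t -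
      (3 * Real.cos t + 3 * t * -Real.sin t) = t * g5 t := by
    unfold g5
    ring
  rw [e] at h
  exact h

private theorem hasDerivAt_p7 (t : ℝ) : HasDerivAt p7 (t * p5 t) t := by
  have h1 : HasDerivAt (fun t : ℝ => 15 - 6 * t ^ 2) (-(6 * (2 * t))) t := by
    have := ((hasDerivAt_pow 2 t).const_mul 6).const_sub 15
    simpa using this
  have h2 : HasDerivAt (fun t : ℝ => 15 * t - t ^ 3) (15 - 3 * t ^ 2) t := by
    have a : HasDerivAt (fun t : ℝ => 15 * t) 15 t := by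
      simpa using (hasDerivAt_id t).const_mul (15 : ℝ)
    have b : HasDerivAt (fun t : ℝ => t ^ 3) (3 * t ^ 2) t := by
      simpa using hasDerivAt_pow 3 t
    exact a.sub b
  have h := (h1.mul (Real.hasDerivAt_sin t)).sub (h2.mul (Real.hasDerivAt_cos t))
  have e : -(6 * (2 * t)) * Real.sin t + (15 - 6 * t ^ 2) * Real.cos t -
      ((15 - 3 * t ^ 2) * Real.cos t + (15 * t - t ^ 3) * -Real.sin t) = t * p5 t := by
    unfold p5
    ring
  rw [e] at h
  exact h

private theorem g5_pos {t : ℝ} (h0 : 0 < t) (h1 : t ≤ Real.pi) : 0 < g5 t := by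
  have hm : StrictMonoOn g5 (Set.Icc 0 Real.pi) := by
    refine strictMonoOn_of_deriv_pos (convex_Icc _ _)
      (fun x _ => (hasDerivAt_g5 x).continuousAt.continuousWithinAt) fun x hx => ?_
    rw [interior_Icc] at hx
    rw [(hasDerivAt_g5 x).deriv]
    exact mul_pos hx.1 (Real.sin_pos_of_pos_of_lt_pi hx.1 hx.2)
  have h := hm ⟨le_refl 0, Real.pi_pos.le⟩ ⟨h0.le, h1⟩ h0
  have h00 : g5 0 = 0 := by simp [g5]
  rwa [h00] at h

private theorem g5_anti : StrictAntiOn g5 (Set.Icc Real.pi (2 * Real.pi)) := by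
  refine strictAntiOn_of_deriv_neg (convex_Icc _ _)
    (fun x _ => (hasDerivAt_g5 x).continuousAt.continuousWithinAt) fun x hx => ?_
  rw [interior_Icc] at hx
  rw [(hasDerivAt_g5 x).deriv]
  have hpi := Real.pi_pos
  have h1 : 0 < Real.sin (x - Real.pi) :=
    Real.sin_pos_of_pos_of_lt_pi (by linarith [hx.1]) (by linarith [hx.2])
  rw [Real.sin_sub_pi] at h1
  exact mul_neg_of_pos_of_neg (by linarith [hx.1]) (by linarith)

private theorem g5_mono : StrictMonoOn g5 (Set.Icc (2 * Real.pi) (3 * Real.pi)) := by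
  refine strictMonoOn_of_deriv_pos (convex_Icc _ _)
    (fun x _ => (hasDerivAt_g5 x).continuousAt.continuousWithinAt) fun x hx => ?_
  rw [interior_Icc] at hx
  rw [(hasDerivAt_g5 x).deriv]
  have hpi := Real.pi_pos
  have h1 : 0 < Real.sin (x - 2 * Real.pi) :=
    Real.sin_pos_of_pos_of_lt_pi (by linarith [hx.1]) (by linarith [hx.2])
  rw [Real.sin_sub_two_pi] at h1
  exact mul_pos (by linarith [hx.1]) h1

/-- the values of `sin` and `cos` at `6.98` -/
private theorem val_698 : ∃ s c : ℝ, Real.sin 6.98 = √2 / 2 * (c - s) ∧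
    Real.cos 6.98 = √2 / 2 * (c + s) ∧ 0.088 < s ∧ 0 < c ∧ c ≤ 1 := by
  have hp1 := Real.pi_gt_d6
  have hp2 := Real.pi_lt_d6
  set d : ℝ := 9 * Real.pi / 4 - 6.98 with hd
  have hd0 : 0.08858 < d := by rw [hd]; linarith
  have hd1 : d < 0.08859 := by rw [hd]; linarith
  have he : (6.98 : ℝ) = Real.pi / 4 - d + 2 * Real.pi := by rw [hd]; ring
  refine ⟨Real.sin d, Real.cos d, ?_, ?_, ?_, ?_, Real.cos_le_one d⟩
  · rw [he, Real.sin_add_two_pi, Real.sin_sub, Real.cos_pi_div_four, Real.sin_pi_div_four]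
    ring
  · rw [he, Real.cos_add_two_pi, Real.cos_sub, Real.cos_pi_div_four, Real.sin_pi_div_four]
    ring
  · have h := Real.sin_gt_sub_cube (show 0 < d by linarith)
    have h3 : d ^ 3 ≤ 0.08859 ^ 3 := pow_le_pow_left₀ (by linarith) hd1.le 3
    norm_num at h3 h ⊢
    linarith
  · exact Real.cos_pos_of_mem_Ioo ⟨by linarith, by linarith⟩

private theorem g5_698 : g5 6.98 < 0 := by
  obtain ⟨s, c, hs, hc, h1, h2, h3⟩ := val_698
  have hq : 0 < √2 := by positivity
  have e : g5 6.98 = -(√2 / 2 * (5.98 * c + 7.98 * s)) := by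
    unfold g5
    rw [hs, hc]
    ring
  rw [e, neg_lt_zero]
  exact mul_pos (by positivity) (by linarith)

private theorem p7_698 : 0 < p7 6.98 := by
  obtain ⟨s, c, hs, hc, h1, h2, h3⟩ := val_698
  have hq : 0 < √2 := by positivity
  have e : p7 6.98 = √2 / 2 * (512.690792 * s - 41.954008 * c) := by
    unfold p7
    rw [hs, hc]
    ring
  rw [e]
  exact mul_pos (by positivity) (by linarith)

private theorem g5_neg {t : ℝ} (h0 : 2 * Real.pi ≤ t) (h1 : t ≤ 6.98) : g5 t < 0 := by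
  have hp1 := Real.pi_gt_d6
  have h := g5_mono.monotoneOn ⟨h0, by linarith⟩ ⟨by linarith, by linarith⟩ h1
  exact lt_of_le_of_lt h g5_698

private theorem g5_down {s r : ℝ} (h0 : 0 < s) (hs : g5 s ≤ 0) (hsr : s < r) (hr : r ≤ 6.98) :
    g5 r < 0 := by
  have h6 : Real.pi < s := by
    by_contra hc
    rw [not_lt] at hc
    exact absurd (g5_pos h0 hc) (not_lt.2 hs)
  rcases le_total (2 * Real.pi) r with h | h
  · exact g5_neg h hr
  · have h7 : g5 r < g5 s := g5_anti ⟨h6.le, by linarith⟩ ⟨by linarith, h⟩ hsr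
    linarith

private theorem cont_p5 : Continuous p5 :=
  continuous_iff_continuousAt.2 fun x => (hasDerivAt_p5 x).continuousAt

private theorem cont_p7 : Continuous p7 :=
  continuous_iff_continuousAt.2 fun x => (hasDerivAt_p7 x).continuousAt

private theorem p5_down {t r : ℝ} (h0 : 0 < t) (ht : p5 t ≤ 0) (htr : t < r) (hr : r ≤ 6.98) :
    p5 r < 0 := by
  obtain ⟨s, hs, hs'⟩ := exists_hasDerivAt_eq_slope p5 (fun x => x * g5 x) h0
    cont_p5.continuousOn (fun x _ => hasDerivAt_p5 x)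
  obtain ⟨q, hq, hq'⟩ := exists_hasDerivAt_eq_slope p5 (fun x => x * g5 x) htr
    cont_p5.continuousOn (fun x _ => hasDerivAt_p5 x)
  have hp0 : p5 0 = 0 := by simp [p5]
  have h2 : s * g5 s ≤ 0 := by
    rw [hs', hp0]
    exact div_nonpos_of_nonpos_of_nonneg (by linarith) (by linarith)
  have h4 : g5 s ≤ 0 := by
    by_contra hc
    rw [not_le] at hc
    exact absurd (mul_pos hs.1 hc) (not_lt.2 h2)
  have h5 : g5 q < 0 := g5_down hs.1 h4 (lt_trans hs.2 hq.1) (by linarith [hq.2])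
  have h6 : q * g5 q < 0 := mul_neg_of_pos_of_neg (lt_trans h0 hq.1) h5
  rw [hq'] at h6
  by_contra hc
  rw [not_lt] at hc
  exact absurd h6 (not_lt.2 (div_nonneg (by linarith) (by linarith)))

private theorem jl1_eq {t : ℝ} (h0 : 0 < t) : t ^ 2 * jl 1 t = g5 t := by
  rw [jl]
  unfold g5
  field_simp

private theorem jl2_eq {t : ℝ} (h0 : 0 < t) : t ^ 3 * jl 2 t = p5 t := by
  rw [show (2 : ℕ) = 0 + 2 from rfl, jl, jl, jl]
  unfold p5
  push_cast
  field_simp
  ring

private theorem jl3_eq {t : ℝ} (h0 : 0 < t) : t ^ 4 * jl 3 t = p7 t := by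
  have e : jl 3 t = 5 / t * jl 2 t - jl 1 t := by
    have e1 : jl (1 + 2) t = (2 * ((1 : ℕ) : ℝ) + 3) / t * jl (1 + 1) t - jl 1 t := by
      conv_lhs => rw [jl]
    have e3 : (2 * ((1 : ℕ) : ℝ) + 3) = 5 := by norm_num
    rw [e3] at e1
    exact e1
  have e2 : t ^ 4 * jl 3 t = 5 * (t ^ 3 * jl 2 t) - t ^ 2 * (t ^ 2 * jl 1 t) := by
    rw [e]
    field_simp
  rw [e2, jl2_eq h0, jl1_eq h0]
  unfold p7 p5 g5
  ring

private theorem j3_pos {t : ℝ} (h0 : 0 < t) (h1 : t ≤ 6.98) : 0 < jl 3 t := by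
  have hP : 0 < p7 t := by
    by_contra hneg
    rw [not_lt] at hneg
    have hlt : t < 6.98 := by
      rcases lt_or_eq_of_le h1 with h | h
      · exact h
      · rw [h] at hneg
        exact absurd p7_698 (not_lt.2 hneg)
    obtain ⟨s, hs, hs'⟩ := exists_hasDerivAt_eq_slope p7 (fun x => x * p5 x) h0
      cont_p7.continuousOn (fun x _ => hasDerivAt_p7 x)
    obtain ⟨r, hr, hr'⟩ := exists_hasDerivAt_eq_slope p7 (fun x => x * p5 x) hlt
      cont_p7.continuousOn (fun x _ => hasDerivAt_p7 x)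
    have hp0 : p7 0 = 0 := by simp [p7]
    have h2 : s * p5 s ≤ 0 := by
      rw [hs', hp0]
      exact div_nonpos_of_nonpos_of_nonneg (by linarith) (by linarith)
    have h3 : 0 < r * p5 r := by
      rw [hr']
      exact div_pos (by linarith [p7_698]) (by linarith)
    have h4 : p5 s ≤ 0 := by
      by_contra hc
      rw [not_le] at hc
      exact absurd (mul_pos hs.1 hc) (not_lt.2 h2)
    have hr0 : 0 < r := lt_trans h0 hr.1
    have h5 : 0 < p5 r := (mul_pos_iff_of_pos_left hr0).1 h3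
    exact absurd h5 (not_lt.2 (p5_down hs.1 h4 (lt_trans hs.2 hr.1) hr.2.le).le)
  rw [← jl3_eq h0] at hP
  exact (mul_pos_iff_of_pos_left (by positivity)).1 hP

theorem jl_pos_698 {l : ℕ} (hl : 3 ≤ l) {t : ℝ} (h0 : 0 < t) (h1 : t ≤ 6.98) : 0 < jl l t := by
  have key : ∀ l : ℕ, 3 ≤ l → ∀ t : ℝ, 0 < t → t ≤ 6.98 → 0 < jl l t := by
    intro l hl
    induction l, hl using Nat.le_induction with
    | base => exact fun t h0 h1 => j3_pos h0 h1
    | succ l _ ih => exact jl_pos_succ l ih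
  exact key l hl t h0 h1

private theorem g5_zero {t : ℝ} (h0 : 0 < t) (h : jl 1 t = 0) : g5 t = 0 := by
  rw [← jl1_eq h0, h, mul_zero]

private theorem p5_zero {t : ℝ} (h0 : 0 < t) (h : jl 2 t = 0) : p5 t = 0 := by
  rw [← jl2_eq h0, h, mul_zero]

theorem j1_one' {t t' : ℝ} (h0 : 0 < t) (h1 : t ≤ 6.98) (h0' : 0 < t') (h1' : t' ≤ 6.98)
    (h : jl 1 t = 0) (h' : jl 1 t' = 0) : t = t' := by
  have a := g5_zero h0 h
  have a' := g5_zero h0' h'
  rcases lt_trichotomy t t' with hl | hl | hl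
  · exact absurd a' (g5_down h0 a.le hl h1').ne
  · exact hl
  · exact absurd a (g5_down h0' a'.le hl h1).ne

theorem j2_one' {t t' : ℝ} (h0 : 0 < t) (h1 : t ≤ 6.98) (h0' : 0 < t') (h1' : t' ≤ 6.98)
    (h : jl 2 t = 0) (h' : jl 2 t' = 0) : t = t' := by
  have a := p5_zero h0 h
  have a' := p5_zero h0' h'
  rcases lt_trichotomy t t' with hl | hl | hl
  · exact absurd a' (p5_down h0 a.le hl h1').ne
  · exact hl
  · exact absurd a (p5_down h0' a'.le hl h1).ne

end Pool.Agent.H68.SM
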