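import Pool.Agent.H68.SM.Defs
import Pool.Agent.H68.SC.Kill

/-!
# Parities of Killing derivatives (proved)
-/

set_option autoImplicit false

namespace Pool.Agent.H68.SM

open Filter Topology MeasureTheory Metric
open scoped ContDiff
open Pool.Agent.H68.SC

/-! ### parities of Killing derivatives -/

theorem crs_rf (j : Fin 3) (b x : E) : rf j (crs b (rf j x)) = crs (-rf j b) x := by
  ext i
  rw [rf_apply]
  fin_cases j <;> fin_cases i <;>
    simp only [Fin.zero_eta, Fin.mk_one, Fin.reduceFinMk, crs_apply0, crs_apply1, crs_apply2,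
      PiLp.neg_apply, rf_apply] <;> simp <;> ring

theorem ww_rf {U : E → ℝ} (hU : Differentiable ℝ U) {j : Fin 3} (hj : ∀ x, U (rf j x) = U x)
    (p : E × E) (x : E) : ww U p (rf j x) = ww U (rf j p.1, -rf j p.2) x := by
  have h1 : ∀ v, fderiv ℝ U (rf j x) v = fderiv ℝ U x (rf j v) := by
    intro v
    have h2 : HasFDerivAt (fun y => U (rf j y))
        ((fderiv ℝ U (rf j (rf j x))).comp (rfI j).toContinuousLinearEquiv.toContinuousLinearMap)
        (rf j x) :=
      HasFDerivAt.comp (rf j x) (hU _).hasFDerivAt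
        (rfI j).toContinuousLinearEquiv.hasFDerivAt
    have h3 : (fun y => U (rf j y)) = U := funext hj
    rw [h3] at h2
    rw [h2.fderiv, rf_rf]
    rfl
  unfold ww kf
  rw [h1, rf_add, crs_rf]

theorem ww_neg (U : E → ℝ) (p : E × E) : ww U (-p) = -ww U p := by
  have := ww_smul U (-1) p
  rw [neg_one_smul, neg_one_smul] at this
  exact this

theorem rf_ee (j i : Fin 3) : rf j (ee i) = if i = j then -ee i else ee i := by
  ext m
  rw [rf_apply]
  split_ifs with h1 h2 h2 <;>
    simp only [PiLp.neg_apply, ee_apply] <;> split_ifs <;> simp_all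

theorem rf_zero' (j : Fin 3) : rf j (0 : E) = 0 := by
  ext m; rw [rf_apply]; simp

end Pool.Agent.H68.SM
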