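import Pool.Agent.H68.SM.Defs
import Pool.Agent.H68.SC.Up

/-!
# Module UpP (about 180 lines): the upper count in a parity class

PROOF. `sg_rf`: `sg` is invariant under the linear isometry `rfI j` (see `Pool/Agent/H53/SH/Rot.lean`, or
the proof of `sg_neg` in module Polar). `momP_zero`: the integrand `F y = g (r • y) * Y l i y`
satisfies `F (rf j y) = e j * p * F y` with `e j * p = -1` (both are signs, `p ≠ e j`), so by `sg_rf` the
integral is minus itself. `upperP`: copy the proof of `upper` (H68/SC/Up.lean) with the index set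
`{(l, t, i) | l < L, t ∈ Zc l (k R), i with ∀ j, e j ≠ 0 → p l i j = e j}` of cardinality
`∑ l, cnt H e l * ncard`; for the other `i` the moments vanish by `momP_zero`.
-/

set_option autoImplicit false

namespace Pool.Agent.H68.SM

open Filter Topology MeasureTheory Metric
open scoped ContDiff
open Pool.Agent.H68.SC

theorem sg_rf (f : E → ℝ) (j : Fin 3) :
    ∫ y : S2, f (rf j (y : E)) ∂sg = ∫ y : S2, f y ∂sg :=
  Pool.H53.SH.integral_sphMap (rfI j) (fun y => f y)

theorem momP_zero (H : HarmP) {e : Fin 3 → ℝ} (he : ∀ j, e j = 0 ∨ e j = 1 ∨ e j = -1)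
    {g : E → ℝ} (hg : g ∈ Cl e) {l : ℕ} {i : Fin (H.d l)} {j : Fin 3} (hj : e j ≠ 0)
    (hp : H.p l i j ≠ e j) (r : ℝ) : mom H.toHarm g l i r = 0 := by
  have hs : e j * H.p l i j = -1 := by
    rcases he j with h | h | h
    · exact absurd h hj
    · rcases H.p_sign l i j with h' | h'
      · exact absurd (h'.trans h.symm) hp
      · rw [h, h']; ring
    · rcases H.p_sign l i j with h' | h'
      · rw [h, h']; ring
      · exact absurd (h'.trans h.symm) hp
  have h1 := sg_rf (fun y => g (r • y) * H.Y l i y) j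
  have h2 : ∀ y : S2, g (r • rf j (y : E)) * H.Y l i (rf j (y : E)) =
      -(g (r • (y : E)) * H.Y l i (y : E)) := by
    intro y
    have hy : ‖(y : E)‖ = 1 := by simp
    rw [← rf_smul, hg j hj, H.refl l i j y hy]
    have : e j * g (r • (y : E)) * (H.p l i j * H.Y l i y) =
        (e j * H.p l i j) * (g (r • (y : E)) * H.Y l i y) := by ring
    rw [this, hs]
    ring
  rw [integral_congr_ae (Eventually.of_forall h2), integral_neg] at h1
  unfold mom
  linarith

private theorem upP_k2 {k R : ℝ} (hR : 0 < R) {L : ℕ}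
    (hL : (k * R) ^ 2 < (L : ℝ) * (L + 1)) :
    ∃ k₂ : ℝ, k < k₂ ∧ (k₂ * R) ^ 2 ≤ (L : ℝ) * (L + 1) ∧
      ∀ l, l < L → Zc l (k₂ * R) = Zc l (k * R) := by
  choose T hT1 hT2 using fun l => Zc_extend l (k * R)
  have c1 : ContinuousAt (fun x : ℝ => x * R) k := by fun_prop
  have c2 : ContinuousAt (fun x : ℝ => (x * R) ^ 2) k := by fun_prop
  have e1 : ∀ᶠ x in 𝓝[>] k, ∀ l ∈ Finset.range L, x * R < T l := by
    rw [Filter.eventually_all_finset]
    intro l _
    exact (c1.eventually_lt continuousAt_const (hT1 l)).filter_mono nhdsWithin_le_nhds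
  have e2 : ∀ᶠ x in 𝓝[>] k, (x * R) ^ 2 < (L : ℝ) * (L + 1) :=
    (c2.eventually_lt continuousAt_const hL).filter_mono nhdsWithin_le_nhds
  have e3 : ∀ᶠ x in 𝓝[>] k, k < x := self_mem_nhdsWithin
  obtain ⟨k₂, h1, h2, h3⟩ := (e1.and (e2.and e3)).exists
  refine ⟨k₂, h3, h2.le, fun l hl => ?_⟩
  apply Set.Subset.antisymm
  · rw [← hT2 l]
    exact fun t ht => ⟨ht.1, ht.2.1.trans (h1 l (Finset.mem_range.2 hl)).le, ht.2.2⟩
  · exact fun t ht => ⟨ht.1, ht.2.1.trans (mul_le_mul_of_nonneg_right h3.le hR.le), ht.2.2⟩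

private theorem upP_qf (H : HarmP) {e : Fin 3 → ℝ} (he : ∀ j, e j = 0 ∨ e j = 1 ∨ e j = -1)
    {k₂ R : ℝ} (hk : 0 < k₂) (hR : 0 < R) {f : E → ℝ} (hf : f ∈ C1c (ball 0 R)) (hfs : f ∈ Cl e)
    (l : ℕ) (i : Fin (H.d l))
    (h0 : (∀ j, e j ≠ 0 → H.p l i j = e j) →
      ∀ t ∈ Zc l (k₂ * R), mom H.toHarm f l i (t / k₂) = 0) :
    0 ≤ qf l (k₂ ^ 2) R (mom H.toHarm f l i) (dmom H.toHarm f l i) := by
  have hf1 : ContDiff ℝ 1 f := C1c.contDiff hf
  by_cases hl : ∀ j, e j ≠ 0 → H.p l i j = e j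
  · refine picB l hk hR (mom_deriv H.toHarm hf1 l i) (dmom_cont H.toHarm hf1 l i) ?_ (h0 hl)
    refine mom_zero H.toHarm hR.le (fun x hx => ?_) l i (le_refl R)
    apply image_eq_zero_of_notMem_tsupport
    intro hc
    have := C1c.sub hf hc
    rw [mem_ball, dist_zero_right] at this
    exact absurd hx (not_le.2 this)
  · push Not at hl
    obtain ⟨j, hj, hp⟩ := hl
    have h1 : mom H.toHarm f l i = fun _ => 0 := funext fun r => momP_zero H he hfs hj hp r
    have h2 : dmom H.toHarm f l i = fun _ => 0 := by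
      funext r
      have h3 := mom_deriv H.toHarm hf1 l i r
      rw [h1] at h3
      exact h3.unique (hasDerivAt_const r 0)
    rw [h1, h2]
    unfold qf
    simp

open Classical in
private theorem upP_card (H : HarmP) (e : Fin 3 → ℝ) (T : ℝ) (L : ℕ) [∀ l, Fintype (Zc l T)] :
    Fintype.card (Σ l : Fin L, (Zc (l : ℕ) T) × {i : Fin (H.d l) //
      ∀ j, e j ≠ 0 → H.p l i j = e j}) =
      ∑ l ∈ Finset.range L, cnt H e l * (Zc l T).ncard := by
  rw [Fintype.card_sigma, Finset.sum_range]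
  refine Finset.sum_congr rfl fun l _ => ?_
  rw [Fintype.card_prod, mul_comm, Set.ncard_eq_toFinset_card', Set.toFinset_card]
  congr 1
  unfold cnt
  rw [Fintype.card_subtype]

open Classical in
theorem upperP (H : HarmP) {e : Fin 3 → ℝ} (he : ∀ j, e j = 0 ∨ e j = 1 ∨ e j = -1)
    {k R : ℝ} (hk : 0 < k) (hR : 0 < R) {L : ℕ} (hL : (k * R) ^ 2 < (L : ℝ) * (L + 1)) :
    AtMost (Cl e) (ball 0 R) (k ^ 2)
      (∑ l ∈ Finset.range L, cnt H e l * (Zc l (k * R)).ncard) := by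
  obtain ⟨k₂, hk2, hL2, hZ⟩ := upP_k2 hR hL
  have hk20 : 0 < k₂ := hk.trans hk2
  have hε : 0 < (k₂ ^ 2 - k ^ 2) / 2 := by nlinarith
  refine ⟨(k₂ ^ 2 - k ^ 2) / 2, hε, fun F hF hfin hq => ?_⟩
  have : ∀ l, Fintype (Zc l (k * R)) := fun l => (Zc_finite l (k * R)).fintype
  rw [← upP_card H e (k * R) L]
  let Λ : F →ₗ[ℝ] ((Σ l : Fin L, (Zc (l : ℕ) (k * R)) × {i : Fin (H.d l) //
      ∀ j, e j ≠ 0 → H.p l i j = e j}) → ℝ) :=
    { toFun := fun f p => mom H.toHarm (f : E → ℝ) p.1 p.2.2.1 ((p.2.1 : ℝ) / k₂)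
      map_add' := fun f g => funext fun p =>
        mom_add H.toHarm (C1c.cont (hF f.2).1) (C1c.cont (hF g.2).1) _ _ _
      map_smul' := fun a f => funext fun p => mom_smul H.toHarm a (f : E → ℝ) _ _ _ }
  have hinj : Function.Injective Λ := by
    rw [injective_iff_map_eq_zero]
    intro f hf
    by_contra hne
    have hne' : (f : E → ℝ) ≠ 0 := fun h => hne (Subtype.ext h)
    have hC := (hF f.2).1
    have h1 : ∀ l ∈ Finset.range L, ∀ i ∈ (Finset.univ : Finset (Fin (H.d l))),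
        0 ≤ qf l (k₂ ^ 2) R (mom H.toHarm (f : E → ℝ) l i) (dmom H.toHarm (f : E → ℝ) l i) := by
      intro l hl i _
      rw [Finset.mem_range] at hl
      refine upP_qf H he hk20 hR hC (hF f.2).2 l i fun hsl t ht => ?_
      rw [hZ l hl] at ht
      exact congrFun hf ⟨⟨l, hl⟩, (⟨t, ht⟩, ⟨i, hsl⟩)⟩
    have h2 : 0 ≤ BB (k₂ ^ 2) (f : E → ℝ) f :=
      (Finset.sum_nonneg fun l hl => Finset.sum_nonneg (h1 l hl)).trans
        (lower H.toHarm hR hC (sq_nonneg k₂) (by rw [← mul_pow]; exact hL2))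
    rw [BB_self hC] at h2
    have h3 := hq f f.2
    have h4 := int_sq_pos (C1c.cont hC) (C1c.compact hC) hne'
    nlinarith
  have h5 := LinearMap.finrank_le_finrank_of_injective hinj
  rwa [Module.finrank_fintype_fun_eq_card] at h5

end Pool.Agent.H68.SM
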