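import Pool.Agent.H68.SM.Ground
import Pool.Agent.H68.SM.CoreG
import Pool.Agent.H68.SM.UpP
import Pool.Agent.H68.SM.HarmPx
import Pool.Agent.H68.SM.Geo
import Pool.Agent.H68.SM.J698
import Pool.Agent.H68.SM.Par
import Pool.Agent.H68.SC.Fin

/-!
# Mirror symmetric domains (proved from the modules)
-/

set_option autoImplicit false

namespace Pool.Agent.H68.SM

open Filter Topology MeasureTheory Metric
open scoped ContDiff
open Pool.Agent.H68.SC

/-! ### counts -/

theorem cnt_A0 (H : HarmP) : cnt H eA 0 = 0 := by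
  classical
  unfold cnt
  rw [Finset.card_eq_zero, Finset.filter_eq_empty_iff]
  intro i _ h
  have h1 := h 0 (by simp [eA])
  rw [H.a0 i] at h1
  simp [eA] at h1
  norm_num at h1

theorem cnt_B0 (H : HarmP) : cnt H eB 0 = 0 := by
  classical
  unfold cnt
  rw [Finset.card_eq_zero, Finset.filter_eq_empty_iff]
  intro i _ h
  have h1 := h 0 (by simp [eB])
  rw [H.a0 i] at h1
  simp [eB] at h1
  norm_num at h1

theorem mem_A (H : HarmP) (l : ℕ) (i : Fin (H.d l)) :
    (∀ j, eA j ≠ 0 → H.p l i j = eA j) ↔ H.p l i 0 = -1 := by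
  constructor
  · intro h
    have := h 0 (by simp [eA])
    simpa [eA] using this
  · intro h j hj
    fin_cases j
    · simpa [eA] using h
    · simp [eA] at hj
    · simp [eA] at hj

theorem mem_B (H : HarmP) (l : ℕ) (i : Fin (H.d l)) :
    (∀ j, eB j ≠ 0 → H.p l i j = eB j) ↔ H.p l i 0 = -1 ∧ H.p l i 1 = 1 := by
  constructor
  · intro h
    have h0 := h 0 (by simp [eB])
    have h1 := h 1 (by simp [eB])
    exact ⟨by simpa [eB] using h0, by simpa [eB] using h1⟩
  · rintro ⟨h0, h1⟩ j hj
    fin_cases j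
    · simpa [eB] using h0
    · simpa [eB] using h1
    · simp [eB] at hj

theorem cnt_A1 (H : HarmP) : cnt H eA 1 = 1 := by
  classical
  refine Eq.trans ?_ H.a1
  unfold cnt
  congr 1
  ext i
  simp only [Finset.mem_filter, Finset.mem_univ, true_and]
  exact mem_A H 1 i

theorem cnt_A2 (H : HarmP) : cnt H eA 2 = 2 := by
  classical
  refine Eq.trans ?_ H.a2
  unfold cnt
  congr 1
  ext i
  simp only [Finset.mem_filter, Finset.mem_univ, true_and]
  exact mem_A H 2 i

theorem cnt_B1 (H : HarmP) : cnt H eB 1 = 1 := by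
  classical
  refine Eq.trans ?_ H.b1
  unfold cnt
  congr 1
  ext i
  simp only [Finset.mem_filter, Finset.mem_univ, true_and]
  exact mem_B H 1 i

theorem cnt_B2 (H : HarmP) : cnt H eB 2 = 1 := by
  classical
  refine Eq.trans ?_ H.b2
  unfold cnt
  congr 1
  ext i
  simp only [Finset.mem_filter, Finset.mem_univ, true_and]
  exact mem_B H 2 i

theorem ncard_le_one' {l : ℕ} {T : ℝ}
    (h : ∀ t t', 0 < t → t ≤ T → 0 < t' → t' ≤ T → jl l t = 0 → jl l t' = 0 → t = t') :
    (Zc l T).ncard ≤ 1 := by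
  have h2 : (Zc l T).Subsingleton := by
    rintro t ⟨h1, h2, h3⟩ t' ⟨h4, h5, h6⟩
    exact h t t' h1 h2 h4 h5 h3 h6
  have : Finite (Zc l T) := h2.finite
  exact Set.ncard_le_one_iff_subsingleton.2 h2

/-- the count in a class with `cnt 0 = 0` -/
theorem sum_le (c : ℕ → ℕ) (h0 : c 0 = 0) {T : ℝ} (hT : T ≤ 6.98) (L : ℕ) :
    ∑ l ∈ Finset.range L, c l * (Zc l T).ncard ≤ c 1 + c 2 := by
  have h1 : (Zc 1 T).ncard ≤ 1 := ncard_le_one' fun t t' a1 a2 a3 a4 a5 a6 =>
    j1_one' a1 (a2.trans hT) a3 (a4.trans hT) a5 a6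
  have h2 : (Zc 2 T).ncard ≤ 1 := ncard_le_one' fun t t' a1 a2 a3 a4 a5 a6 =>
    j2_one' a1 (a2.trans hT) a3 (a4.trans hT) a5 a6
  have h3 : ∀ l, 3 ≤ l → (Zc l T).ncard = 0 := by
    intro l hl
    have : Zc l T = ∅ := by
      ext t
      simp only [Set.mem_empty_iff_false, iff_false]
      rintro ⟨a1, a2, a3⟩
      exact (jl_pos_698 hl a1 (a2.trans hT)).ne' a3
    rw [this, Set.ncard_empty]
  calc ∑ l ∈ Finset.range L, c l * (Zc l T).ncard
      ≤ ∑ l ∈ Finset.range (L + 3), c l * (Zc l T).ncard :=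
        Finset.sum_le_sum_of_subset (Finset.range_mono (by omega))
    _ = ∑ l ∈ Finset.range L, c (l + 3) * (Zc (l + 3) T).ncard +
        (c 0 * (Zc 0 T).ncard + c 1 * (Zc 1 T).ncard + c 2 * (Zc 2 T).ncard) := by
        rw [Finset.sum_range_succ', Finset.sum_range_succ', Finset.sum_range_succ']
        ring
    _ ≤ c 1 + c 2 := by
        have h4 : ∑ l ∈ Finset.range L, c (l + 3) * (Zc (l + 3) T).ncard = 0 :=
          Finset.sum_eq_zero fun l _ => by rw [h3 (l + 3) (by omega), mul_zero]
        rw [h4, h0, zero_mul, zero_add, zero_add]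
        exact Nat.add_le_add (by nlinarith) (by nlinarith)

/-! ### the axisymmetric case -/

theorem axisB {D : Set E} {φ : E → ℝ} {k c : ℝ} {u : E → ℝ} (h : Sol D φ k c u)
    (h0 : ww (extU D c u) (0, ee 2) = 0) {R : ℝ} (h2 : D ⊆ ball 0 R) (hR : k * R ≤ 6.98) :
    ∃ (z : E) (r : ℝ), D = ball z r := by
  by_contra hball
  have h' := ext_UU h
  set U := extU D c u with hU
  have hUd : Differentiable ℝ U := h'.C1.differentiable one_ne_zero
  have hev := refl_even h' h0
  have hin := refl_inv h h0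
  have hK : (0 : ℝ) < k ^ 2 := by have := h'.kpos; positivity
  have hRp := radius_pos h h2
  set w : Fin 2 → E → ℝ := ![ww U (ee 0, 0), ww U (0, ee 1)] with hw
  have hwE : ∀ i, Eigf D (k ^ 2) (w i) := by
    intro i
    fin_cases i
    · exact ww_eigf h' _
    · exact ww_eigf h' _
  have hwC : ∀ i, w i ∈ Cl eB := by
    intro i j hj x
    fin_cases i
    · change ww U (ee 0, 0) (rf j x) = eB j * ww U (ee 0, 0) x
      fin_cases j
      · change ww U (ee 0, 0) (rf 0 x) = eB 0 * ww U (ee 0, 0) x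
        rw [ww_rf hUd (hev 0 (by decide))]
        have e1 : (rf 0 (ee 0), -rf 0 (0 : E)) = -((ee 0, 0) : E × E) := by
          rw [rf_ee, rf_zero']; simp
        rw [e1, ww_neg]; simp [eB]
      · change ww U (ee 0, 0) (rf 1 x) = eB 1 * ww U (ee 0, 0) x
        rw [ww_rf hUd (hev 1 (by decide))]
        have e1 : (rf 1 (ee 0), -rf 1 (0 : E)) = ((ee 0, 0) : E × E) := by
          rw [rf_ee, rf_zero']; simp
        rw [e1]; simp [eB]
      · exact absurd rfl hj
    · change ww U (0, ee 1) (rf j x) = eB j * ww U (0, ee 1) x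
      fin_cases j
      · change ww U (0, ee 1) (rf 0 x) = eB 0 * ww U (0, ee 1) x
        rw [ww_rf hUd (hev 0 (by decide))]
        have e1 : (rf 0 (0 : E), -rf 0 (ee 1)) = -((0, ee 1) : E × E) := by
          rw [rf_ee, rf_zero']; simp
        rw [e1, ww_neg]; simp [eB]
      · change ww U (0, ee 1) (rf 1 x) = eB 1 * ww U (0, ee 1) x
        rw [ww_rf hUd (hev 1 (by decide))]
        have e1 : (rf 1 (0 : E), -rf 1 (ee 1)) = ((0, ee 1) : E × E) := by
          rw [rf_ee, rf_zero']; simp
        rw [e1]; simp [eB]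
      · exact absurd rfl hj
  have hli : LinearIndependent ℝ w := by
    rw [Fintype.linearIndependent_iff]
    intro g hg
    rw [Fin.sum_univ_two] at hg
    by_contra hne
    push Not at hne
    have hg' : ww U (g 0 • ee 0, g 1 • ee 1) = 0 := by
      have e1 : ((g 0 • ee 0, g 1 • ee 1) : E × E) = g 0 • (ee 0, 0) + g 1 • (0, ee 1) := by
        simp
      rw [e1, ww_add, ww_smul, ww_smul]
      exact hg
    have hk1 := ball_or h hball ⊤
    rw [← hU] at hk1
    have hk2 : 2 ≤ Module.finrank ℝ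
        ((⊤ : Submodule ℝ (E × E)) ⊓ LinearMap.ker (wwL U) : Submodule ℝ (E × E)) := by
      have m1 : ((0, ee 2) : E × E) ∈
          ((⊤ : Submodule ℝ (E × E)) ⊓ LinearMap.ker (wwL U) : Submodule ℝ (E × E)) :=
        ⟨trivial, h0⟩
      have m2 : ((g 0 • ee 0, g 1 • ee 1) : E × E) ∈
          ((⊤ : Submodule ℝ (E × E)) ⊓ LinearMap.ker (wwL U) : Submodule ℝ (E × E)) :=
        ⟨trivial, hg'⟩
      have m3 : LinearIndependent ℝ ![(⟨_, m1⟩ :
          ((⊤ : Submodule ℝ (E × E)) ⊓ LinearMap.ker (wwL U) : Submodule ℝ (E × E))), ⟨_, m2⟩] := by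
        rw [LinearIndependent.pair_iff]
        intro s t hst
        have hst' : s • ((0, ee 2) : E × E) + t • ((g 0 • ee 0, g 1 • ee 1) : E × E) = 0 := by
          have := congrArg Subtype.val hst
          simpa using this
        have c1 : s • (ee 2 : E) + t • (g 1 • ee 1) = 0 := by
          have := congrArg Prod.snd hst'
          simpa using this
        have c0 : t • (g 0 • (ee 0 : E)) = 0 := by
          have := congrArg Prod.fst hst'
          simpa using this
        have d2 : s = 0 := by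
          have := congrArg (fun v : E => v 2) c1
          simpa using this
        have d1 : t * g 1 = 0 := by
          have := congrArg (fun v : E => v 1) c1
          simpa using this
        have d0 : t * g 0 = 0 := by
          have := congrArg (fun v : E => v 0) c0
          simpa using this
        refine ⟨d2, ?_⟩
        obtain ⟨i, hi⟩ := hne
        fin_cases i
        · exact (mul_eq_zero.1 d0).resolve_right hi
        · exact (mul_eq_zero.1 d1).resolve_right hi
      have := m3.fintype_card_le_finrank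
      simpa using this
    omega
  have hDe : ∀ j, eB j ≠ 0 → ∀ x ∈ D, rf j x ∈ D := by
    intro j hj
    have : j ≠ 2 := by rintro rfl; exact hj rfl
    exact hin j this
  have hg := ground h'.opn h'.bdd h.conn.isPreconnected h'.ne hK (e := eB) rfl
    (by intro j hj; fin_cases j
        · exact absurd rfl hj
        · exact Or.inr rfl
        · exact Or.inl rfl) hDe w hwE hwC hli
  obtain ⟨H⟩ := exists_harmP
  obtain ⟨L, -, hL⟩ := exists_L ((k * R) ^ 2)
  have heB : ∀ j, eB j = 0 ∨ eB j = 1 ∨ eB j = -1 := by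
    intro j; fin_cases j
    · exact Or.inr (Or.inr rfl)
    · exact Or.inr (Or.inl rfl)
    · exact Or.inl rfl
  have hup := (upperP H heB h.kpos hRp hL).mono h2
  have := coreG h'.opn h'.bdd hK heB hDe w hwE hwC hli hg hup
  have h5 := sum_le (cnt H eB) (cnt_B0 H) hR L
  rw [cnt_B1, cnt_B2] at h5
  omega

/-! ### the case without axis -/

theorem planeA {D : Set E} {φ : E → ℝ} {k c : ℝ} {u : E → ℝ} (h : Sol D φ k c u)
    (hin : ∀ x ∈ D, rf 0 x ∈ D) {R : ℝ} (h2 : D ⊆ ball 0 R) (hR : k * R ≤ 6.98) :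
    ∃ (z : E) (r : ℝ), D = ball z r := by
  by_contra hball
  have hv := symR h hin
  set v : E → ℝ := fun x => (u x + u (rf 0 x)) / 2 with hvdef
  have h' := ext_UU hv
  set U := extU D c v with hU
  have hUd : Differentiable ℝ U := h'.C1.differentiable one_ne_zero
  have hDn : ∀ x, rf 0 x ∈ D ↔ x ∈ D := fun x => ⟨fun hx => by simpa [rf_rf] using hin _ hx, hin x⟩
  have hev : ∀ x, U (rf 0 x) = U x := by
    intro x
    simp only [hU, extU, hvdef]
    by_cases hx : x ∈ D
    · rw [if_pos hx, if_pos ((hDn x).2 hx), rf_rf]; ring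
    · rw [if_neg hx, if_neg (fun hh => hx ((hDn x).1 hh))]
  have hK : (0 : ℝ) < k ^ 2 := by have := h'.kpos; positivity
  have hRp := radius_pos h h2
  -- the kernel is trivial
  have hker : ∀ p : E × E, ww U p = 0 → p = 0 := by
    intro p hp
    by_contra hp0
    obtain ⟨q, hq⟩ := rig1a h'
    have h3 := hq p hp
    have hb : p.2 ≠ 0 := by
      intro h4
      refine hp0 ?_
      rw [h4] at h3
      have h5 : crs 0 q = 0 := by
        have := crs_smul_left 0 0 q
        simpa using this
      rw [h5, neg_zero] at h3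
      exact Prod.ext h3 h4
    have h4 : ww (extU D c v) (-crs p.2 q, p.2) = 0 := by
      rw [← h3]; exact hp
    obtain ⟨D', φ', u', h5, h6, h7, h8⟩ := to_axis hv hb h4 h2
    exact hball (h8 (axisB h5 h6 h7 hR))
  set w : Fin 3 → E → ℝ := ![ww U (ee 0, 0), ww U (0, ee 1), ww U (0, ee 2)] with hw
  have hwE : ∀ i, Eigf D (k ^ 2) (w i) := by
    intro i
    fin_cases i
    · exact ww_eigf h' _
    · exact ww_eigf h' _
    · exact ww_eigf h' _
  have hwC : ∀ i, w i ∈ Cl eA := by
    intro i j hj x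
    have hj0 : j = 0 := by
      fin_cases j
      · rfl
      · exact absurd rfl hj
      · exact absurd rfl hj
    subst hj0
    fin_cases i
    · change ww U (ee 0, 0) (rf 0 x) = eA 0 * ww U (ee 0, 0) x
      rw [ww_rf hUd hev]
      have e1 : (rf 0 (ee 0), -rf 0 (0 : E)) = -((ee 0, 0) : E × E) := by
        rw [rf_ee, rf_zero']; simp
      rw [e1, ww_neg]; simp [eA]
    · change ww U (0, ee 1) (rf 0 x) = eA 0 * ww U (0, ee 1) x
      rw [ww_rf hUd hev]
      have e1 : (rf 0 (0 : E), -rf 0 (ee 1)) = -((0, ee 1) : E × E) := by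
        rw [rf_ee, rf_zero']; simp
      rw [e1, ww_neg]; simp [eA]
    · change ww U (0, ee 2) (rf 0 x) = eA 0 * ww U (0, ee 2) x
      rw [ww_rf hUd hev]
      have e1 : (rf 0 (0 : E), -rf 0 (ee 2)) = -((0, ee 2) : E × E) := by
        rw [rf_ee, rf_zero']; simp
      rw [e1, ww_neg]; simp [eA]
  have hli : LinearIndependent ℝ w := by
    rw [Fintype.linearIndependent_iff]
    intro g hg
    rw [Fin.sum_univ_three] at hg
    have hg' : ww U (g 0 • ee 0, g 1 • ee 1 + g 2 • ee 2) = 0 := by
      have e1 : ((g 0 • ee 0, g 1 • ee 1 + g 2 • ee 2) : E × E) =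
          g 0 • (ee 0, 0) + g 1 • (0, ee 1) + g 2 • (0, ee 2) := by
        simp
      rw [e1, ww_add, ww_add, ww_smul, ww_smul, ww_smul]
      exact hg
    have h3 := hker _ hg'
    have c0 : g 0 • (ee 0 : E) = 0 := congrArg Prod.fst h3
    have c1 : g 1 • (ee 1 : E) + g 2 • ee 2 = 0 := congrArg Prod.snd h3
    intro i
    fin_cases i
    · have := congrArg (fun v : E => v 0) c0
      simpa using this
    · have := congrArg (fun v : E => v 1) c1
      simpa using this
    · have := congrArg (fun v : E => v 2) c1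
      simpa using this
  have hDe : ∀ j, eA j ≠ 0 → ∀ x ∈ D, rf j x ∈ D := by
    intro j hj
    have hj0 : j = 0 := by
      fin_cases j
      · rfl
      · exact absurd rfl hj
      · exact absurd rfl hj
    subst hj0
    exact hin
  have hli2 : LinearIndependent ℝ (fun i : Fin 2 => w (Fin.castSucc i)) :=
    hli.comp _ (Fin.castSucc_injective 2)
  have hg := ground h'.opn h'.bdd h.conn.isPreconnected h'.ne hK (e := eA) rfl
    (by intro j hj; fin_cases j
        · exact absurd rfl hj
        · exact Or.inl rfl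
        · exact Or.inl rfl) hDe (fun i : Fin 2 => w (Fin.castSucc i)) (fun i => hwE _)
    (fun i => hwC _) hli2
  obtain ⟨H⟩ := exists_harmP
  obtain ⟨L, -, hL⟩ := exists_L ((k * R) ^ 2)
  have heA : ∀ j, eA j = 0 ∨ eA j = 1 ∨ eA j = -1 := by
    intro j; fin_cases j
    · exact Or.inr (Or.inr rfl)
    · exact Or.inl rfl
    · exact Or.inl rfl
  have hup := (upperP H heA h.kpos hRp hL).mono h2
  have := coreG h'.opn h'.bdd hK heA hDe w hwE hwC hli hg hup
  have h5 := sum_le (cnt H eA) (cnt_A0 H) hR L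
  rw [cnt_A1, cnt_A2] at h5
  omega

/-- a domain with a plane of symmetry -/
theorem mirror {D : Set E} {φ : E → ℝ} {k c : ℝ} {u : E → ℝ} (h : Sol D φ k c u) {a ν : E}
    (hν : ‖ν‖ = 1) (hs : ∀ x ∈ D, x - (2 * inner ℝ (x - a) ν) • ν ∈ D) {x₀ : E} {R : ℝ}
    (h2 : D ⊆ ball x₀ R) (hR : k * R ≤ 6.98) : ∃ (z : E) (r : ℝ), D = ball z r := by
  obtain ⟨D', φ', u', h3, h4, h5, h6⟩ := to_plane h hν hs h2
  exact h6 (planeA h3 h4 h5 hR)

end Pool.Agent.H68.SM
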